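import Pool.Agent.Helper80.GH.Pow2

/-!
# Every tree with `2 ^ k` edges decomposes `K_{2 ^ k, 2 ^ k}`
-/

namespace Pool.Agent.Helper80.GH

open Finset Pool.Agent.Helper19.GH

variable {V : Type} [Fintype V] [DecidableEq V]

lemma gap_add_two (d : ℕ) (hd : 2 ≤ d) : gap d + 2 ≤ d ∧ 2 * gap d < 2 ^ Nat.clog 2 d := by
  obtain ⟨h1, h2⟩ := gap_spec d (by omega)
  have h4 : 0 < Nat.clog 2 d := Nat.clog_pos (by norm_num) hd
  have h5 : 2 ^ Nat.clog 2 d = 2 * 2 ^ (Nat.clog 2 d - 1) := by
    rw [← pow_succ']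
    congr 1
    omega
  omega

/-- From stars to the decomposition. -/
lemma decomposes_stars {k : ℕ} (T : SimpleGraph V) [DecidableRel T.Adj] (r : V)
    (par : V → V) (d : V → ℕ) (hn : Fintype.card V = 2 ^ k + 1)
    (hpar : ∀ x, x ≠ r → T.Adj x (par x) ∧ d x = d (par x) + 1)
    (hedge : ∀ u w, T.Adj u w → (u ≠ r ∧ par u = w) ∨ (w ≠ r ∧ par w = u))
    (hA : ∀ u w, T.Adj u w → (Even (d u) ↔ ¬ Even (d w)))
    (hr : Even (d r)) (K Λ : Finset V) (hK : ∀ b ∈ K, ¬ Even (d b)) (hΛ : ∀ b ∈ Λ, ¬ Even (d b))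
    (hcov : ∀ b, ¬ Even (d b) → b ∈ K ∨ b ∈ Λ) (hKΛ : Disjoint K Λ)
    (j : V → ℕ) (hjk : ∀ b ∈ K, j b ≤ k) (L : V → Finset V) (hL1 : ∀ b ∈ K, L b ⊆ Λ)
    (hL2 : ∀ b ∈ K, ∀ b' ∈ K, b ≠ b' → Disjoint (L b) (L b'))
    (hcount : ∑ b ∈ K, 2 ^ j b + Λ.card = 2 ^ k + ∑ b ∈ K, (L b).card)
    (f : V → Fin k → ZMod 2) (hf : ∀ a a', Even (d a) → Even (d a') → f a = f a' → a = a')
    (s : V → Fin k → ZMod 2)
    (hstar : ∀ b ∈ K, ∃ π : (Fin k → ZMod 2) →+ (Fin k → ZMod 2), (∀ x, π x ∈ Vs k (j b)) ∧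
      (∀ x ∈ Vs k (j b), π x = x) ∧ StarOK r par (j b) (s b) (L b) π f b) :
    Decomposes T (completeBipartiteGraph (Fin (2 ^ k)) (Fin (2 ^ k))) := by
  classical
  have hne : ∀ b, ¬ Even (d b) → b ≠ r := by
    rintro b hb rfl
    exact hb hr
  have hparity : ∀ x, x ≠ r → (Even (d x) ↔ ¬ Even (d (par x))) := fun x hx =>
    hA x (par x) (hpar x hx).1
  choose! π hπ1 hπ2 hπ3 using hstar
  have hκ : ∀ b, ∃ κ : V → Fin k → ZMod 2, b ∈ K → (∀ u, κ u ∈ Vs k (j b)) ∧
      (∀ u ∈ L b, ∀ u' ∈ L b, κ u - π b (f (par u) - s b) = κ u' - π b (f (par u') - s b) →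
        u = u') ∧ (∀ u ∈ L b, κ u ≠ π b (f (par u) - s b)) ∧
      ∀ w ∈ Vs k (j b), w = π b (f (par b) - s b) ∨ (∃ y ∈ ch r par b, f y - s b = w) ∨
        ∃ u ∈ L b, κ u = w := by
    intro b
    by_cases hb : b ∈ K
    · obtain ⟨_, _, κ, h⟩ := hπ3 b hb
      exact ⟨κ, fun _ => h⟩
    · exact ⟨0, fun h => absurd h hb⟩
  choose κ hκ using hκ
  have hchK : ∀ b ∈ K, ∀ y ∈ ch r par b, f y - s b ∈ Vs k (j b) := fun b hb => (hπ3 b hb).1
  set U := K.biUnion L with hU
  have hUΛ : U ⊆ Λ := by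
    intro u hu
    obtain ⟨b, hb, h⟩ := mem_biUnion.1 hu
    exact hL1 b hb h
  set Z := K ∪ (Λ \ U) with hZ
  have hUK : ∀ u ∈ U, u ∉ K := fun u hu h => disjoint_left.1 hKΛ h (hUΛ hu)
  have hZU : ∀ u ∈ U, u ∉ Z := by
    intro u hu h
    rcases mem_union.1 h with h1 | h1
    · exact hUK u hu h1
    · exact (mem_sdiff.1 h1).2 hu
  have hZodd : ∀ b ∈ Z, ¬ Even (d b) := by
    intro b hb
    rcases mem_union.1 hb with h1 | h1
    · exact hK b h1
    · exact hΛ b (mem_sdiff.1 h1).1
  have hcases : ∀ u, ¬ Even (d u) → u ∈ Z ∨ u ∈ U := by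
    intro u hu
    rcases hcov u hu with h | h
    · exact Or.inl (mem_union_left _ h)
    · by_cases h1 : u ∈ U
      · exact Or.inr h1
      · exact Or.inl (mem_union_right _ (mem_sdiff.2 ⟨h, h1⟩))
  have hcen : ∀ u, u ∈ U → ∃ b ∈ K, u ∈ L b := fun u hu => mem_biUnion.1 hu
  let W : V → AddSubgroup (Fin k → ZMod 2) := fun b => if b ∈ K then Vs k (j b) else ⊥
  have hWK : ∀ b ∈ K, W b = Vs k (j b) := fun b hb => if_pos hb
  have hWn : ∀ b, b ∉ K → W b = ⊥ := fun b hb => if_neg hb
  let ϖ : V → (Fin k → ZMod 2) →+ (Fin k → ZMod 2) := fun b => if b ∈ K then π b else 0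
  have hϖK : ∀ b ∈ K, ϖ b = π b := fun b hb => if_pos hb
  have hϖn : ∀ b, b ∉ K → ϖ b = 0 := fun b hb => if_neg hb
  let g : V → V := fun u => if h : u ∈ U then (hcen u h).choose else u
  have hgZ : ∀ u, u ∉ U → g u = u := fun u hu => dif_neg hu
  have hgU : ∀ u ∈ U, g u ∈ K ∧ u ∈ L (g u) := by
    intro u hu
    have h1 := (hcen u hu).choose_spec
    simp only [g, dif_pos hu]
    exact h1
  have hgL : ∀ b ∈ K, ∀ u ∈ L b, u ∈ U ∧ g u = b := by
    intro b hb u hu
    have h1 : u ∈ U := mem_biUnion.2 ⟨b, hb, hu⟩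
    refine ⟨h1, ?_⟩
    by_contra h2
    exact disjoint_left.1 (hL2 b hb (g u) (hgU u h1).1 (Ne.symm h2)) hu (hgU u h1).2
  let o : V → Fin k → ZMod 2 := fun u =>
    if u ∈ U then π (g u) (f (par u)) - κ (g u) u else ϖ u (s u)
  have hoU : ∀ u ∈ U, o u = π (g u) (f (par u)) - κ (g u) u := fun u hu => if_pos hu
  have hon : ∀ u, u ∉ U → o u = ϖ u (s u) := fun u hu => if_neg hu
  have hodd : ∀ u, ¬ Even (d u) → Even (d (par u)) := by
    intro u hu
    have := hparity u (hne u hu)
    tauto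
  refine decomposes_hom T r par hn (fun x hx => (hpar x hx).1) hedge (fun x => Even (d x)) hA
    (G := Fin k → ZMod 2) (by rw [Fintype.card_fun, ZMod.card, Fintype.card_fin]) f hf Z W ?_ ϖ
    ?_ g ?_ o ?_ ?_ ?_
  · -- the number of columns
    have hd1 : Disjoint K (Λ \ U) := hKΛ.mono_right sdiff_subset
    rw [hZ, sum_union hd1]
    have h1 : ∑ b ∈ K, Nat.card (W b) = ∑ b ∈ K, 2 ^ j b := by
      apply sum_congr rfl
      intro b hb
      rw [hWK b hb]
      exact card_Vs (hjk b hb)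
    have h2 : ∑ b ∈ Λ \ U, Nat.card (W b) = (Λ \ U).card := by
      rw [card_eq_sum_ones]
      apply sum_congr rfl
      intro b hb
      rw [hWn b (disjoint_right.1 hd1 hb)]
      simp
    have h3 : U.card = ∑ b ∈ K, (L b).card := card_biUnion (fun b hb b' hb' hbb =>
      hL2 b hb b' hb' hbb)
    have h4 := card_le_card hUΛ
    rw [h1, h2, card_sdiff_of_subset hUΛ]
    omega
  · intro b hb x
    by_cases h : b ∈ K
    · rw [hWK b h, hϖK b h]
      exact hπ1 b h x
    · rw [hWn b h, hϖn b h]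
      exact rfl
  · intro u hu
    rcases hcases u hu with h | h
    · rw [hgZ u (fun h' => hZU u h' h)]
      exact h
    · exact mem_union_left _ (hgU u h).1
  · intro u hu
    rcases hcases u hu with h | h
    · have h' : u ∉ U := fun h' => hZU u h' h
      rw [hgZ u h', hon u h']
      by_cases h2 : u ∈ K
      · rw [hWK u h2, hϖK u h2]
        exact hπ1 u h2 _
      · rw [hWn u h2, hϖn u h2]
        exact rfl
    · rw [hoU u h, hWK _ (hgU u h).1]
      exact AddSubgroup.sub_mem _ (hπ1 _ (hgU u h).1 _) ((hκ _ (hgU u h).1).1 u)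
  · -- the columns of the vertices with the same centre
    have hmix : ∀ u u', u ∈ U → u' ∈ Z → g u = g u' → o u ≠ o u' := by
      intro u u' h h' hgg hoo
      have h1 : u' ∉ U := fun h'' => hZU u' h'' h'
      rw [hgZ u' h1] at hgg
      have h2 := hgU u h
      have h3 : u' ∈ K := by
        rw [← hgg]
        exact h2.1
      rw [hoU u h, hon u' h1, hϖK u' h3, ← hgg] at hoo
      apply (hκ _ h2.1).2.2.1 u h2.2
      rw [map_sub, ← hoo]
      abel
    intro u u' hu hu' hgg hoo
    rcases hcases u hu with h | h <;> rcases hcases u' hu' with h' | h'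
    · rw [hgZ u (fun h'' => hZU u h'' h), hgZ u' (fun h'' => hZU u' h'' h')] at hgg
      exact hgg
    · exact absurd hoo.symm (hmix u' u h' h hgg.symm)
    · exact absurd hoo (hmix u u' h h' hgg)
    · have h2 := hgU u h
      have h2' := hgU u' h'
      rw [hoU u h, hoU u' h', ← hgg] at hoo
      rw [← hgg] at h2'
      apply (hκ _ h2.1).2.1 u h2.2 u' h2'.2
      rw [map_sub, map_sub]
      have h3 : π (g u) (f (par u)) - κ (g u) u - (π (g u) (f (par u')) - κ (g u) u') = 0 := by
        rw [hoo]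
        abel
      have h4 : κ (g u) u - (π (g u) (f (par u)) - π (g u) (s (g u))) -
          (κ (g u) u' - (π (g u) (f (par u')) - π (g u) (s (g u)))) =
          -(π (g u) (f (par u)) - κ (g u) u - (π (g u) (f (par u')) - κ (g u) u')) := by
        abel
      rw [h3, neg_zero] at h4
      exact sub_eq_zero.1 h4
  · intro b hb w hw
    have hbodd := hZodd b hb
    have hbU : b ∉ U := fun h' => hZU b h' hb
    have hbr := hne b hbodd
    by_cases h : b ∈ K
    · rw [hWK b h] at hw
      rw [hϖK b h]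
      rcases (hκ b h).2.2.2 w hw with h1 | ⟨y, hy, h1⟩ | ⟨u, hu, h1⟩
      · refine ⟨b, par b, hbodd, hodd b hbodd, (hpar b hbr).1.symm, hgZ b hbU, ?_⟩
        rw [hon b hbU, hϖK b h, h1, map_sub]
      · have h2 := hchK b h y hy
        rw [mem_ch] at hy
        have h3 := (hpar y hy.1).1
        rw [hy.2] at h3
        refine ⟨b, y, hbodd, ?_, h3, hgZ b hbU, ?_⟩
        · have := hA y b h3
          tauto
        · rw [hon b hbU, hϖK b h, ← map_sub, hπ2 b h _ h2, h1]
      · obtain ⟨h2, h3⟩ := hgL b h u hu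
        have h4 := hΛ u (hL1 b h hu)
        refine ⟨u, par u, h4, hodd u h4, (hpar u (hne u h4)).1.symm, h3, ?_⟩
        rw [hoU u h2, h3, h1]
        abel
    · rw [hWn b h, AddSubgroup.mem_bot] at hw
      refine ⟨b, par b, hbodd, hodd b hbodd, (hpar b hbr).1.symm, hgZ b hbU, ?_⟩
      rw [hon b hbU, hϖn b h, hw]
      simp

/-- The rooted form of the theorem; the class of the root is the smaller one. -/
lemma two_pow_rooted {k : ℕ} (T : SimpleGraph V) [DecidableRel T.Adj] (r : V)
    (par : V → V) (d : V → ℕ) (h0 : d r = 0) (hn : Fintype.card V = 2 ^ k + 1)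
    (hpar : ∀ x, x ≠ r → T.Adj x (par x) ∧ d x = d (par x) + 1)
    (hedge : ∀ u w, T.Adj u w → (u ≠ r ∧ par u = w) ∨ (w ≠ r ∧ par w = u))
    (hsmall : 2 * (univ.filter fun x => Even (d x)).card ≤ 2 ^ k) :
    Decomposes T (completeBipartiteGraph (Fin (2 ^ k)) (Fin (2 ^ k))) := by
  classical
  have hd : ∀ x, x ≠ r → d x = d (par x) + 1 := fun x hx => (hpar x hx).2
  have hrE' : Even (d r) := by rw [h0]; decide
  have hne : ∀ b, ¬ Even (d b) → b ≠ r := by
    rintro b hb rfl
    exact hb hrE'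
  have hparity : ∀ x, x ≠ r → (Even (d x) ↔ ¬ Even (d (par x))) := by
    intro x hx
    rw [hd x hx, Nat.even_add_one]
  have hA : ∀ u w, T.Adj u w → (Even (d u) ↔ ¬ Even (d w)) := by
    intro u w huw
    rcases hedge u w huw with ⟨h1, h2⟩ | ⟨h1, h2⟩
    · rw [← h2]
      exact hparity u h1
    · rw [← h2]
      have := hparity w h1
      tauto
  have hnb : ∀ b, ¬ Even (d b) → T.neighborFinset b = insert (par b) (ch r par b) := fun b hb =>
    neighborFinset_eq T r par (fun x hx => (hpar x hx).1) hedge b (hne b hb)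
  have hdeg : ∀ b, ¬ Even (d b) → T.degree b = (ch r par b).card + 1 := by
    intro b hb
    rw [← SimpleGraph.card_neighborFinset_eq_degree, hnb b hb,
      card_insert_of_notMem (par_notMem_ch hd (hne b hb))]
  set S := univ.filter fun x : V => ¬ Even (d x) with hS
  set E := univ.filter fun x : V => Even (d x) with hE
  have hmemS : ∀ b, b ∈ S ↔ ¬ Even (d b) := fun b => by simp [hS]
  have hrE : r ∈ E := by
    rw [hE, mem_filter]
    exact ⟨mem_univ _, hrE'⟩
  have hsumch : ∑ b ∈ S, (ch r par b).card = E.card - 1 := by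
    rw [← card_erase_of_mem hrE]
    rw [← card_biUnion]
    · congr 1
      ext x
      rw [mem_biUnion, mem_erase, hE, mem_filter]
      constructor
      · rintro ⟨b, hb, hx⟩
        rw [mem_ch] at hx
        refine ⟨hx.1, mem_univ _, ?_⟩
        rw [hparity x hx.1, hx.2]
        exact (hmemS b).1 hb
      · rintro ⟨h1, _, h2⟩
        exact ⟨par x, (hmemS _).2 ((hparity x h1).1 h2), mem_ch.2 ⟨h1, rfl⟩⟩
    · intro b _ b' _ hbb
      rw [Function.onFun, disjoint_left]
      intro x hx hx'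
      rw [mem_ch] at hx hx'
      exact hbb (hx.2.symm.trans hx'.2)
  have hE1 : 0 < E.card := card_pos.2 ⟨r, hrE⟩
  have htot : E.card + S.card = 2 ^ k + 1 := by
    rw [← hn, hE, hS, ← card_univ]
    exact card_filter_add_card_filter_not _
  have hsumdeg : ∑ b ∈ S, T.degree b = 2 ^ k := by
    rw [sum_congr rfl (fun b hb => hdeg b ((hmemS b).1 hb)), sum_add_distrib, hsumch, sum_const,
      smul_eq_mul, mul_one]
    omega
  -- stars and leaves
  set K := S.filter fun b => T.degree b ≠ 1 with hK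
  set Λ := S.filter fun b => ¬ T.degree b ≠ 1 with hΛ
  have hKmem : ∀ b, b ∈ K ↔ ¬ Even (d b) ∧ T.degree b ≠ 1 := fun b => by
    rw [hK, mem_filter, hmemS]
  have hΛmem : ∀ b, b ∈ Λ ↔ ¬ Even (d b) ∧ T.degree b = 1 := fun b => by
    rw [hΛ, mem_filter, hmemS, not_not]
  have hKΛ : Disjoint K Λ := by
    rw [disjoint_left]
    intro b h1 h2
    exact ((hKmem b).1 h1).2 ((hΛmem b).1 h2).2
  have hK2 : ∀ b ∈ K, 2 ≤ T.degree b := by
    intro b hb
    have h1 := (hKmem b).1 hb
    have h2 := hdeg b h1.1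
    omega
  have hchne : ∀ b, ¬ Even (d b) → (ch r par b).Nonempty → b ∈ K := by
    intro b hb h
    rw [hKmem]
    refine ⟨hb, ?_⟩
    rw [hdeg b hb]
    have := card_pos.2 h
    omega
  have hcardS : K.card + Λ.card = S.card := by
    rw [hK, hΛ]
    exact card_filter_add_card_filter_not _
  have hsplit : ∑ b ∈ K, T.degree b + Λ.card = 2 ^ k := by
    rw [← hsumdeg, ← sum_filter_add_sum_filter_not S (fun b => T.degree b ≠ 1)]
    congr 1
    rw [card_eq_sum_ones]
    apply sum_congr rfl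
    intro b hb
    exact ((hΛmem b).1 hb).2.symm
  have hgapsum : ∑ b ∈ K, gap (T.degree b) + 2 * K.card ≤ ∑ b ∈ K, T.degree b := by
    rw [card_eq_sum_ones, mul_sum, ← sum_add_distrib]
    apply sum_le_sum
    intro b hb
    have := (gap_add_two _ (hK2 b hb)).1
    omega
  set j : V → ℕ := fun b => if b = r then 0 else Nat.clog 2 (T.degree b) with hj
  have hjr : j r = 0 := by simp [hj]
  have hjb : ∀ b, b ≠ r → j b = Nat.clog 2 (T.degree b) := fun b hb => by simp [hj, hb]
  have hKr : ∀ b ∈ K, b ≠ r := fun b hb => hne b ((hKmem b).1 hb).1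
  have hpow : ∀ b ∈ K, T.degree b + gap (T.degree b) = 2 ^ j b := by
    intro b hb
    rw [hjb b (hKr b hb)]
    exact (gap_spec _ (by have := hK2 b hb; omega)).1
  have hdegle : ∀ b, T.degree b ≤ 2 ^ k := by
    intro b
    have := T.degree_lt_card_verts b
    omega
  have hjk : ∀ b ∈ K, j b ≤ k := by
    intro b hb
    rw [hjb b (hKr b hb)]
    exact Nat.clog_le_of_le_pow (hdegle b)
  have hsumpow : ∑ b ∈ K, 2 ^ j b = ∑ b ∈ K, T.degree b + ∑ b ∈ K, gap (T.degree b) := by
    rw [← sum_add_distrib]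
    exact sum_congr rfl (fun b hb => (hpow b hb).symm)
  have hrK : r ∉ K := fun h => hKr r h rfl
  -- the blocks
  obtain ⟨s, hs⟩ := packing k j (insert r K).card (insert r K) rfl (by
    intro b hb
    rcases mem_insert.1 hb with h | h
    · rw [h, hjr]
      omega
    · exact hjk b h) (by
    rw [sum_insert hrK, hjr, hsumpow]
    omega)
  -- the leaves
  obtain ⟨Sur, L, hSK, hL1, hL2, hL3, hL4⟩ := supply K Λ
    (fun u => if par u = r then r else par (par u)) r (by
      intro u hu
      by_cases h : par u = r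
      · left
        simp [h]
      · right
        simp only [h, if_false]
        have h1 := ((hΛmem u).1 hu).1
        have h2 := hparity u (hne u h1)
        have h3 := hparity (par u) h
        apply hchne
        · tauto
        · exact ⟨par u, mem_ch.2 ⟨h, rfl⟩⟩) (fun b => gap (T.degree b)) (by omega)
  have hcparb : ∀ u b, b ∈ K → (if par u = r then r else par (par u)) = b → par u ∈ ch r par b := by
    intro u b hb h
    by_cases h1 : par u = r
    · rw [if_pos h1] at h
      exact absurd h.symm (hKr b hb)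
    · rw [if_neg h1] at h
      exact mem_ch.2 ⟨h1, h⟩
  have hcount1 : ∀ b ∈ K, (ch r par b).card + 1 + (L b).card = 2 ^ j b := by
    intro b hb
    rw [(hL1 b hb).2, ← hdeg b ((hKmem b).1 hb).1]
    exact hpow b hb
  have hcount2 : ∀ b ∈ K, 2 * (L b).card < 2 ^ j b := by
    intro b hb
    rw [(hL1 b hb).2, hjb b (hKr b hb)]
    exact (gap_add_two _ (hK2 b hb)).2
  -- the surplus stars
  have hsur : ∀ b, ∃ v : V → Fin k → ZMod 2, b ∈ Sur → (∀ y, v y ∈ Vs k (j b)) ∧
      ∀ (f : V → Fin k → ZMod 2) (π : (Fin k → ZMod 2) →+ (Fin k → ZMod 2)),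
        (∀ y ∈ Vs k (j b), π y = y) → (∀ y ∈ ch r par b, f y = s b + v y) →
        π (f (par b) - s b) = 0 →
        (∀ u ∈ L b, par u ∉ ch r par b → π (f (par u) - s b) = 0) →
        StarOK r par (j b) (s b) (L b) π f b := by
    intro b
    by_cases hb : b ∈ Sur
    · have hbK := hSK hb
      obtain ⟨v, hv⟩ := exists_star r par (j b) (hjk b hbK) (s b) (L b) b (hcount1 b hbK)
        (hcount2 b hbK) 0 (AddSubgroup.zero_mem _) (fun _ => 0) (fun _ => AddSubgroup.zero_mem _)
      exact ⟨v, fun _ => hv⟩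
    · exact ⟨0, fun h => absurd h hb⟩
  choose v hv using hsur
  -- the deficit stars
  obtain ⟨f, hf1, hf2, hf3⟩ := deficit r par d hd j s L Sur
    (fun y => if y = r then s r else s (par y) + v (par y) y) (K \ Sur).card (K \ Sur) rfl
    (fun b hb => hKr b (mem_sdiff.1 hb).1) (fun b hb => (mem_sdiff.1 hb).2)
    (fun b hb => ⟨hjk b (mem_sdiff.1 hb).1, hcount1 b (mem_sdiff.1 hb).1,
      hcount2 b (mem_sdiff.1 hb).1⟩) (by
      intro b hb u hu
      rw [mem_sdiff] at hb
      rcases hL4 b hb.1 hb.2 u hu with h | h | h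
      · exact Or.inl (hcparb u b hb.1 h)
      · right
        left
        by_contra h1
        simp only [h1, if_false] at h
        have h2 := (hΛmem u).1 ((hL1 b hb.1).1 hu)
        have h3 := hparity u (hne u h2.1)
        have h4 := hparity (par u) h1
        rw [h] at h4
        tauto
      · right
        right
        exact ⟨_, h, hcparb u _ (hSK h) rfl⟩)
  rw [if_pos rfl] at hf1
  have hf2' : ∀ b ∈ Sur, ∀ y ∈ ch r par b, f y = s b + v b y := by
    intro b hb y hy
    rw [hf2 b hb y hy]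
    rw [mem_ch] at hy
    rw [if_neg hy.1, hy.2]
  have hblock : ∀ b ∈ K, ∀ y ∈ ch r par b, f y - s b ∈ Vs k (j b) := by
    intro b hb y hy
    by_cases h : b ∈ Sur
    · rw [hf2' b h y hy, add_sub_cancel_left]
      exact (hv b h).1 y
    · exact (hf3 b (mem_sdiff.2 ⟨hb, h⟩)).1 y hy
  -- block of a vertex of even distance
  have hevb : ∀ a, Even (d a) → ∃ b ∈ insert r K, f a - s b ∈ Vs k (j b) ∧
      ((a = r ∧ b = r) ∨ (b ∈ K ∧ a ∈ ch r par b)) := by
    intro a ha
    by_cases h : a = r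
    · refine ⟨r, mem_insert_self _ _, ?_, Or.inl ⟨h, rfl⟩⟩
      rw [h, hf1, sub_self]
      exact AddSubgroup.zero_mem _
    · have h1 := hparity a h
      have h2 : par a ∈ K := by
        apply hchne
        · tauto
        · exact ⟨a, mem_ch.2 ⟨h, rfl⟩⟩
      exact ⟨par a, mem_insert_of_mem h2, hblock _ h2 a (mem_ch.2 ⟨h, rfl⟩),
        Or.inr ⟨h2, mem_ch.2 ⟨h, rfl⟩⟩⟩
  have hsep : ∀ b ∈ insert r K, ∀ b' ∈ insert r K, ∀ z, z - s b ∈ Vs k (j b) →
      z - s b' ∈ Vs k (j b') → b = b' := by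
    intro b hb b' hb' z h1 h2
    by_contra h3
    apply hs b hb b' hb' h3 _ h1 _ h2
    abel
  have hinjch : ∀ b ∈ K, Set.InjOn f (ch r par b) := by
    intro b hb
    by_cases h : b ∈ Sur
    · have hbK := hb
      -- use any retraction; the parent is outside of the block
      obtain ⟨π, h1, h2, h3⟩ := exists_retraction (f (par b) - s b) (by
        intro h4
        have hbo := ((hKmem b).1 hb).1
        have h5 := hparity b (hne b hbo)
        obtain ⟨b', hb', h6, h7⟩ := hevb (par b) (by tauto)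
        have h8 := hsep b (mem_insert_of_mem hb) b' hb' (f (par b)) h4 h6
        rcases h7 with ⟨_, h7⟩ | ⟨_, h7⟩
        · exact hKr b hb (h8.trans h7)
        · rw [← h8, mem_ch] at h7
          have h9 := hd b (hne b hbo)
          have h10 := hd (par b) h7.1
          rw [h7.2] at h10
          omega)
      exact ((hv b h).2 f π h2 (hf2' b h) h3 (fun u hu hu' => absurd
        (hcparb u b hb (hL3 b h u hu)) hu')).2.1
    · exact (hf3 b (mem_sdiff.2 ⟨hb, h⟩)).2.1
  refine decomposes_stars T r par d hn hpar hedge hA hrE' K Λ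
    (fun b hb => ((hKmem b).1 hb).1) (fun b hb => ((hΛmem b).1 hb).1) ?_ hKΛ j hjk L
    (fun b hb => (hL1 b hb).1) hL2 ?_ f ?_ s ?_
  · intro b hb
    by_cases h : T.degree b = 1
    · exact Or.inr ((hΛmem b).2 ⟨hb, h⟩)
    · exact Or.inl ((hKmem b).2 ⟨hb, h⟩)
  · rw [hsumpow, sum_congr rfl (fun b hb => (hL1 b hb).2)]
    omega
  · intro a a' ha ha' haa
    obtain ⟨b, hb, h1, h2⟩ := hevb a ha
    obtain ⟨b', hb', h1', h2'⟩ := hevb a' ha'
    rw [← haa] at h1'
    have h3 := hsep b hb b' hb' (f a) h1 h1'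
    subst h3
    rcases h2 with ⟨h2, h4⟩ | ⟨h2, h4⟩ <;> rcases h2' with ⟨h2', h4'⟩ | ⟨h2', h4'⟩
    · rw [h2, h2']
    · exact absurd h4 (hKr b h2')
    · exact absurd h4' (hKr b h2)
    · exact hinjch b h2 h4 h4' haa
  · intro b hb
    by_cases h : b ∈ Sur
    · obtain ⟨π, h1, h2, h3⟩ := exists_retraction (f (par b) - s b) (by
        intro h4
        have hbo := ((hKmem b).1 hb).1
        have h5 := hparity b (hne b hbo)
        obtain ⟨b', hb', h6, h7⟩ := hevb (par b) (by tauto)
        have h8 := hsep b (mem_insert_of_mem hb) b' hb' (f (par b)) h4 h6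
        rcases h7 with ⟨_, h7⟩ | ⟨_, h7⟩
        · exact hKr b hb (h8.trans h7)
        · rw [← h8, mem_ch] at h7
          have h9 := hd b (hne b hbo)
          have h10 := hd (par b) h7.1
          rw [h7.2] at h10
          omega)
      exact ⟨π, h1, h2, (hv b h).2 f π h2 (hf2' b h) h3 (fun u hu hu' => absurd
        (hcparb u b hb (hL3 b h u hu)) hu')⟩
    · exact ⟨lo k (j b), lo_mem k (j b), fun x hx => lo_eq hx, hf3 b (mem_sdiff.2 ⟨hb, h⟩)⟩

/-- The parity of the distance is a proper colouring. -/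
lemma even_dist_iff (T : SimpleGraph V) (hT : T.IsTree) (B : Finset V)
    (hB : ∀ u w, T.Adj u w → (u ∈ B ↔ w ∉ B)) (x : V) (hx : x ∉ B) :
    ∀ (m : ℕ) (y : V), T.dist x y = m → (y ∉ B ↔ Even (T.dist x y)) := by
  obtain ⟨par, hpar, hedge⟩ := exists_par T hT x
  intro m
  induction m with
  | zero =>
    intro y hy
    have h1 : x = y := (hT.connected.dist_eq_zero_iff).1 hy
    rw [← h1, SimpleGraph.dist_self]
    simpa using hx
  | succ m ih =>
    intro y hy
    have hyx : y ≠ x := by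
      rintro rfl
      rw [SimpleGraph.dist_self] at hy
      omega
    have h1 := (hpar y hyx).2
    have h2 := ih (par y) (by omega)
    rw [h1, Nat.even_add_one, ← h2, hB y (par y) (hpar y hyx).1]

/-- Every tree with `2 ^ k` edges decomposes `K_{2 ^ k, 2 ^ k}`. -/
theorem two_pow (V : Type) [Fintype V] (T : SimpleGraph V) (k : ℕ) (hT : T.IsTree)
    (hn : Fintype.card V = 2 ^ k + 1) :
    Decomposes T (completeBipartiteGraph (Fin (2 ^ k)) (Fin (2 ^ k))) := by
  classical
  obtain ⟨x⟩ := hT.connected.nonempty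
  obtain ⟨par, hpar, hedge⟩ := exists_par T hT x
  set B := univ.filter fun y : V => ¬ Even (T.dist x y) with hBdef
  have hparity : ∀ y, y ≠ x → (y ∈ B ↔ par y ∉ B) := by
    intro y hy
    simp only [hBdef, mem_filter, mem_univ, true_and]
    rw [(hpar y hy).2, Nat.even_add_one]
  have hB : ∀ u w, T.Adj u w → (u ∈ B ↔ w ∉ B) := by
    intro u w huw
    rcases hedge u w huw with ⟨h1, h2⟩ | ⟨h1, h2⟩
    · rw [← h2]
      exact hparity u h1
    · rw [← h2]
      have := hparity w h1
      tauto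
  have h0 : 0 < 2 ^ k := by positivity
  rcases Nat.eq_zero_or_pos k with hk | hk
  · subst hk
    apply divisor_degrees V T (2 ^ 0) B hT hn hB
    intro b _
    have h1 := T.degree_lt_card_verts b
    have h2 := degree_pos T (2 ^ 0) hT hn h0 b
    have h3 : T.degree b = 1 := by omega
    rw [h3]
    exact one_dvd _
  have htot : (univ.filter fun y : V => Even (T.dist x y)).card + B.card = 2 ^ k + 1 := by
    rw [← hn, hBdef, ← card_univ]
    exact card_filter_add_card_filter_not _
  have heven : 2 ^ k = 2 * 2 ^ (k - 1) := by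
    rw [← pow_succ']
    congr 1
    omega
  by_cases hc : 2 * (univ.filter fun y : V => Even (T.dist x y)).card ≤ 2 ^ k
  · exact two_pow_rooted T x par (fun y => T.dist x y) SimpleGraph.dist_self hn hpar hedge hc
  · -- a root in the other class
    have hxdeg := degree_pos T (2 ^ k) hT hn h0 x
    rw [← SimpleGraph.card_neighborFinset_eq_degree, card_pos] at hxdeg
    obtain ⟨z, hz⟩ := hxdeg
    rw [SimpleGraph.mem_neighborFinset] at hz
    have hxB : x ∉ B := by simp [hBdef, SimpleGraph.dist_self]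
    have hzB : z ∈ B := by
      have := hB x z hz
      tauto
    obtain ⟨par', hpar', hedge'⟩ := exists_par T hT z
    refine two_pow_rooted T z par' (fun y => T.dist z y) SimpleGraph.dist_self hn hpar' hedge' ?_
    have h1 : (univ.filter fun y : V => Even (T.dist z y)) = B := by
      ext y
      rw [mem_filter]
      have h2 := even_dist_iff T hT Bᶜ (by
        intro u w huw
        rw [mem_compl, mem_compl]
        have := hB u w huw
        tauto) z (by
        rw [mem_compl]
        exact fun h => h hzB) _ y rfl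
      rw [← h2, mem_compl, not_not]
      simp
    rw [h1]
    omega

end Pool.Agent.Helper80.GH
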