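import Mathlib

/-!
# Distinct representatives with excluded differences (Combinatorial Nullstellensatz)
-/

namespace Pool.Agent.Helper80.GH

open Finset MvPolynomial

variable {m : ℕ}

/-- `g` is homogeneous of degree `n` and it is the part of degree at least `n` of `f`. -/
def TopPart (f g : MvPolynomial (Fin m) ℚ) (n : ℕ) : Prop :=
  (∀ t : Fin m →₀ ℕ, n ≤ t.degree → coeff t f = coeff t g) ∧
    ∀ t : Fin m →₀ ℕ, t.degree ≠ n → coeff t g = 0

lemma TopPart.mul {f g f' g' : MvPolynomial (Fin m) ℚ} {n n' : ℕ} (h : TopPart f g n)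
    (h' : TopPart f' g' n') : TopPart (f * f') (g * g') (n + n') := by
  classical
  constructor
  · intro t ht
    rw [coeff_mul, coeff_mul]
    apply sum_congr rfl
    rintro ⟨a, b⟩ hab
    rw [HasAntidiagonal.mem_antidiagonal] at hab
    have hdeg : a.degree + b.degree = t.degree := by
      rw [← hab, map_add]
    by_cases h1 : n ≤ a.degree
    · by_cases h2 : n' ≤ b.degree
      · rw [h.1 a h1, h'.1 b h2]
      · have h3 : a.degree ≠ n := by omega
        simp only
        rw [h.1 a h1, h.2 a h3, zero_mul, zero_mul]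
    · have h3 : b.degree ≠ n' := by omega
      simp only
      rw [h'.1 b (by omega), h'.2 b h3, mul_zero, mul_zero]
  · intro t ht
    rw [coeff_mul]
    apply sum_eq_zero
    rintro ⟨a, b⟩ hab
    rw [HasAntidiagonal.mem_antidiagonal] at hab
    have hdeg : a.degree + b.degree = t.degree := by
      rw [← hab, map_add]
    simp only
    by_cases h1 : a.degree = n
    · rw [h'.2 b (by omega), mul_zero]
    · rw [h.2 a h1, zero_mul]

lemma TopPart.one : TopPart (1 : MvPolynomial (Fin m) ℚ) 1 0 := by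
  classical
  refine ⟨fun t _ => rfl, fun t ht => ?_⟩
  rw [coeff_one, if_neg]
  rintro rfl
  exact ht (map_zero _)

lemma TopPart.prod {ι : Type} (s : Finset ι) (f g : ι → MvPolynomial (Fin m) ℚ) (n : ι → ℕ)
    (h : ∀ i ∈ s, TopPart (f i) (g i) (n i)) :
    TopPart (∏ i ∈ s, f i) (∏ i ∈ s, g i) (∑ i ∈ s, n i) := by
  classical
  induction s using Finset.induction_on with
  | empty =>
    simp only [prod_empty, sum_empty]
    exact TopPart.one
  | insert a s ha ih =>
    rw [prod_insert ha, prod_insert ha, sum_insert ha]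
    exact (h a (mem_insert_self _ _)).mul (ih fun i hi => h i (mem_insert_of_mem hi))

lemma TopPart.X (i : Fin m) : TopPart (MvPolynomial.X i : MvPolynomial (Fin m) ℚ)
    (MvPolynomial.X i) 1 := by
  classical
  refine ⟨fun t _ => rfl, fun t ht => ?_⟩
  rw [coeff_X, if_neg]
  rintro rfl
  apply ht
  rw [Finsupp.degree_single]

lemma TopPart.sub {f g f' g' : MvPolynomial (Fin m) ℚ} {n : ℕ} (h : TopPart f g n)
    (h' : TopPart f' g' n) : TopPart (f - f') (g - g') n := by
  constructor
  · intro t ht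
    rw [coeff_sub, coeff_sub, h.1 t ht, h'.1 t ht]
  · intro t ht
    rw [coeff_sub, h.2 t ht, h'.2 t ht, sub_zero]

lemma TopPart.C (c : ℚ) : TopPart (MvPolynomial.C c : MvPolynomial (Fin m) ℚ) 0 1 := by
  classical
  constructor
  · intro t ht
    rw [coeff_C, if_neg, coeff_zero]
    rintro rfl
    rw [map_zero] at ht
    omega
  · intro t _
    rw [coeff_zero]

/-- The Vandermonde product. -/
noncomputable def vdm (m : ℕ) : MvPolynomial (Fin m) ℚ :=
  ∏ i : Fin m, ∏ j ∈ Ioi i, (MvPolynomial.X j - MvPolynomial.X i)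

lemma vdm_eq : vdm m = ∑ σ : Equiv.Perm (Fin m), ((Equiv.Perm.sign σ : ℤ) : MvPolynomial (Fin m) ℚ)
    * ∏ i, (MvPolynomial.X i : MvPolynomial (Fin m) ℚ) ^ (σ i : ℕ) := by
  rw [vdm, ← Matrix.det_vandermonde, ← Matrix.det_transpose, Matrix.det_apply']
  rfl

lemma vdm_eq' : ∃ ε : ℚ, ε ≠ 0 ∧ vdm m = MvPolynomial.C ε * ∑ σ : Equiv.Perm (Fin m),
    ((Equiv.Perm.sign σ : ℤ) : MvPolynomial (Fin m) ℚ)
      * ∏ i, (MvPolynomial.X i : MvPolynomial (Fin m) ℚ) ^ (m - 1 - (σ i : ℕ)) := by
  refine ⟨((Equiv.Perm.sign (Fin.revPerm : Equiv.Perm (Fin m)) : ℤ) : ℚ), ?_, ?_⟩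
  · rcases Int.units_eq_one_or (Equiv.Perm.sign (Fin.revPerm : Equiv.Perm (Fin m))) with h | h
    · rw [h]
      simp
    · rw [h]
      simp
  · have h1 : (∑ σ : Equiv.Perm (Fin m), ((Equiv.Perm.sign σ : ℤ) : MvPolynomial (Fin m) ℚ)
        * ∏ i, (MvPolynomial.X i : MvPolynomial (Fin m) ℚ) ^ (m - 1 - (σ i : ℕ))) =
        ((Matrix.vandermonde (fun i : Fin m => (MvPolynomial.X i : MvPolynomial (Fin m) ℚ))
          ).submatrix id Fin.revPerm).det := by
      rw [← Matrix.det_transpose, Matrix.det_apply']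
      apply sum_congr rfl
      intro σ _
      congr 1
      apply prod_congr rfl
      intro i _
      rw [Matrix.transpose_apply, Matrix.submatrix_apply, Matrix.vandermonde_apply]
      congr 1
      rw [Fin.revPerm_apply, Fin.val_rev]
      omega
    rw [h1, Matrix.det_permute', Matrix.det_vandermonde, ← mul_assoc]
    rw [vdm]
    have h2 : (MvPolynomial.C ((Equiv.Perm.sign (Fin.revPerm : Equiv.Perm (Fin m)) : ℤ) : ℚ) *
        ((Equiv.Perm.sign (Fin.revPerm : Equiv.Perm (Fin m)) : ℤ) : MvPolynomial (Fin m) ℚ)) = 1 := by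
      rcases Int.units_eq_one_or (Equiv.Perm.sign (Fin.revPerm : Equiv.Perm (Fin m))) with h | h
      · rw [h]
        simp
      · rw [h]
        simp
    rw [h2, one_mul]

/-- The central coefficient is not zero. -/
lemma coeff_vdm_ne_zero (t : Fin m →₀ ℕ) (ht : ∀ i, t i = m) :
    coeff t (vdm m * vdm m * ∏ i, (MvPolynomial.X i : MvPolynomial (Fin m) ℚ)) ≠ 0 := by
  classical
  obtain ⟨ε, hε, h⟩ := vdm_eq' (m := m)
  have h1 : vdm m * vdm m * ∏ i, (MvPolynomial.X i : MvPolynomial (Fin m) ℚ) =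
      MvPolynomial.C ε * ∑ σ : Equiv.Perm (Fin m), ∑ τ : Equiv.Perm (Fin m),
        MvPolynomial.C (((Equiv.Perm.sign σ : ℤ) : ℚ) * ((Equiv.Perm.sign τ : ℤ) : ℚ)) *
        ∏ i, (MvPolynomial.X i : MvPolynomial (Fin m) ℚ) ^
          ((σ i : ℕ) + (m - 1 - (τ i : ℕ)) + 1) := by
    nth_rw 2 [h]
    rw [vdm_eq, mul_left_comm, mul_assoc, Finset.sum_mul_sum, Finset.sum_mul]
    congr 1
    apply sum_congr rfl
    intro σ _
    rw [Finset.sum_mul]
    apply sum_congr rfl
    intro τ _
    have h2 : ∏ i, (MvPolynomial.X i : MvPolynomial (Fin m) ℚ) ^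
          ((σ i : ℕ) + (m - 1 - (τ i : ℕ)) + 1) =
        (∏ i, (MvPolynomial.X i : MvPolynomial (Fin m) ℚ) ^ (σ i : ℕ)) *
        (∏ i, (MvPolynomial.X i : MvPolynomial (Fin m) ℚ) ^ (m - 1 - (τ i : ℕ))) *
        ∏ i, (MvPolynomial.X i : MvPolynomial (Fin m) ℚ) := by
      rw [← prod_mul_distrib, ← prod_mul_distrib]
      apply prod_congr rfl
      intro i _
      rw [pow_succ, pow_add]
    rw [h2, map_mul]
    simp only [map_intCast]
    ring
  rw [h1, coeff_C_mul]
  apply mul_ne_zero hε
  rw [coeff_sum]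
  have h3 : ∀ σ : Equiv.Perm (Fin m), coeff t (∑ τ : Equiv.Perm (Fin m),
        MvPolynomial.C (((Equiv.Perm.sign σ : ℤ) : ℚ) * ((Equiv.Perm.sign τ : ℤ) : ℚ)) *
        ∏ i, (MvPolynomial.X i : MvPolynomial (Fin m) ℚ) ^
          ((σ i : ℕ) + (m - 1 - (τ i : ℕ)) + 1)) = 1 := by
    intro σ
    rw [coeff_sum, sum_eq_single σ]
    · rw [coeff_C_mul, coeff_prod_X_pow, if_pos, mul_one]
      · rcases Int.units_eq_one_or (Equiv.Perm.sign σ) with h | h
        · rw [h]
          simp
        · rw [h]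
          simp
      · ext i
        rw [Finsupp.indicator_of_mem (mem_univ i), ht i]
        have := (σ i).2
        omega
    · intro τ _ hτ
      rw [coeff_C_mul, coeff_prod_X_pow, if_neg, mul_zero]
      intro h4
      apply hτ
      ext i
      have h5 := DFunLike.congr_fun h4 i
      rw [Finsupp.indicator_of_mem (mem_univ i), ht i] at h5
      have h6 := (σ i).2
      have h7 := (τ i).2
      omega
    · intro h4
      exact absurd (mem_univ _) h4
  rw [sum_congr rfl fun σ _ => h3 σ]
  simp [Fintype.card_perm, Nat.factorial_ne_zero]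

/-- Distinct representatives with excluded values and excluded differences. -/
theorem exists_distinct (R : Finset ℚ) (hR : m < R.card) (a : Fin m → ℚ) (c : Fin m → Fin m → ℚ) :
    ∃ x : Fin m → ℚ, (∀ i, x i ∈ R) ∧ (∀ i, x i ≠ a i) ∧
      ∀ i j, i < j → x j ≠ x i ∧ x j - x i ≠ c i j := by
  classical
  set f : MvPolynomial (Fin m) ℚ := vdm m *
    (∏ i : Fin m, ∏ j ∈ Ioi i, (MvPolynomial.X j - MvPolynomial.X i - MvPolynomial.C (c i j))) *
    ∏ i, (MvPolynomial.X i - MvPolynomial.C (a i)) with hf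
  set t : Fin m →₀ ℕ := Finsupp.equivFunOnFinite.symm fun _ => m with ht
  have hti : ∀ i, t i = m := fun i => rfl
  have hlin : ∀ i j : Fin m, TopPart (MvPolynomial.X j - MvPolynomial.X i)
      (MvPolynomial.X j - MvPolynomial.X i) 1 := fun i j => (TopPart.X j).sub (TopPart.X i)
  have htop : TopPart f (vdm m * vdm m * ∏ i, (MvPolynomial.X i : MvPolynomial (Fin m) ℚ))
      (∑ i : Fin m, ∑ _j ∈ Ioi i, 1 + ∑ i : Fin m, ∑ _j ∈ Ioi i, 1 + ∑ _i : Fin m, 1) := by
    apply TopPart.mul (TopPart.mul _ _) _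
    · exact TopPart.prod _ _ _ _ fun i _ => TopPart.prod _ _ _ _ fun j _ => hlin i j
    · refine TopPart.prod _ _ _ _ fun i _ => TopPart.prod _ _ _ _ fun j _ => ?_
      have := (hlin i j).sub (TopPart.C (c i j))
      rwa [sub_zero] at this
    · refine TopPart.prod _ _ _ _ fun i _ => ?_
      have := (TopPart.X i).sub (TopPart.C (a i))
      rwa [sub_zero] at this
  set n := (∑ i : Fin m, ∑ _j ∈ Ioi i, 1 + ∑ i : Fin m, ∑ _j ∈ Ioi i, 1 + ∑ _i : Fin m, 1) with hn
  have hne := coeff_vdm_ne_zero t hti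
  have htn : t.degree = n := by
    by_contra h
    exact hne (htop.2 t h)
  have hcoeff : coeff t f ≠ 0 := by
    rw [htop.1 t htn.ge]
    exact hne
  have hdeg : f.totalDegree = t.degree := by
    apply le_antisymm
    · rw [totalDegree]
      apply Finset.sup_le
      intro s hs
      by_contra h
      rw [mem_support_iff] at hs
      have h1 : n < s.degree := by
        rw [← htn]
        have h2 : (s.sum fun _ e => e) = s.degree := rfl
        omega
      apply hs
      rw [htop.1 s h1.le]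
      exact htop.2 s h1.ne'
    · have h1 : t ∈ f.support := mem_support_iff.2 hcoeff
      exact le_totalDegree h1
  obtain ⟨x, hx1, hx2⟩ := combinatorial_nullstellensatz_exists_eval_nonzero f t hcoeff hdeg
    (fun _ => R) (fun i => by rw [hti i]; exact hR)
  refine ⟨x, hx1, ?_, ?_⟩
  · intro i h
    apply hx2
    have h2 : eval x (∏ i, (MvPolynomial.X i - MvPolynomial.C (a i))) = 0 := by
      rw [map_prod]
      apply prod_eq_zero (mem_univ i)
      rw [map_sub, eval_X, eval_C, h, sub_self]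
    rw [hf, map_mul, h2, mul_zero]
  · intro i j hij
    constructor
    · intro h
      apply hx2
      have h2 : eval x (vdm m) = 0 := by
        rw [vdm, map_prod]
        apply prod_eq_zero (mem_univ i)
        rw [map_prod]
        apply prod_eq_zero (mem_Ioi.2 hij)
        rw [map_sub, eval_X, eval_X, h, sub_self]
      rw [hf, map_mul, map_mul, h2, zero_mul, zero_mul]
    · intro h
      apply hx2
      have h2 : eval x (∏ i : Fin m, ∏ j ∈ Ioi i,
          (MvPolynomial.X j - MvPolynomial.X i - MvPolynomial.C (c i j))) = 0 := by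
        rw [map_prod]
        apply prod_eq_zero (mem_univ i)
        rw [map_prod]
        apply prod_eq_zero (mem_Ioi.2 hij)
        rw [map_sub, map_sub, eval_X, eval_X, eval_C, h, sub_self]
      rw [hf, map_mul, map_mul, h2, mul_zero, zero_mul]

end Pool.Agent.Helper80.GH
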