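import Pool.Agent.Helper19.GH.Tree

/-!
# Decompositions of `K_{n,n}` from rows, columns and cells
-/

namespace Pool.Agent.Helper80.GH

open Finset Pool.Agent.Helper19.GH

variable {V : Type} [Fintype V] [DecidableEq V]

/-- A decomposition of `K_{n,n}` from a family of copies of `T` indexed by `I`, the vertices with
property `A` are placed in rows, the others in columns, every cell is covered, and the number of
copies is right. -/
lemma decomposes_of_cells {n : ℕ} (T : SimpleGraph V) (v : V) (par : V → V)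
    (hn : Fintype.card V = n + 1) (hpar : ∀ x, x ≠ v → T.Adj x (par x))
    (A : V → Prop) (hA : ∀ u w, T.Adj u w → (A u ↔ ¬ A w))
    {I R C : Type} [Fintype I] [Fintype R] [Fintype C] (hI : Fintype.card I = n)
    (hR : Fintype.card R = n) (hC : Fintype.card C = n)
    (row : I → V → R) (col : I → V → C)
    (hrow : ∀ k a a', A a → A a' → row k a = row k a' → a = a')
    (hcol : ∀ k b b', ¬ A b → ¬ A b' → col k b = col k b' → b = b')
    (hcell : ∀ r c, ∃ k a b, T.Adj a b ∧ A a ∧ ¬ A b ∧ row k a = r ∧ col k b = c)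
    (hedge : ∀ u w, T.Adj u w → (u ≠ v ∧ par u = w) ∨ (w ≠ v ∧ par w = u)) :
    Decomposes T (completeBipartiteGraph (Fin n) (Fin n)) := by
  classical
  obtain ⟨eI⟩ : Nonempty (Fin n ≃ I) := ⟨Fintype.equivOfCardEq (by simp [hI])⟩
  obtain ⟨eR⟩ : Nonempty (R ≃ Fin n) := ⟨Fintype.equivOfCardEq (by simp [hR])⟩
  obtain ⟨eC⟩ : Nonempty (C ≃ Fin n) := ⟨Fintype.equivOfCardEq (by simp [hC])⟩
  -- the cell of the edge `{x, par x}` in the copy `k`
  let cell : I × {x : V // x ≠ v} → R × C := fun p =>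
    if A p.2.1 then (row p.1 p.2.1, col p.1 (par p.2.1)) else (row p.1 (par p.2.1), col p.1 p.2.1)
  have hsurj : Function.Surjective cell := by
    rintro ⟨r, c⟩
    obtain ⟨k, a, b, hab, ha, hb, hr, hc⟩ := hcell r c
    rcases hedge a b hab with ⟨h1, h2⟩ | ⟨h1, h2⟩
    · refine ⟨(k, ⟨a, h1⟩), ?_⟩
      simp only [cell]
      rw [if_pos ha, h2, hr, hc]
    · refine ⟨(k, ⟨b, h1⟩), ?_⟩
      simp only [cell]
      rw [if_neg hb, h2, hr, hc]
  have hcard : Fintype.card (I × {x : V // x ≠ v}) = Fintype.card (R × C) := by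
    rw [Fintype.card_prod, Fintype.card_prod, hI, hR, hC, Fintype.card_subtype_compl, hn]
    simp
  have hinj : Function.Injective cell :=
    ((Fintype.bijective_iff_surjective_and_card cell).2 ⟨hsurj, hcard⟩).1
  have huniq : ∀ k k' a b a' b', T.Adj a b → A a → ¬ A b → T.Adj a' b' → A a' → ¬ A b' →
      row k a = row k' a' → col k b = col k' b' → k = k' := by
    intro k k' a b a' b' hab ha hb hab' ha' hb' h1 h2
    have h3 : ∃ x : {x : V // x ≠ v}, cell (k, x) = (row k a, col k b) := by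
      rcases hedge a b hab with ⟨h3, h4⟩ | ⟨h3, h4⟩
      · refine ⟨⟨a, h3⟩, ?_⟩
        simp only [cell]
        rw [if_pos ha, h4]
      · refine ⟨⟨b, h3⟩, ?_⟩
        simp only [cell]
        rw [if_neg hb, h4]
    have h3' : ∃ x : {x : V // x ≠ v}, cell (k', x) = (row k' a', col k' b') := by
      rcases hedge a' b' hab' with ⟨h3, h4⟩ | ⟨h3, h4⟩
      · refine ⟨⟨a', h3⟩, ?_⟩
        simp only [cell]
        rw [if_pos ha', h4]
      · refine ⟨⟨b', h3⟩, ?_⟩
        simp only [cell]
        rw [if_neg hb', h4]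
    obtain ⟨x, hx⟩ := h3
    obtain ⟨x', hx'⟩ := h3'
    have h4 : cell (k, x) = cell (k', x') := by rw [hx, hx', h1, h2]
    exact congrArg Prod.fst (hinj h4)
  let φ : Fin n → V → Fin n ⊕ Fin n := fun i u =>
    if A u then Sum.inl (eR (row (eI i) u)) else Sum.inr (eC (col (eI i) u))
  have hφe : ∀ i u, A u → φ i u = Sum.inl (eR (row (eI i) u)) := fun i u h => if_pos h
  have hφo : ∀ i u, ¬ A u → φ i u = Sum.inr (eC (col (eI i) u)) := fun i u h => if_neg h
  have key : ∀ a b : Fin n, ∃! i, ∃ u w, T.Adj u w ∧ φ i u = Sum.inl a ∧ φ i w = Sum.inr b := by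
    intro r c
    obtain ⟨k, a, b, hab, ha, hb, hr, hc⟩ := hcell (eR.symm r) (eC.symm c)
    refine ⟨eI.symm k, ⟨a, b, hab, ?_, ?_⟩, ?_⟩
    · rw [hφe _ _ ha, Equiv.apply_symm_apply, hr, Equiv.apply_symm_apply]
    · rw [hφo _ _ hb, Equiv.apply_symm_apply, hc, Equiv.apply_symm_apply]
    · rintro i ⟨u, w, huw, h1, h2⟩
      have hu : A u := by
        by_contra hu
        rw [hφo _ _ hu] at h1
        exact absurd h1 (by simp)
      have hw : ¬ A w := by
        intro hw
        rw [hφe _ _ hw] at h2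
        exact absurd h2 (by simp)
      rw [hφe _ _ hu, Sum.inl.injEq] at h1
      rw [hφo _ _ hw, Sum.inr.injEq] at h2
      have h3 := huniq (eI i) k u w a b huw hu hw hab ha hb
        (by rw [hr, ← h1, Equiv.symm_apply_apply]) (by rw [hc, ← h2, Equiv.symm_apply_apply])
      rw [← h3, Equiv.symm_apply_apply]
  refine ⟨n, φ, ?_, ?_, ?_⟩
  · intro i u w huw
    by_cases hu : A u <;> by_cases hw : A w
    · rw [hφe _ _ hu, hφe _ _ hw, Sum.inl.injEq] at huw
      exact hrow _ u w hu hw (eR.injective huw)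
    · rw [hφe _ _ hu, hφo _ _ hw] at huw
      exact absurd huw (by simp)
    · rw [hφo _ _ hu, hφe _ _ hw] at huw
      exact absurd huw (by simp)
    · rw [hφo _ _ hu, hφo _ _ hw, Sum.inr.injEq] at huw
      exact hcol _ u w hu hw (eC.injective huw)
  · intro i u w huw
    by_cases hu : A u
    · rw [hφe _ _ hu, hφo _ _ ((hA u w huw).1 hu)]
      simp [completeBipartiteGraph]
    · have hw : A w := by
        by_contra hw
        exact hu ((hA u w huw).2 hw)
      rw [hφo _ _ hu, hφe _ _ hw]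
      simp [completeBipartiteGraph]
  · intro x y hxy
    rcases x with a | a <;> rcases y with b | b
    · simp [completeBipartiteGraph] at hxy
    · exact key a b
    · obtain ⟨i, ⟨u, w, huw, h1, h2⟩, h3⟩ := key b a
      refine ⟨i, ⟨w, u, huw.symm, h2, h1⟩, ?_⟩
      rintro j ⟨u', w', huw', h1', h2'⟩
      exact h3 j ⟨w', u', huw'.symm, h2', h1'⟩
    · simp [completeBipartiteGraph] at hxy

end Pool.Agent.Helper80.GH
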