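import Pool.Agent.Helper80.GH.CN

/-!
# The colours of the leaves of one star
-/

namespace Pool.Agent.Helper80.GH

open Finset

/-- Small integers which are congruent are equal. -/
lemma int_eq_of_modEq {M : ℕ} {a b : ℤ} (h : a ≡ b [ZMOD (M : ℤ)]) (h1 : a - b < M)
    (h2 : b - a < M) : a = b := by
  obtain ⟨k, hk⟩ := h.dvd
  rcases lt_trichotomy k 0 with h3 | h3 | h3
  · nlinarith
  · rw [h3] at hk
    linarith
  · nlinarith

lemma exists_colours {V : Type} [DecidableEq V] (L : Finset V) (M s : ℕ)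
    (hM : 2 * L.card + 2 ≤ M ∨ L.card = 0) (γ : V → ℤ) :
    ∃ x : V → ℤ, (∀ u ∈ L, (s : ℤ) + 1 ≤ x u ∧ x u ≤ s + L.card + 1) ∧
      (∀ u ∈ L, ∀ v ∈ L, x u = x v → u = v) ∧
      (∀ u ∈ L, ¬ x u ≡ γ u [ZMOD (M : ℤ)]) ∧
      ∀ u ∈ L, ∀ v ∈ L, x u - γ u ≡ x v - γ v [ZMOD (M : ℤ)] → u = v := by
  classical
  rcases L.eq_empty_or_nonempty with hL | hL
  · subst hL
    exact ⟨fun _ => 0, by simp, by simp, by simp, by simp⟩
  have hLc := card_pos.2 hL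
  have hM' : 2 * L.card + 2 ≤ M := by omega
  set m := L.card with hm
  have e : L ≃ Fin m := L.equivFin
  let R : Finset ℚ := (Icc ((s : ℤ) + 1) (s + m + 1)).image (fun z : ℤ => (z : ℚ))
  have hRc : m < R.card := by
    rw [card_image_of_injective _ Int.cast_injective, Int.card_Icc]
    omega
  let g : Fin m → ℤ := fun i => γ (e.symm i)
  let a : Fin m → ℚ := fun i =>
    if h : ∃ z : ℤ, ((s : ℤ) + 1 ≤ z ∧ z ≤ s + m + 1) ∧ z ≡ g i [ZMOD (M : ℤ)] then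
      ((h.choose : ℤ) : ℚ) else 0
  let c : Fin m → Fin m → ℚ := fun i j =>
    if h : ∃ z : ℤ, (-(m : ℤ) ≤ z ∧ z ≤ m) ∧ z ≡ g j - g i [ZMOD (M : ℤ)] then
      ((h.choose : ℤ) : ℚ) else 0
  obtain ⟨y, hy1, hy2, hy3⟩ := exists_distinct R hRc a c
  have hyz : ∀ i, ∃ z : ℤ, ((s : ℤ) + 1 ≤ z ∧ z ≤ s + m + 1) ∧ (z : ℚ) = y i := by
    intro i
    obtain ⟨z, hz, hz'⟩ := mem_image.1 (hy1 i)
    exact ⟨z, mem_Icc.1 hz, hz'⟩
  choose z hz1 hz2 using hyz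
  have hza : ∀ i, ¬ z i ≡ g i [ZMOD (M : ℤ)] := by
    intro i h
    apply hy2 i
    have h1 : ∃ z : ℤ, ((s : ℤ) + 1 ≤ z ∧ z ≤ s + m + 1) ∧ z ≡ g i [ZMOD (M : ℤ)] :=
      ⟨z i, hz1 i, h⟩
    have h2 : a i = ((h1.choose : ℤ) : ℚ) := dif_pos h1
    have h3 := h1.choose_spec
    rw [h2, ← hz2 i]
    congr 1
    have h4 := (hz1 i)
    apply int_eq_of_modEq (h.trans h3.2.symm)
    · omega
    · omega
  have hzinj : ∀ i j, i < j → z j ≠ z i := by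
    intro i j hij h
    apply (hy3 i j hij).1
    rw [← hz2 i, ← hz2 j, h]
  have hzc : ∀ i j, i < j → ¬ z j - z i ≡ g j - g i [ZMOD (M : ℤ)] := by
    intro i j hij h
    apply (hy3 i j hij).2
    have h4 := hz1 i
    have h5 := hz1 j
    have h1 : ∃ z : ℤ, (-(m : ℤ) ≤ z ∧ z ≤ m) ∧ z ≡ g j - g i [ZMOD (M : ℤ)] :=
      ⟨z j - z i, ⟨by omega, by omega⟩, h⟩
    have h2 : c i j = ((h1.choose : ℤ) : ℚ) := dif_pos h1
    have h3 := h1.choose_spec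
    rw [h2, ← hz2 i, ← hz2 j, ← Int.cast_sub]
    congr 1
    apply int_eq_of_modEq (h.trans h3.2.symm)
    · omega
    · omega
  let x : V → ℤ := fun u => if h : u ∈ L then z (e ⟨u, h⟩) else 0
  have hx : ∀ u (h : u ∈ L), x u = z (e ⟨u, h⟩) := fun u h => dif_pos h
  have hg : ∀ u (h : u ∈ L), γ u = g (e ⟨u, h⟩) := by
    intro u h
    simp only [g, Equiv.symm_apply_apply]
  refine ⟨x, ?_, ?_, ?_, ?_⟩
  · intro u hu
    rw [hx u hu]
    exact hz1 _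
  · intro u hu v hv h
    rw [hx u hu, hx v hv] at h
    rcases lt_trichotomy (e ⟨u, hu⟩) (e ⟨v, hv⟩) with h1 | h1 | h1
    · exact absurd h.symm (hzinj _ _ h1)
    · exact congrArg Subtype.val (e.injective h1)
    · exact absurd h (hzinj _ _ h1)
  · intro u hu
    rw [hx u hu, hg u hu]
    exact hza _
  · intro u hu v hv h
    rw [hx u hu, hg u hu, hx v hv, hg v hv] at h
    rcases lt_trichotomy (e ⟨u, hu⟩) (e ⟨v, hv⟩) with h1 | h1 | h1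
    · exfalso
      apply hzc _ _ h1
      have h2 := (h.symm.add_right (g (e ⟨v, hv⟩))).sub_right (z (e ⟨u, hu⟩))
      have h3 : z (e ⟨v, hv⟩) - g (e ⟨v, hv⟩) + g (e ⟨v, hv⟩) - z (e ⟨u, hu⟩) =
        z (e ⟨v, hv⟩) - z (e ⟨u, hu⟩) := by ring
      have h4 : z (e ⟨u, hu⟩) - g (e ⟨u, hu⟩) + g (e ⟨v, hv⟩) - z (e ⟨u, hu⟩) =
        g (e ⟨v, hv⟩) - g (e ⟨u, hu⟩) := by ring
      rw [h3, h4] at h2
      exact h2
    · exact congrArg Subtype.val (e.injective h1)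
    · exfalso
      apply hzc _ _ h1
      have h2 := (h.add_right (g (e ⟨u, hu⟩))).sub_right (z (e ⟨v, hv⟩))
      have h3 : z (e ⟨u, hu⟩) - g (e ⟨u, hu⟩) + g (e ⟨u, hu⟩) - z (e ⟨v, hv⟩) =
        z (e ⟨u, hu⟩) - z (e ⟨v, hv⟩) := by ring
      have h4 : z (e ⟨v, hv⟩) - g (e ⟨v, hv⟩) + g (e ⟨u, hu⟩) - z (e ⟨v, hv⟩) =
        g (e ⟨u, hu⟩) - g (e ⟨v, hv⟩) := by ring
      rw [h3, h4] at h2
      exact h2

end Pool.Agent.Helper80.GH
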