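import Pool.Agent.Helper80.GH.Label2

/-!
# The completion criterion
-/

namespace Pool.Agent.Helper80.GH

open Finset Pool.Agent.Helper19.GH

variable {V : Type} [Fintype V] [DecidableEq V]

/-- The completion criterion, rooted form. -/
lemma completion_rooted {n : ℕ} (hn0 : 0 < n) (T : SimpleGraph V) [DecidableRel T.Adj] (r : V)
    (par : V → V) (d : V → ℕ) (h0 : d r = 0) (hn : Fintype.card V = n + 1)
    (hpar : ∀ x, x ≠ r → T.Adj x (par x) ∧ d x = d (par x) + 1)
    (hedge : ∀ u w, T.Adj u w → (u ≠ r ∧ par u = w) ∨ (w ≠ r ∧ par w = u))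
    (L : V → Finset V) (hL1 : ∀ b, ¬ Even (d b) → (L b).card < T.degree b)
    (hL2 : ∀ b, ¬ Even (d b) → T.degree b + (L b).card ∣ n)
    (hL3 : ∀ b, ¬ Even (d b) → ∀ u ∈ L b, T.degree u = 1 ∧
      (T.Adj r u ∨ ∃ y, T.Adj b y ∧ T.Adj y u))
    (hL4 : ∀ b b', ¬ Even (d b) → ¬ Even (d b') → b ≠ b' → Disjoint (L b) (L b')) :
    Decomposes T (completeBipartiteGraph (Fin n) (Fin n)) := by
  classical
  have hd : ∀ x, x ≠ r → d x = d (par x) + 1 := fun x hx => (hpar x hx).2
  have hne : ∀ b, ¬ Even (d b) → b ≠ r := by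
    rintro b hb rfl
    rw [h0] at hb
    exact hb (by decide)
  have hparity : ∀ x, x ≠ r → (Even (d x) ↔ ¬ Even (d (par x))) := by
    intro x hx
    rw [hd x hx, Nat.even_add_one]
  have hA : ∀ u w, T.Adj u w → (Even (d u) ↔ ¬ Even (d w)) := by
    intro u w huw
    rcases hedge u w huw with ⟨h1, h2⟩ | ⟨h1, h2⟩
    · rw [← h2]
      exact hparity u h1
    · rw [← h2]
      have := hparity w h1
      tauto
  have hnb : ∀ b, ¬ Even (d b) → T.neighborFinset b = insert (par b) (ch r par b) := fun b hb =>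
    neighborFinset_eq T r par (fun x hx => (hpar x hx).1) hedge b (hne b hb)
  have hdeg : ∀ b, ¬ Even (d b) → T.degree b = (ch r par b).card + 1 := by
    intro b hb
    rw [← SimpleGraph.card_neighborFinset_eq_degree, hnb b hb,
      card_insert_of_notMem (par_notMem_ch hd (hne b hb))]
  -- the only neighbour of a vertex of degree one
  have hleaf : ∀ u, ¬ Even (d u) → T.degree u = 1 → ∀ y, T.Adj u y → y = par u := by
    intro u hu h1 y hy
    rw [hdeg u hu] at h1
    have h2 : ch r par u = ∅ := card_eq_zero.1 (by omega)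
    have h3 : y ∈ T.neighborFinset u := by rwa [SimpleGraph.mem_neighborFinset]
    rw [hnb u hu, h2] at h3
    simpa using h3
  have hLodd : ∀ b, ¬ Even (d b) → ∀ u ∈ L b, ¬ Even (d u) := by
    intro b hb u hu
    rcases (hL3 b hb u hu).2 with h1 | ⟨y, h1, h2⟩
    · have := hA r u h1
      rw [h0] at this
      exact this.1 (by decide)
    · have h3 := hA b y h1
      have h4 := hA y u h2
      tauto
  set S := univ.filter fun x : V => ¬ Even (d x) with hS
  set E := univ.filter fun x : V => Even (d x) with hE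
  have hmemS : ∀ b, b ∈ S ↔ ¬ Even (d b) := fun b => by simp [hS]
  have hrE : r ∈ E := by
    rw [hE, mem_filter]
    exact ⟨mem_univ _, by rw [h0]; decide⟩
  set Z := S \ S.biUnion L with hZ
  have hZS : ∀ b ∈ Z, ¬ Even (d b) := fun b hb => (hmemS b).1 (mem_sdiff.1 hb).1
  have hZmem : ∀ b, ¬ Even (d b) → T.degree b ≠ 1 → b ∈ Z := by
    intro b hb h1
    rw [hZ, mem_sdiff, hmemS]
    refine ⟨hb, ?_⟩
    intro h2
    obtain ⟨b', hb', h3⟩ := mem_biUnion.1 h2
    exact h1 (hL3 b' ((hmemS b').1 hb') b h3).1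
  let M : V → ℕ := fun b => T.degree b + (L b).card
  have hMpos : ∀ b ∈ Z, 0 < M b := fun b hb => by
    simp only [M]
    rw [hdeg b (hZS b hb)]
    omega
  obtain ⟨f, β, hf0, hf1, hf2, hf3⟩ := label2 r par d hd M Z.card Z rfl
    (fun b hb => hne b (hZS b hb)) (by
      intro b hb hb2
      have h1 := hparity b (hne b (hZS b hb))
      have h2 := hparity (par b) hb2
      have h3 := hZS b hb
      have h4 : ¬ Even (d (par (par b))) := by tauto
      apply hZmem _ h4
      rw [hdeg _ h4]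
      have h5 : 0 < (ch r par (par (par b))).card := card_pos.2 ⟨par b, mem_ch.2 ⟨hb2, rfl⟩⟩
      omega) (by
      intro b hb
      have h1 := hL1 b (hZS b hb)
      simp only [M]
      rw [hdeg b (hZS b hb)] at h1 ⊢
      omega)
  -- every vertex of even distance is labelled
  have hEsub : ∀ x, Even (d x) → x ≠ r → x ∈ Z.biUnion (ch r par) := by
    intro x hx h1
    rw [mem_biUnion]
    have h2 : ¬ Even (d (par x)) := (hparity x h1).1 hx
    refine ⟨par x, hZmem _ h2 ?_, mem_ch.2 ⟨h1, rfl⟩⟩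
    rw [hdeg _ h2]
    have h5 : 0 < (ch r par (par x)).card := card_pos.2 ⟨x, mem_ch.2 ⟨h1, rfl⟩⟩
    omega
  have hEsub' : ∀ x, Even (d x) → x ∈ insert r (Z.biUnion (ch r par)) := by
    intro x hx
    by_cases h1 : x = r
    · rw [h1]
      exact mem_insert_self _ _
    · exact mem_insert_of_mem (hEsub x hx h1)
  -- the sum of the moduli
  have hsumch : ∑ b ∈ S, (ch r par b).card = E.card - 1 := by
    rw [← card_erase_of_mem hrE]
    rw [← card_biUnion]
    · congr 1
      ext x
      rw [mem_biUnion, mem_erase, hE, mem_filter]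
      constructor
      · rintro ⟨b, hb, hx⟩
        rw [mem_ch] at hx
        refine ⟨hx.1, mem_univ _, ?_⟩
        rw [hparity x hx.1, hx.2]
        exact (hmemS b).1 hb
      · rintro ⟨h1, _, h2⟩
        exact ⟨par x, (hmemS _).2 ((hparity x h1).1 h2), mem_ch.2 ⟨h1, rfl⟩⟩
    · intro b _ b' _ hbb
      rw [Function.onFun, disjoint_left]
      intro x hx hx'
      rw [mem_ch] at hx hx'
      exact hbb (hx.2.symm.trans hx'.2)
  have hE1 : 0 < E.card := card_pos.2 ⟨r, hrE⟩
  have htot : E.card + S.card = n + 1 := by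
    rw [← hn, hE, hS, ← card_univ]
    exact card_filter_add_card_filter_not _
  have hsumdeg : ∑ b ∈ S, T.degree b = n := by
    rw [sum_congr rfl (fun b hb => hdeg b ((hmemS b).1 hb)), sum_add_distrib, hsumch, sum_const,
      smul_eq_mul, mul_one]
    omega
  have hsub : S.biUnion L ⊆ S := by
    intro u hu
    obtain ⟨b, hb, h1⟩ := mem_biUnion.1 hu
    exact (hmemS u).2 (hLodd b ((hmemS b).1 hb) u h1)
  have hsumM : ∑ b ∈ Z, M b = n := by
    have h1 : ∑ b ∈ S, (L b).card = (S.biUnion L).card := by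
      rw [card_biUnion]
      intro b hb b' hb' hbb
      exact hL4 b b' ((hmemS b).1 hb) ((hmemS b').1 hb') hbb
    have h2 : ∑ b ∈ Z, M b + ∑ b ∈ S.biUnion L, M b = ∑ b ∈ S, M b := by
      rw [hZ]
      exact sum_sdiff hsub
    have h3 : ∑ b ∈ S, M b = n + (S.biUnion L).card := by
      simp only [M]
      rw [sum_add_distrib, hsumdeg, h1]
    have h4 : ∑ b ∈ S.biUnion L, M b = (S.biUnion L).card := by
      rw [card_eq_sum_ones]
      apply sum_congr rfl
      intro u hu
      obtain ⟨b, hb, h5⟩ := mem_biUnion.1 hu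
      have h6 := (hL3 b ((hmemS b).1 hb) u h5).1
      have h7 := hL1 u ((hmemS u).1 (hsub hu))
      simp only [M]
      omega
    omega
  have hflt : ∀ x, Even (d x) → f x < n := by
    intro x hx
    by_cases h1 : x = r
    · rw [h1, hf0]
      exact hn0
    · rw [← hsumM]
      exact hf1 x (hEsub x hx h1)
  -- the centre of a vertex
  have hcen : ∀ u, ¬ Even (d u) → u ∉ Z → ∃ b ∈ Z, u ∈ L b := by
    intro u hu hnot
    have h1 : u ∈ S.biUnion L := by
      by_contra h2
      exact hnot (mem_sdiff.2 ⟨(hmemS u).2 hu, h2⟩)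
    obtain ⟨b, hb, h2⟩ := mem_biUnion.1 h1
    refine ⟨b, hZmem b ((hmemS b).1 hb) ?_, h2⟩
    have h3 := hL1 b ((hmemS b).1 hb)
    have h4 : 0 < (L b).card := card_pos.2 ⟨u, h2⟩
    omega
  have hcenuniq : ∀ u b b', b ∈ Z → b' ∈ Z → u ∈ L b → u ∈ L b' → b = b' := by
    intro u b b' hb hb' h1 h2
    by_contra h3
    exact disjoint_left.1 (hL4 b b' (hZS b hb) (hZS b' hb') h3) h1 h2
  have hLZ : ∀ b ∈ Z, ∀ u ∈ L b, u ∉ Z := by
    intro b hb u hu h1
    exact (mem_sdiff.1 h1).2 (mem_biUnion.2 ⟨b, (mem_sdiff.1 hb).1, hu⟩)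
  -- residues
  let Q : V → V → ℤ := fun b y => ((f y : ℤ) - β b) % (M b : ℤ)
  have hQ0 : ∀ b ∈ Z, ∀ y, 0 ≤ Q b y := fun b hb y =>
    Int.emod_nonneg _ (by exact_mod_cast (hMpos b hb).ne')
  have hQM : ∀ b ∈ Z, ∀ y, Q b y < M b := fun b hb y =>
    Int.emod_lt_of_pos _ (by exact_mod_cast hMpos b hb)
  have hQf : ∀ b ∈ Z, ∀ y, (f y : ℤ) ≡ β b + Q b y [ZMOD (M b : ℤ)] := by
    intro b hb y
    have h1 : Q b y ≡ (f y : ℤ) - β b [ZMOD (M b : ℤ)] := Int.mod_modEq _ _
    have h2 := h1.add_left (β b : ℤ)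
    have h3 : (β b : ℤ) + ((f y : ℤ) - β b) = f y := by ring
    rw [h3] at h2
    exact h2.symm
  have hdM : ∀ b, T.degree b ≤ M b := fun b => Nat.le_add_right _ _
  have hQd : ∀ b ∈ Z, ∀ y, (∃ p, p < (ch r par b).card + 1 ∧ f y ≡ β b + p [MOD M b]) →
      Q b y < T.degree b := by
    rintro b hb y ⟨p, hp, h1⟩
    rw [← hdeg b (hZS b hb)] at hp
    have h2 : (f y : ℤ) ≡ ((β b + p : ℕ) : ℤ) [ZMOD (M b : ℤ)] := Int.natCast_modEq_iff.2 h1
    have h3 : (f y : ℤ) - β b ≡ p [ZMOD (M b : ℤ)] := by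
      have h4 := h2.sub_right (β b : ℤ)
      push_cast at h4
      rwa [add_sub_cancel_left] at h4
    have h4 : Q b y = p := by
      simp only [Q]
      rw [h3, Int.emod_eq_of_lt (by positivity)]
      have := hdM b
      exact_mod_cast (by omega : p < M b)
    rw [h4]
    exact_mod_cast hp
  have hQnb : ∀ b ∈ Z, ∀ y, T.Adj b y → Q b y < T.degree b := by
    intro b hb y hy
    apply hQd b hb y
    apply (hf3 b hb).1 y
    rw [← hnb b (hZS b hb), SimpleGraph.mem_neighborFinset]
    exact hy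
  have hQr : ∀ b ∈ Z, Q b r < T.degree b := by
    intro b hb
    apply hQd b hb r
    rw [hf0]
    exact (hf3 b hb).2.2
  have hQpar : ∀ b ∈ Z, ∀ u ∈ L b, Q b (par u) < T.degree b := by
    intro b hb u hu
    obtain ⟨h1, h2⟩ := hL3 b (hZS b hb) u hu
    have hu' := hLodd b (hZS b hb) u hu
    rcases h2 with h2 | ⟨y, h2, h3⟩
    · rw [← hleaf u hu' h1 r h2.symm]
      exact hQr b hb
    · rw [← hleaf u hu' h1 y h3.symm]
      exact hQnb b hb y h2
  have hQinj : ∀ b ∈ Z, ∀ y ∈ T.neighborFinset b, ∀ y' ∈ T.neighborFinset b,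
      Q b y = Q b y' → y = y' := by
    intro b hb y hy y' hy' h
    rw [hnb b (hZS b hb)] at hy hy'
    apply (hf3 b hb).2.1 y hy y' hy'
    rw [← Int.natCast_modEq_iff]
    have h1 := hQf b hb y
    rw [h] at h1
    exact h1.trans (hQf b hb y').symm
  -- the sorting of the leaves
  have hsort : ∀ b, ∃ i : V → ℕ, (∀ u ∈ L b, i u < (L b).card) ∧
      (∀ j < (L b).card, ∃ u ∈ L b, i u = j) ∧
      ∀ u ∈ L b, ∀ u' ∈ L b, ((Q b (par u)).toNat : ℤ) - i u = ((Q b (par u')).toNat : ℤ) - i u' →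
        u = u' := fun b => exists_sort (fun u => (Q b (par u)).toNat) _ (L b) rfl
  choose i hi1 hi2 hi3 using hsort
  let g : V → V := fun u => if h : ¬ Even (d u) ∧ u ∉ Z then (hcen u h.1 h.2).choose else u
  have hgZ : ∀ u, u ∈ Z → g u = u := by
    intro u hu
    simp only [g]
    rw [dif_neg]
    rintro ⟨_, h⟩
    exact h hu
  have hgL : ∀ b ∈ Z, ∀ u ∈ L b, g u = b := by
    intro b hb u hu
    have h : ¬ Even (d u) ∧ u ∉ Z := ⟨hLodd b (hZS b hb) u hu, hLZ b hb u hu⟩
    simp only [g]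
    rw [dif_pos h]
    have h1 := (hcen u h.1 h.2).choose_spec
    exact hcenuniq u _ b h1.1 hb h1.2 hu
  have hgcases : ∀ u, ¬ Even (d u) → (u ∈ Z ∧ g u = u) ∨ (g u ∈ Z ∧ u ∈ L (g u) ∧ u ∉ Z) := by
    intro u hu
    by_cases h : u ∈ Z
    · exact Or.inl ⟨h, hgZ u h⟩
    · obtain ⟨b, hb, h1⟩ := hcen u hu h
      right
      rw [hgL b hb u h1]
      exact ⟨hb, h1, h⟩
  let o : V → ℤ := fun u => if u ∈ Z then 0 else
    (f (par u) : ℤ) - (β (g u) + T.degree (g u) + i (g u) u)
  have hoZ : ∀ u, u ∈ Z → o u = 0 := fun u hu => if_pos hu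
  have hoL : ∀ u, u ∉ Z → o u = (f (par u) : ℤ) - (β (g u) + T.degree (g u) + i (g u) u) :=
    fun u hu => if_neg hu
  have hoQ : ∀ u, g u ∈ Z → u ∉ Z →
      o u ≡ Q (g u) (par u) - T.degree (g u) - i (g u) u [ZMOD (M (g u) : ℤ)] := by
    intro u hu h
    rw [hoL u h]
    have h1 := (hQf (g u) hu (par u)).sub_right
      ((β (g u) : ℤ) + T.degree (g u) + i (g u) u)
    have h2 : (β (g u) : ℤ) + Q (g u) (par u) - ((β (g u) : ℤ) + T.degree (g u) + i (g u) u) =
        Q (g u) (par u) - T.degree (g u) - i (g u) u := by ring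
    rw [h2] at h1
    exact h1
  -- numbers smaller than the modulus
  have hsmall : ∀ (m : ℕ) (a b : ℤ), a ≡ b [ZMOD (m : ℤ)] → a - b < m → b - a < m → a = b := by
    intro m a b h h1 h2
    obtain ⟨k, hk⟩ := h.dvd
    rcases lt_trichotomy k 0 with h3 | h3 | h3
    · nlinarith
    · rw [h3] at hk
      linarith
    · nlinarith
  have hMcast : ∀ b, (M b : ℤ) = (T.degree b : ℤ) + ((L b).card : ℤ) := fun b => by
    simp only [M]
    push_cast
    ring
  refine decomposes_orbits hn0 T r par hn (fun x hx => (hpar x hx).1) hedge (fun x => Even (d x))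
    hA f hflt ?_ Z M (fun b hb => hL2 b (hZS b hb)) hsumM g ?_ o ?_ ?_
  · intro a a' ha ha' h
    exact hf2 (hEsub' a ha) (hEsub' a' ha') h
  · intro u hu
    rcases hgcases u hu with ⟨h1, h2⟩ | ⟨h1, _, _⟩
    · rw [h2]
      exact h1
    · exact h1
  · intro u u' hu hu' hgg ho
    rcases hgcases u hu with ⟨h1, h2⟩ | ⟨h1, h2, h3⟩ <;>
      rcases hgcases u' hu' with ⟨h1', h2'⟩ | ⟨h1', h2', h3'⟩
    · rw [← h2, hgg, h2']
    · exfalso
      rw [hoZ u h1] at ho
      have h4 := hoQ u' h1' h3'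
      rw [← hgg] at h4 h1' h2'
      have h5 := hsmall (M (g u)) _ _ (ho.trans h4)
      have h6 := hi1 (g u) u' h2'
      have h7 := hQ0 (g u) h1' (par u')
      have h8 := hQpar (g u) h1' u' h2'
      have h9 := hMcast (g u)
      have h10 : (i (g u) u' : ℤ) < (L (g u)).card := by exact_mod_cast h6
      have h11 := h5 (by linarith) (by linarith)
      linarith
    · exfalso
      rw [hoZ u' h1'] at ho
      have h4 := hoQ u h1 h3
      have h5 := hsmall (M (g u)) _ _ (h4.symm.trans ho)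
      have h6 := hi1 (g u) u h2
      have h7 := hQ0 (g u) h1 (par u)
      have h8 := hQpar (g u) h1 u h2
      have h9 := hMcast (g u)
      have h10 : (i (g u) u : ℤ) < (L (g u)).card := by exact_mod_cast h6
      have h11 := h5 (by linarith) (by linarith)
      linarith
    · have h4 := hoQ u h1 h3
      have h4' := hoQ u' h1' h3'
      rw [← hgg] at h4' h1' h2'
      have h5 := hsmall (M (g u)) _ _ ((h4.symm.trans ho).trans h4')
      have h6 := hi1 (g u) u h2
      have h7 := hQ0 (g u) h1 (par u)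
      have h8 := hQpar (g u) h1 u h2
      have h9 := hMcast (g u)
      have h10 : (i (g u) u : ℤ) < (L (g u)).card := by exact_mod_cast h6
      have h6' := hi1 (g u) u' h2'
      have h7' := hQ0 (g u) h1' (par u')
      have h8' := hQpar (g u) h1' u' h2'
      have h10' : (i (g u) u' : ℤ) < (L (g u)).card := by exact_mod_cast h6'
      have h12 : (0 : ℤ) ≤ i (g u) u := by positivity
      have h12' : (0 : ℤ) ≤ i (g u) u' := by positivity
      have h11 := h5 (by linarith) (by linarith)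
      apply hi3 (g u) u h2 u' h2'
      rw [Int.toNat_of_nonneg h7, Int.toNat_of_nonneg h7']
      linarith
  · intro b hb κ
    obtain ⟨q, hq⟩ : ∃ q, q = (κ - β b) % (M b : ℤ) := ⟨_, rfl⟩
    have hMb : (0 : ℤ) < M b := by exact_mod_cast hMpos b hb
    have hq0 : 0 ≤ q := by
      rw [hq]
      exact Int.emod_nonneg _ hMb.ne'
    have hqM : q < M b := by
      rw [hq]
      exact Int.emod_lt_of_pos _ hMb
    have hqκ : (β b : ℤ) + q ≡ κ [ZMOD (M b : ℤ)] := by
      have h1 : q ≡ κ - β b [ZMOD (M b : ℤ)] := by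
        rw [hq]
        exact Int.mod_modEq _ _
      have h2 := h1.add_left (β b : ℤ)
      have h3 : (β b : ℤ) + (κ - β b) = κ := by ring
      rwa [h3] at h2
    by_cases hqd : q < T.degree b
    · -- a neighbour of `b`
      have himg : (T.neighborFinset b).image (fun y => (Q b y).toNat) = range (T.degree b) := by
        apply eq_of_subset_of_card_le
        · intro p hp
          obtain ⟨y, hy, rfl⟩ := mem_image.1 hp
          rw [mem_range]
          rw [SimpleGraph.mem_neighborFinset] at hy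
          have h1 := hQnb b hb y hy
          have h2 := hQ0 b hb y
          omega
        · rw [card_range, card_image_of_injOn, SimpleGraph.card_neighborFinset_eq_degree]
          intro y hy y' hy' h
          have h1 := hQ0 b hb y
          have h2 := hQ0 b hb y'
          simp only at h
          exact hQinj b hb y hy y' hy' (by omega)
      have h1 : q.toNat ∈ (T.neighborFinset b).image (fun y => (Q b y).toNat) := by
        rw [himg, mem_range]
        omega
      obtain ⟨y, hy, h2⟩ := mem_image.1 h1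
      rw [SimpleGraph.mem_neighborFinset] at hy
      have h3 : Q b y = q := by
        have := hQ0 b hb y
        omega
      refine ⟨b, y, hZS b hb, ?_, hy.symm, hgZ b hb, ?_⟩
      · have := hA b y hy
        have h4 := hZS b hb
        tauto
      · rw [hoZ b hb, sub_zero]
        have h4 := hQf b hb y
        rw [h3] at h4
        exact h4.trans hqκ
    · -- a leaf
      have h9 := hMcast b
      obtain ⟨u, hu, hiu⟩ := hi2 b (q - T.degree b).toNat (by omega)
      have hu' := hLodd b (hZS b hb) u hu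
      have hgu := hgL b hb u hu
      refine ⟨u, par u, hu', ?_, (hpar u (hne u hu')).1.symm, hgu, ?_⟩
      · have := hparity u (hne u hu')
        tauto
      · rw [hoL u (hLZ b hb u hu), hgu, hiu]
        have h4 : (f (par u) : ℤ) - ((f (par u) : ℤ) - ((β b : ℤ) + T.degree b +
            ((q - T.degree b).toNat : ℕ))) = (β b : ℤ) + q := by
          rw [Int.toNat_of_nonneg (by omega)]
          ring
        rw [h4]
        exact hqκ

end Pool.Agent.Helper80.GH
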