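import Pool.Agent.Helper80.GH.Completion

/-!
# The completion criterion, unrooted, and its special cases
-/

namespace Pool.Agent.Helper80.GH

open Finset Pool.Agent.Helper19.GH

/-- The completion criterion. -/
theorem criterion (V : Type) [Fintype V] [DecidableEq V] (T : SimpleGraph V) [DecidableRel T.Adj]
    (n : ℕ) (B : Finset V) (x : V) (L : V → Finset V) (hT : T.IsTree)
    (hn : Fintype.card V = n + 1) (hB : ∀ u w, T.Adj u w → (u ∈ B ↔ w ∉ B)) (hx : x ∉ B)
    (hL1 : ∀ b ∈ B, (L b).card < T.degree b) (hL2 : ∀ b ∈ B, T.degree b + (L b).card ∣ n)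
    (hL3 : ∀ b ∈ B, ∀ u ∈ L b, T.degree u = 1 ∧ (T.Adj x u ∨ ∃ y, T.Adj b y ∧ T.Adj y u))
    (hL4 : ∀ b ∈ B, ∀ b' ∈ B, b ≠ b' → Disjoint (L b) (L b')) :
    Decomposes T (completeBipartiteGraph (Fin n) (Fin n)) := by
  classical
  rcases Nat.eq_zero_or_pos n with h0 | h0
  · subst h0
    exact ⟨0, fun i => i.elim0, fun i => i.elim0, fun i => i.elim0, fun x => by
      rcases x with x | x <;> exact x.elim0⟩
  obtain ⟨par, hpar, hedge⟩ := exists_par T hT x
  have hpB : ∀ y, y ≠ x → (y ∈ B ↔ par y ∉ B) := fun y hy => hB y (par y) (hpar y hy).1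
  have hpar2 : ∀ (m : ℕ) (y : V), T.dist x y = m → (y ∉ B ↔ Even (T.dist x y)) := by
    intro m
    induction m with
    | zero =>
      intro y hy
      have h1 : x = y := (hT.connected.dist_eq_zero_iff).1 hy
      rw [← h1, SimpleGraph.dist_self]
      simpa using hx
    | succ m ih =>
      intro y hy
      have hyx : y ≠ x := by
        rintro rfl
        rw [SimpleGraph.dist_self] at hy
        omega
      have h1 := (hpar y hyx).2
      have h2 := ih (par y) (by omega)
      rw [h1, Nat.even_add_one, ← h2, hpB y hyx]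
  have hBd : ∀ y, ¬ Even (T.dist x y) → y ∈ B := fun y hy => by
    have := hpar2 _ y rfl
    tauto
  exact completion_rooted h0 T x par (fun y => T.dist x y) SimpleGraph.dist_self hn hpar hedge L
    (fun b hb => hL1 b (hBd b hb)) (fun b hb => hL2 b (hBd b hb))
    (fun b hb => hL3 b (hBd b hb)) (fun b b' hb hb' => hL4 b (hBd b hb) b' (hBd b' hb'))

/-- Every vertex of a tree with at least one edge has a neighbour. -/
lemma degree_pos {V : Type} [Fintype V] [DecidableEq V] (T : SimpleGraph V) [DecidableRel T.Adj]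
    (n : ℕ) (hT : T.IsTree) (hn : Fintype.card V = n + 1) (h0 : 0 < n) (v : V) :
    0 < T.degree v := by
  have hcard2 : 1 < Fintype.card V := by omega
  have : Nontrivial V := Fintype.one_lt_card_iff_nontrivial.1 hcard2
  exact hT.connected.preconnected.degree_pos_of_nontrivial v

lemma exists_notMem {V : Type} [Fintype V] [DecidableEq V] (T : SimpleGraph V)
    [DecidableRel T.Adj] (n : ℕ) (B : Finset V) (hT : T.IsTree) (hn : Fintype.card V = n + 1)
    (h0 : 0 < n) (hB : ∀ u w, T.Adj u w → (u ∈ B ↔ w ∉ B)) : ∃ x, x ∉ B := by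
  obtain ⟨v⟩ := hT.connected.nonempty
  have h1 := degree_pos T n hT hn h0 v
  rw [← SimpleGraph.card_neighborFinset_eq_degree, card_pos] at h1
  obtain ⟨w, hw⟩ := h1
  rw [SimpleGraph.mem_neighborFinset] at hw
  by_cases h2 : v ∈ B
  · exact ⟨w, (hB v w hw).1 h2⟩
  · exact ⟨v, h2⟩

/-- First special case: the degrees in one of the two colour classes divide `n`. -/
theorem divisor_degrees (V : Type) [Fintype V] [DecidableEq V] (T : SimpleGraph V)
    [DecidableRel T.Adj] (n : ℕ) (B : Finset V) (hT : T.IsTree)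
    (hn : Fintype.card V = n + 1) (hB : ∀ u w, T.Adj u w → (u ∈ B ↔ w ∉ B))
    (hdeg : ∀ b ∈ B, T.degree b ∣ n) :
    Decomposes T (completeBipartiteGraph (Fin n) (Fin n)) := by
  rcases Nat.eq_zero_or_pos n with h0 | h0
  · subst h0
    exact ⟨0, fun i => i.elim0, fun i => i.elim0, fun i => i.elim0, fun x => by
      rcases x with x | x <;> exact x.elim0⟩
  obtain ⟨x, hx⟩ := exists_notMem T n B hT hn h0 hB
  refine criterion V T n B x (fun _ => ∅) hT hn hB hx ?_ ?_ ?_ ?_
  · intro b _
    simpa using degree_pos T n hT hn h0 b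
  · intro b hb
    simpa using hdeg b hb
  · intro b _ u hu
    simp at hu
  · intro b _ b' _ _
    simp

/-- The number missing to the next power of two. -/
def gap (d : ℕ) : ℕ := 2 ^ Nat.clog 2 d - d

lemma gap_spec (d : ℕ) (hd : 0 < d) : d + gap d = 2 ^ Nat.clog 2 d ∧ gap d < d := by
  have h1 : d ≤ 2 ^ Nat.clog 2 d := Nat.le_pow_clog (by norm_num) d
  refine ⟨by rw [gap]; omega, ?_⟩
  rcases Nat.lt_or_ge 1 d with h2 | h2
  · have h3 : 2 ^ (Nat.clog 2 d - 1) < d := Nat.pow_pred_clog_lt_self (by norm_num) h2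
    have h4 : 0 < Nat.clog 2 d := Nat.clog_pos (by norm_num) h2
    have h5 : 2 ^ Nat.clog 2 d = 2 * 2 ^ (Nat.clog 2 d - 1) := by
      rw [← pow_succ']
      congr 1
      omega
    rw [gap]
    omega
  · have h3 : d = 1 := by omega
    subst h3
    simp [gap]

lemma gap_dvd (d k : ℕ) (hd : 0 < d) (h : d ≤ 2 ^ k) : d + gap d ∣ 2 ^ k := by
  rw [(gap_spec d hd).1]
  exact pow_dvd_pow 2 (Nat.clog_le_of_le_pow h)

/-- Second special case: the number of edges is a power of two and every vertex of one colour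
class is adjacent to a leaf. -/
theorem two_pow_leaf (V : Type) [Fintype V] [DecidableEq V] (T : SimpleGraph V)
    [DecidableRel T.Adj] (k : ℕ) (B : Finset V) (hT : T.IsTree)
    (hn : Fintype.card V = 2 ^ k + 1) (hB : ∀ u w, T.Adj u w → (u ∈ B ↔ w ∉ B))
    (hleaf : ∀ y, y ∉ B → ∃ u, T.Adj y u ∧ T.degree u = 1) :
    Decomposes T (completeBipartiteGraph (Fin (2 ^ k)) (Fin (2 ^ k))) := by
  classical
  have h0 : 0 < 2 ^ k := by positivity
  obtain ⟨x, hx⟩ := exists_notMem T (2 ^ k) B hT hn h0 hB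
  obtain ⟨par, hpar, hedge⟩ := exists_par T hT x
  choose! l hl using hleaf
  have hposdeg : ∀ v, 0 < T.degree v := degree_pos T (2 ^ k) hT hn h0
  have hdegle : ∀ v, T.degree v ≤ 2 ^ k := by
    intro v
    have := T.degree_lt_card_verts v
    omega
  have hbx : ∀ b ∈ B, b ≠ x := by
    rintro b hb rfl
    exact hx hb
  have hdeg : ∀ b ∈ B, T.degree b = (ch x par b).card + 1 := by
    intro b hb
    rw [← SimpleGraph.card_neighborFinset_eq_degree,
      neighborFinset_eq T x par (fun y hy => (hpar y hy).1) hedge b (hbx b hb),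
      card_insert_of_notMem (par_notMem_ch (d := fun y => T.dist x y)
        (fun y hy => (hpar y hy).2) (hbx b hb))]
  have hsub : ∀ b, ∃ C : Finset V, C ⊆ ch x par b ∧ (b ∈ B → C.card = gap (T.degree b)) := by
    intro b
    by_cases hb : b ∈ B
    · have h1 := (gap_spec (T.degree b) (hposdeg b)).2
      have h2 := hdeg b hb
      obtain ⟨C, hC1, hC2⟩ := exists_subset_card_eq (s := ch x par b) (n := gap (T.degree b))
        (by omega)
      exact ⟨C, hC1, fun _ => hC2⟩
    · exact ⟨∅, empty_subset _, fun h => absurd h hb⟩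
  choose C hC1 hC2 using hsub
  have hchB : ∀ b ∈ B, ∀ y ∈ ch x par b, y ∉ B := by
    intro b hb y hy
    rw [mem_ch] at hy
    have h1 := (hpar y hy.1).1
    rw [hy.2] at h1
    have := hB y b h1
    tauto
  have hlinj : ∀ y y', y ∉ B → y' ∉ B → l y = l y' → y = y' := by
    intro y y' hy hy' h
    have h1 := (hl y hy).1
    have h2 := (hl y' hy').1
    have h3 := (hl y hy).2
    rw [← h] at h2
    obtain ⟨w, hw⟩ := card_eq_one.1 h3
    have h4 : y ∈ T.neighborFinset (l y) := by
      rw [SimpleGraph.mem_neighborFinset]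
      exact h1.symm
    have h5 : y' ∈ T.neighborFinset (l y) := by
      rw [SimpleGraph.mem_neighborFinset]
      exact h2.symm
    rw [hw, mem_singleton] at h4 h5
    rw [h4, h5]
  have hcard : ∀ b ∈ B, ((C b).image l).card = gap (T.degree b) := by
    intro b hb
    rw [card_image_of_injOn, hC2 b hb]
    intro y hy y' hy' h
    exact hlinj y y' (hchB b hb y (hC1 b hy)) (hchB b hb y' (hC1 b hy')) h
  refine criterion V T (2 ^ k) B x (fun b => (C b).image l) hT hn hB hx ?_ ?_ ?_ ?_
  · intro b hb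
    rw [hcard b hb]
    exact (gap_spec _ (hposdeg b)).2
  · intro b hb
    rw [hcard b hb]
    exact gap_dvd _ _ (hposdeg b) (hdegle b)
  · intro b hb u hu
    obtain ⟨y, hy, rfl⟩ := mem_image.1 hu
    have h1 := hC1 b hy
    have h2 := hchB b hb y h1
    refine ⟨(hl y h2).2, Or.inr ⟨y, ?_, (hl y h2).1⟩⟩
    rw [mem_ch] at h1
    have h3 := (hpar y h1.1).1
    rw [h1.2] at h3
    exact h3.symm
  · intro b hb b' hb' hbb
    rw [disjoint_left]
    intro u hu hu'
    obtain ⟨y, hy, hyu⟩ := mem_image.1 hu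
    obtain ⟨y', hy', hyu'⟩ := mem_image.1 hu'
    have h1 := hC1 b hy
    have h1' := hC1 b' hy'
    have h2 := hlinj y y' (hchB b hb y h1) (hchB b' hb' y' h1') (hyu.trans hyu'.symm)
    rw [mem_ch] at h1 h1'
    rw [← h2] at h1'
    exact hbb (h1.2.symm.trans h1'.2)

/-- Disjoint subsets of prescribed sizes. -/
lemma exists_disjoint {V : Type} [DecidableEq V] (m : V → ℕ) (B : Finset V) :
    ∀ Λ : Finset V, ∑ b ∈ B, m b ≤ Λ.card →
    ∃ L : V → Finset V, (∀ b ∈ B, L b ⊆ Λ ∧ (L b).card = m b) ∧
      ∀ b ∈ B, ∀ b' ∈ B, b ≠ b' → Disjoint (L b) (L b') := by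
  induction B using Finset.induction_on with
  | empty =>
    intro Λ _
    exact ⟨fun _ => ∅, by simp, by simp⟩
  | insert a B ha ih =>
    intro Λ hΛ
    rw [sum_insert ha] at hΛ
    obtain ⟨C, hC1, hC2⟩ := exists_subset_card_eq (s := Λ) (n := m a) (by omega)
    obtain ⟨L, hL1, hL2⟩ := ih (Λ \ C) (by rw [card_sdiff_of_subset hC1, hC2]; omega)
    refine ⟨fun b => if b = a then C else L b, ?_, ?_⟩
    · intro b hb
      by_cases h : b = a
      · simp only [h, if_true]
        exact ⟨hC1, hC2⟩
      · simp only [h, if_false]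
        have h1 := hL1 b (mem_of_mem_insert_of_ne hb h)
        exact ⟨h1.1.trans sdiff_subset, h1.2⟩
    · intro b hb b' hb' hbb
      by_cases h : b = a <;> by_cases h' : b' = a
      · exact absurd (h.trans h'.symm) hbb
      · simp only [h, h', if_true, if_false]
        have h1 := (hL1 b' (mem_of_mem_insert_of_ne hb' h')).1
        exact (disjoint_sdiff_self_right).mono_right h1
      · simp only [h, h', if_true, if_false]
        have h1 := (hL1 b (mem_of_mem_insert_of_ne hb h)).1
        exact (disjoint_sdiff_self_left).mono_left h1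
      · simp only [h, h', if_false]
        exact hL2 b (mem_of_mem_insert_of_ne hb h) b' (mem_of_mem_insert_of_ne hb' h') hbb

/-- Third special case: the number of edges is a power of two and some vertex is adjacent to at
least half of it (rounded up) leaves. -/
theorem two_pow_star (V : Type) [Fintype V] [DecidableEq V] (T : SimpleGraph V)
    [DecidableRel T.Adj] (k : ℕ) (x : V) (hT : T.IsTree) (hn : Fintype.card V = 2 ^ k + 1)
    (hx : 2 ^ k ≤ 2 * (univ.filter fun u => T.Adj x u ∧ T.degree u = 1).card) :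
    Decomposes T (completeBipartiteGraph (Fin (2 ^ k)) (Fin (2 ^ k))) := by
  classical
  have h0 : 0 < 2 ^ k := by positivity
  obtain ⟨par, hpar, hedge⟩ := exists_par T hT x
  have hposdeg : ∀ v, 0 < T.degree v := degree_pos T (2 ^ k) hT hn h0
  have hdegle : ∀ v, T.degree v ≤ 2 ^ k := by
    intro v
    have := T.degree_lt_card_verts v
    omega
  set Λ := univ.filter fun u => T.Adj x u ∧ T.degree u = 1 with hΛ
  set B := univ.filter fun y : V => ¬ Even (T.dist x y) with hBdef
  have hparity : ∀ y, y ≠ x → (y ∈ B ↔ par y ∉ B) := by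
    intro y hy
    simp only [hBdef, mem_filter, mem_univ, true_and]
    rw [(hpar y hy).2, Nat.even_add_one]
  have hB : ∀ u w, T.Adj u w → (u ∈ B ↔ w ∉ B) := by
    intro u w huw
    rcases hedge u w huw with ⟨h1, h2⟩ | ⟨h1, h2⟩
    · rw [← h2]
      exact hparity u h1
    · rw [← h2]
      have := hparity w h1
      tauto
  have hxB : x ∉ B := by
    simp [hBdef, SimpleGraph.dist_self]
  have hbip : T.IsBipartiteWith (B : Set V) ((Bᶜ : Finset V) : Set V) := by
    refine ⟨?_, ?_⟩
    · rw [Finset.disjoint_coe]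
      exact disjoint_compl_right
    · intro v w hvw
      have := hB v w hvw
      simp only [mem_coe, mem_compl]
      tauto
  have hsum : ∑ b ∈ B, T.degree b = 2 ^ k := by
    rw [SimpleGraph.isBipartiteWith_sum_degrees_eq_card_edges hbip]
    have := hT.card_edgeFinset
    omega
  have hΛB : Λ ⊆ B := by
    intro u hu
    rw [hΛ, mem_filter] at hu
    have := hB x u hu.2.1
    tauto
  have hgap : ∑ b ∈ B, gap (T.degree b) ≤ Λ.card := by
    have h1 : ∑ b ∈ B, gap (T.degree b) + B.card ≤ ∑ b ∈ B, T.degree b := by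
      rw [card_eq_sum_ones, ← sum_add_distrib]
      apply sum_le_sum
      intro b _
      exact (gap_spec _ (hposdeg b)).2
    have h2 := card_le_card hΛB
    omega
  obtain ⟨L, hL1, hL2⟩ := exists_disjoint (fun b => gap (T.degree b)) B Λ hgap
  refine criterion V T (2 ^ k) B x L hT hn hB hxB ?_ ?_ ?_ hL2
  · intro b hb
    rw [(hL1 b hb).2]
    exact (gap_spec _ (hposdeg b)).2
  · intro b hb
    rw [(hL1 b hb).2]
    exact gap_dvd _ _ (hposdeg b) (hdegle b)
  · intro b hb u hu
    have h1 := (hL1 b hb).1 hu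
    rw [hΛ, mem_filter] at h1
    exact ⟨h1.2.2, Or.inl h1.2.1⟩

end Pool.Agent.Helper80.GH
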