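import Pool.Agent.Helper80.GH.Process
import Pool.Agent.Helper80.GH.Pow2Main

/-!
# The criterion with borrowed leaves
-/

namespace Pool.Agent.Helper80.GH

open Finset Pool.Agent.Helper19.GH

variable {V : Type} [Fintype V] [DecidableEq V]

/-- From stars to the decomposition, cyclic version. -/
lemma decomposes_starsC {n : ℕ} (hn0 : 0 < n) (T : SimpleGraph V) [DecidableRel T.Adj] (r : V)
    (par : V → V) (d : V → ℕ) (hn : Fintype.card V = n + 1)
    (hpar : ∀ x, x ≠ r → T.Adj x (par x) ∧ d x = d (par x) + 1)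
    (hedge : ∀ u w, T.Adj u w → (u ≠ r ∧ par u = w) ∨ (w ≠ r ∧ par w = u))
    (hA : ∀ u w, T.Adj u w → (Even (d u) ↔ ¬ Even (d w)))
    (hr : Even (d r)) (K Λ : Finset V) (hK : ∀ b ∈ K, ¬ Even (d b)) (hΛ : ∀ b ∈ Λ, ¬ Even (d b))
    (hcov : ∀ b, ¬ Even (d b) → b ∈ K ∨ b ∈ Λ) (hKΛ : Disjoint K Λ)
    (M t : V → ℕ) (hMn : ∀ b ∈ K, M b ∣ n) (L : V → Finset V) (hL1 : ∀ b ∈ K, L b ⊆ Λ)
    (hL2 : ∀ b ∈ K, ∀ b' ∈ K, b ≠ b' → Disjoint (L b) (L b'))
    (hcount : ∑ b ∈ K, M b + Λ.card = n + ∑ b ∈ K, (L b).card)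
    (f : V → ℕ) (hfn : ∀ a, Even (d a) → f a < n)
    (hf : ∀ a a', Even (d a) → Even (d a') → f a = f a' → a = a')
    (hstar : ∀ b ∈ K, StarC r par (M b) (t b) (L b) f b) :
    Decomposes T (completeBipartiteGraph (Fin n) (Fin n)) := by
  classical
  have hne : ∀ b, ¬ Even (d b) → b ≠ r := by
    rintro b hb rfl
    exact hb hr
  have hparity : ∀ x, x ≠ r → (Even (d x) ↔ ¬ Even (d (par x))) := fun x hx =>
    hA x (par x) (hpar x hx).1
  have hκ : ∀ b, ∃ κ : V → ℤ, b ∈ K →
      (∀ u ∈ L b, ∀ u' ∈ L b, κ u - f (par u) ≡ κ u' - f (par u') [ZMOD (M b : ℤ)] → u = u') ∧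
      (∀ u ∈ L b, ¬ κ u ≡ f (par u) - t b [ZMOD (M b : ℤ)]) ∧
      ∀ w : ℤ, w ≡ f (par b) - t b [ZMOD (M b : ℤ)] ∨
        (∃ y ∈ ch r par b, (f y : ℤ) - t b ≡ w [ZMOD (M b : ℤ)]) ∨
        ∃ u ∈ L b, κ u ≡ w [ZMOD (M b : ℤ)] := by
    intro b
    by_cases hb : b ∈ K
    · obtain ⟨_, _, _, κ, h⟩ := hstar b hb
      exact ⟨κ, fun _ => h⟩
    · exact ⟨0, fun h => absurd h hb⟩
  choose κ hκ using hκ
  set U := K.biUnion L with hU
  have hUΛ : U ⊆ Λ := by
    intro u hu
    obtain ⟨b, hb, h⟩ := mem_biUnion.1 hu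
    exact hL1 b hb h
  set Z := K ∪ (Λ \ U) with hZ
  have hUK : ∀ u ∈ U, u ∉ K := fun u hu h => disjoint_left.1 hKΛ h (hUΛ hu)
  have hZU : ∀ u ∈ U, u ∉ Z := by
    intro u hu h
    rcases mem_union.1 h with h1 | h1
    · exact hUK u hu h1
    · exact (mem_sdiff.1 h1).2 hu
  have hZodd : ∀ b ∈ Z, ¬ Even (d b) := by
    intro b hb
    rcases mem_union.1 hb with h1 | h1
    · exact hK b h1
    · exact hΛ b (mem_sdiff.1 h1).1
  have hcases : ∀ u, ¬ Even (d u) → u ∈ Z ∨ u ∈ U := by
    intro u hu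
    rcases hcov u hu with h | h
    · exact Or.inl (mem_union_left _ h)
    · by_cases h1 : u ∈ U
      · exact Or.inr h1
      · exact Or.inl (mem_union_right _ (mem_sdiff.2 ⟨h, h1⟩))
  have hcen : ∀ u, u ∈ U → ∃ b ∈ K, u ∈ L b := fun u hu => mem_biUnion.1 hu
  let W : V → ℕ := fun b => if b ∈ K then M b else 1
  have hWK : ∀ b ∈ K, W b = M b := fun b hb => if_pos hb
  have hWn : ∀ b, b ∉ K → W b = 1 := fun b hb => if_neg hb
  let g : V → V := fun u => if h : u ∈ U then (hcen u h).choose else u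
  have hgZ : ∀ u, u ∉ U → g u = u := fun u hu => dif_neg hu
  have hgU : ∀ u ∈ U, g u ∈ K ∧ u ∈ L (g u) := by
    intro u hu
    have h1 := (hcen u hu).choose_spec
    simp only [g, dif_pos hu]
    exact h1
  have hgL : ∀ b ∈ K, ∀ u ∈ L b, u ∈ U ∧ g u = b := by
    intro b hb u hu
    have h1 : u ∈ U := mem_biUnion.2 ⟨b, hb, hu⟩
    refine ⟨h1, ?_⟩
    by_contra h2
    exact disjoint_left.1 (hL2 b hb (g u) (hgU u h1).1 (Ne.symm h2)) hu (hgU u h1).2
  let o : V → ℤ := fun u => if u ∈ U then (f (par u) : ℤ) - κ (g u) u else (t u : ℤ)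
  have hoU : ∀ u ∈ U, o u = (f (par u) : ℤ) - κ (g u) u := fun u hu => if_pos hu
  have hon : ∀ u, u ∉ U → o u = t u := fun u hu => if_neg hu
  have hodd : ∀ u, ¬ Even (d u) → Even (d (par u)) := by
    intro u hu
    have := hparity u (hne u hu)
    tauto
  have hd1 : Disjoint K (Λ \ U) := hKΛ.mono_right sdiff_subset
  refine decomposes_orbits hn0 T r par hn (fun x hx => (hpar x hx).1) hedge (fun x => Even (d x))
    hA f hfn hf Z W ?_ ?_ g ?_ o ?_ ?_
  · intro b hb
    by_cases h : b ∈ K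
    · rw [hWK b h]
      exact hMn b h
    · rw [hWn b h]
      exact one_dvd _
  · -- the number of columns
    rw [hZ, sum_union hd1]
    have h1 : ∑ b ∈ K, W b = ∑ b ∈ K, M b := sum_congr rfl fun b hb => hWK b hb
    have h2 : ∑ b ∈ Λ \ U, W b = (Λ \ U).card := by
      rw [card_eq_sum_ones]
      exact sum_congr rfl fun b hb => hWn b (disjoint_right.1 hd1 hb)
    have h3 : U.card = ∑ b ∈ K, (L b).card := card_biUnion (fun b hb b' hb' hbb =>
      hL2 b hb b' hb' hbb)
    have h4 := card_le_card hUΛ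
    rw [h1, h2, card_sdiff_of_subset hUΛ]
    omega
  · intro u hu
    rcases hcases u hu with h | h
    · rw [hgZ u (fun h' => hZU u h' h)]
      exact h
    · exact mem_union_left _ (hgU u h).1
  · -- the columns of the vertices with the same centre
    have hmix : ∀ u u', u ∈ U → u' ∈ Z → g u = g u' →
        ¬ o u ≡ o u' [ZMOD (W (g u) : ℤ)] := by
      intro u u' h h' hgg hoo
      have h1 : u' ∉ U := fun h'' => hZU u' h'' h'
      rw [hgZ u' h1] at hgg
      have h2 := hgU u h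
      rw [hoU u h, hon u' h1, hWK _ h2.1, ← hgg] at hoo
      apply (hκ _ h2.1).2.1 u h2.2
      have h3 := (hoo.sub_left ((f (par u) : ℤ)))
      have h4 : (f (par u) : ℤ) - ((f (par u) : ℤ) - κ (g u) u) = κ (g u) u := by ring
      rw [h4] at h3
      exact h3
    intro u u' hu hu' hgg hoo
    rcases hcases u hu with h | h <;> rcases hcases u' hu' with h' | h'
    · rw [hgZ u (fun h'' => hZU u h'' h), hgZ u' (fun h'' => hZU u' h'' h')] at hgg
      exact hgg
    · rw [hgg] at hoo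
      exact absurd hoo.symm (hmix u' u h' h hgg.symm)
    · exact absurd hoo (hmix u u' h h' hgg)
    · have h2 := hgU u h
      have h2' := hgU u' h'
      rw [hoU u h, hoU u' h', ← hgg, hWK _ h2.1] at hoo
      rw [← hgg] at h2'
      apply (hκ _ h2.1).1 u h2.2 u' h2'.2
      have h3 := hoo.neg
      have h4 : -((f (par u) : ℤ) - κ (g u) u) = κ (g u) u - f (par u) := by ring
      have h5 : -((f (par u') : ℤ) - κ (g u) u') = κ (g u) u' - f (par u') := by ring
      rw [h4, h5] at h3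
      exact h3
  · intro b hb w
    have hbodd := hZodd b hb
    have hbU : b ∉ U := fun h' => hZU b h' hb
    have hbr := hne b hbodd
    by_cases h : b ∈ K
    · rw [hWK b h]
      rcases (hκ b h).2.2 w with h1 | ⟨y, hy, h1⟩ | ⟨u, hu, h1⟩
      · refine ⟨b, par b, hbodd, hodd b hbodd, (hpar b hbr).1.symm, hgZ b hbU, ?_⟩
        rw [hon b hbU]
        exact h1.symm
      · rw [mem_ch] at hy
        have h3 := (hpar y hy.1).1
        rw [hy.2] at h3
        refine ⟨b, y, hbodd, ?_, h3, hgZ b hbU, ?_⟩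
        · have := hA y b h3
          tauto
        · rw [hon b hbU]
          exact h1
      · obtain ⟨h2, h3⟩ := hgL b h u hu
        have h4 := hΛ u (hL1 b h hu)
        refine ⟨u, par u, h4, hodd u h4, (hpar u (hne u h4)).1.symm, h3, ?_⟩
        rw [hoU u h2, h3]
        have h5 : (f (par u) : ℤ) - (f (par u) - κ b u) = κ b u := by ring
        rw [h5]
        exact h1
    · rw [hWn b h]
      refine ⟨b, par b, hbodd, hodd b hbodd, (hpar b hbr).1.symm, hgZ b hbU, ?_⟩
      exact Int.modEq_one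

/-- Disjoint intervals of prescribed lengths. -/
lemma exists_blocks {V : Type} [DecidableEq V] (M : V → ℕ) (K : Finset V) :
    ∃ t : V → ℕ, (∀ b ∈ K, t b + M b ≤ ∑ b ∈ K, M b) ∧
      ∀ b ∈ K, ∀ b' ∈ K, b ≠ b' → t b + M b ≤ t b' ∨ t b' + M b' ≤ t b := by
  induction K using Finset.induction_on with
  | empty => exact ⟨fun _ => 0, by simp, by simp⟩
  | insert a K ha ih =>
    obtain ⟨t, ht1, ht2⟩ := ih
    refine ⟨fun b => if b = a then ∑ b ∈ K, M b else t b, ?_, ?_⟩
    · intro b hb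
      rw [sum_insert ha]
      by_cases h : b = a
      · simp only [h, if_true]
        omega
      · simp only [h, if_false]
        have := ht1 b (mem_of_mem_insert_of_ne hb h)
        omega
    · intro b hb b' hb' hbb
      by_cases h : b = a <;> by_cases h' : b' = a
      · exact absurd (h.trans h'.symm) hbb
      · simp only [h, h', if_true, if_false]
        have := ht1 b' (mem_of_mem_insert_of_ne hb' h')
        omega
      · simp only [h, h', if_true, if_false]
        have := ht1 b (mem_of_mem_insert_of_ne hb h)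
        omega
      · simp only [h, h', if_false]
        exact ht2 b (mem_of_mem_insert_of_ne hb h) b' (mem_of_mem_insert_of_ne hb' h') hbb

/-- The criterion, rooted form. -/
lemma general_rooted {n : ℕ} (hn0 : 0 < n) (T : SimpleGraph V) [DecidableRel T.Adj] (r : V)
    (par : V → V) (d : V → ℕ) (h0 : d r = 0) (hn : Fintype.card V = n + 1)
    (hpar : ∀ x, x ≠ r → T.Adj x (par x) ∧ d x = d (par x) + 1)
    (hedge : ∀ u w, T.Adj u w → (u ≠ r ∧ par u = w) ∨ (w ≠ r ∧ par w = u))
    (M : V → ℕ) (b0 : V) (hb0 : b0 ≠ r) (hb0r : par b0 = r) (hb0d : T.degree b0 ≠ 1)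
    (hM : ∀ b, ¬ Even (d b) → T.degree b ≠ 1 → M b ∣ n ∧ T.degree b ≤ M b ∧
      (M b = T.degree b ∨ M b + 2 ≤ 2 * T.degree b))
    (hsum : ∑ b ∈ univ.filter (fun b => ¬ Even (d b) ∧ T.degree b ≠ 1), (M b - T.degree b) ≤
      (univ.filter fun b => ¬ Even (d b) ∧ T.degree b = 1).card) :
    Decomposes T (completeBipartiteGraph (Fin n) (Fin n)) := by
  classical
  have hd : ∀ x, x ≠ r → d x = d (par x) + 1 := fun x hx => (hpar x hx).2
  have hrE' : Even (d r) := by rw [h0]; decide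
  have hne : ∀ b, ¬ Even (d b) → b ≠ r := by
    rintro b hb rfl
    exact hb hrE'
  have hparity : ∀ x, x ≠ r → (Even (d x) ↔ ¬ Even (d (par x))) := by
    intro x hx
    rw [hd x hx, Nat.even_add_one]
  have hA : ∀ u w, T.Adj u w → (Even (d u) ↔ ¬ Even (d w)) := by
    intro u w huw
    rcases hedge u w huw with ⟨h1, h2⟩ | ⟨h1, h2⟩
    · rw [← h2]
      exact hparity u h1
    · rw [← h2]
      have := hparity w h1
      tauto
  have hnb : ∀ b, ¬ Even (d b) → T.neighborFinset b = insert (par b) (ch r par b) := fun b hb =>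
    neighborFinset_eq T r par (fun x hx => (hpar x hx).1) hedge b (hne b hb)
  have hdeg : ∀ b, ¬ Even (d b) → T.degree b = (ch r par b).card + 1 := by
    intro b hb
    rw [← SimpleGraph.card_neighborFinset_eq_degree, hnb b hb,
      card_insert_of_notMem (par_notMem_ch hd (hne b hb))]
  set S := univ.filter fun x : V => ¬ Even (d x) with hS
  set E := univ.filter fun x : V => Even (d x) with hE
  have hmemS : ∀ b, b ∈ S ↔ ¬ Even (d b) := fun b => by simp [hS]
  have hrE : r ∈ E := by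
    rw [hE, mem_filter]
    exact ⟨mem_univ _, hrE'⟩
  have hsumch : ∑ b ∈ S, (ch r par b).card = E.card - 1 := by
    rw [← card_erase_of_mem hrE]
    rw [← card_biUnion]
    · congr 1
      ext x
      rw [mem_biUnion, mem_erase, hE, mem_filter]
      constructor
      · rintro ⟨b, hb, hx⟩
        rw [mem_ch] at hx
        refine ⟨hx.1, mem_univ _, ?_⟩
        rw [hparity x hx.1, hx.2]
        exact (hmemS b).1 hb
      · rintro ⟨h1, _, h2⟩
        exact ⟨par x, (hmemS _).2 ((hparity x h1).1 h2), mem_ch.2 ⟨h1, rfl⟩⟩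
    · intro b _ b' _ hbb
      rw [Function.onFun, disjoint_left]
      intro x hx hx'
      rw [mem_ch] at hx hx'
      exact hbb (hx.2.symm.trans hx'.2)
  have hE1 : 0 < E.card := card_pos.2 ⟨r, hrE⟩
  have htot : E.card + S.card = n + 1 := by
    rw [← hn, hE, hS, ← card_univ]
    exact card_filter_add_card_filter_not _
  have hsumdeg : ∑ b ∈ S, T.degree b = n := by
    rw [sum_congr rfl (fun b hb => hdeg b ((hmemS b).1 hb)), sum_add_distrib, hsumch, sum_const,
      smul_eq_mul, mul_one]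
    omega
  -- stars and leaves
  set K := univ.filter fun b => ¬ Even (d b) ∧ T.degree b ≠ 1 with hK
  set Λ := univ.filter fun b => ¬ Even (d b) ∧ T.degree b = 1 with hΛ
  have hKmem : ∀ b, b ∈ K ↔ ¬ Even (d b) ∧ T.degree b ≠ 1 := fun b => by
    rw [hK, mem_filter]
    simp
  have hΛmem : ∀ b, b ∈ Λ ↔ ¬ Even (d b) ∧ T.degree b = 1 := fun b => by
    rw [hΛ, mem_filter]
    simp
  have hKΛ : Disjoint K Λ := by
    rw [disjoint_left]
    intro b h1 h2
    exact ((hKmem b).1 h1).2 ((hΛmem b).1 h2).2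
  have hKS : K = S.filter fun b => T.degree b ≠ 1 := by
    ext b
    rw [hKmem, mem_filter, hmemS]
  have hΛS : Λ = S.filter fun b => ¬ T.degree b ≠ 1 := by
    ext b
    rw [hΛmem, mem_filter, hmemS, not_not]
  have hchne : ∀ b, ¬ Even (d b) → (ch r par b).Nonempty → b ∈ K := by
    intro b hb h
    rw [hKmem]
    refine ⟨hb, ?_⟩
    rw [hdeg b hb]
    have := card_pos.2 h
    omega
  have hsplit : ∑ b ∈ K, T.degree b + Λ.card = n := by
    rw [← hsumdeg, ← sum_filter_add_sum_filter_not S (fun b => T.degree b ≠ 1), ← hKS, ← hΛS]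
    congr 1
    rw [card_eq_sum_ones]
    apply sum_congr rfl
    intro b hb
    exact ((hΛmem b).1 hb).2.symm
  have hKr : ∀ b ∈ K, b ≠ r := fun b hb => hne b ((hKmem b).1 hb).1
  have hMK : ∀ b ∈ K, M b ∣ n ∧ T.degree b ≤ M b ∧
      (M b = T.degree b ∨ M b + 2 ≤ 2 * T.degree b) := fun b hb =>
    hM b ((hKmem b).1 hb).1 ((hKmem b).1 hb).2
  have hsumM : ∑ b ∈ K, M b = ∑ b ∈ K, T.degree b + ∑ b ∈ K, (M b - T.degree b) := by
    rw [← sum_add_distrib]
    apply sum_congr rfl
    intro b hb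
    have := (hMK b hb).2.1
    omega
  have hMn : ∑ b ∈ K, M b ≤ n := by omega
  obtain ⟨t, ht1, ht2⟩ := exists_blocks M K
  have hctx : Ctx r par d K Λ M t (fun b => M b - T.degree b) := by
    refine ⟨hd, fun b hb => ((hKmem b).1 hb).1, fun b hb => ((hΛmem b).1 hb).1, ?_, hKΛ, ?_, ?_, ?_⟩
    · intro b hb
      by_cases h : T.degree b = 1
      · exact Or.inr ((hΛmem b).2 ⟨hb, h⟩)
      · exact Or.inl ((hKmem b).2 ⟨hb, h⟩)
    · intro u hu
      have h1 := (hΛmem u).1 hu
      have h2 := hdeg u h1.1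
      rw [← card_eq_zero]
      omega
    · intro b hb
      have h1 := hdeg b ((hKmem b).1 hb).1
      have h2 := (hMK b hb).2.1
      omega
    · intro b hb
      have h1 := hMK b hb
      omega
  have hb0odd : ¬ Even (d b0) := by
    rw [hd b0 hb0, hb0r, h0]
    decide
  have hb0K : b0 ∈ K := (hKmem b0).2 ⟨hb0odd, hb0d⟩
  obtain ⟨f, L, hf, hL, hLd⟩ := process hctx _ (univ.erase r) rfl (fun x hx => (mem_erase.1 hx).1)
    (fun x _ c hc => mem_erase.2 ⟨(mem_ch.1 hc).1, mem_univ _⟩) (by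
      intro x hx hx'
      have h1 : par x = r := by
        by_contra h
        exact hx' (mem_erase.2 ⟨h, mem_univ _⟩)
      rw [hd x (mem_erase.1 hx).1, h1, h0]
      decide) ∅ (by simp) (by
      rw [sum_wt]
      have h1 : Λ ∩ univ.erase r = Λ := by
        rw [inter_eq_left]
        intro u hu
        exact mem_erase.2 ⟨hne u ((hΛmem u).1 hu).1, mem_univ _⟩
      have h2 : K ∩ univ.erase r = K := by
        rw [inter_eq_left]
        intro u hu
        exact mem_erase.2 ⟨hKr u hu, mem_univ _⟩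
      rw [h1, h2, card_empty]
      have h3 : ∑ b ∈ K, ((M b - T.degree b : ℕ) : ℤ) ≤ (Λ.card : ℤ) := by exact_mod_cast hsum
      push_cast at h3 ⊢
      linarith) (fun _ => t b0)
  have hLK : ∀ b ∈ K, L b ⊆ Λ ∧ (L b).card = M b - T.degree b ∧
      StarC r par (M b) (t b) (L b) f b := by
    intro b hb
    obtain ⟨h1, h2, h3⟩ := hL b hb (mem_erase.2 ⟨hKr b hb, mem_univ _⟩)
    refine ⟨?_, h2, h3⟩
    rw [empty_union] at h1
    exact h1.trans inter_subset_left
  have hfr : f r = t b0 := hf r (by simp)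
  -- block of a vertex of even distance
  have hevb : ∀ a, Even (d a) → a ≠ r → par a ∈ K ∧ a ∈ ch r par (par a) := by
    intro a ha h
    have h1 := hparity a h
    refine ⟨hchne _ (by tauto) ⟨a, mem_ch.2 ⟨h, rfl⟩⟩, mem_ch.2 ⟨h, rfl⟩⟩
  have hblock : ∀ b ∈ K, ∀ y ∈ ch r par b, t b ≤ f y ∧ f y < t b + M b := fun b hb =>
    (hLK b hb).2.2.1
  have hMpos : ∀ b ∈ K, 0 < M b := by
    intro b hb
    have h1 := hdeg b ((hKmem b).1 hb).1
    have h2 := (hMK b hb).2.1
    omega
  have hroot : ∀ a, Even (d a) → a ≠ r → f a ≠ f r := by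
    intro a ha h1 h2
    obtain ⟨h3, h4⟩ := hevb a ha h1
    by_cases h5 : par a = b0
    · have h6 := (hLK b0 hb0K).2.2.2.2.1 a (h5 ▸ h4)
      apply h6
      rw [hb0r, h2]
    · have h6 := hblock _ h3 a h4
      rw [h2, hfr] at h6
      have h7 := ht2 _ h3 b0 hb0K h5
      have h8 := hMpos b0 hb0K
      omega
  refine decomposes_starsC hn0 T r par d hn hpar hedge hA hrE' K Λ
    (fun b hb => ((hKmem b).1 hb).1) (fun b hb => ((hΛmem b).1 hb).1) hctx.hcov hKΛ M t
    (fun b hb => (hMK b hb).1) L (fun b hb => (hLK b hb).1) ?_ ?_ f ?_ ?_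
    (fun b hb => (hLK b hb).2.2)
  · intro b hb b' hb' hbb
    exact hLd b hb (mem_erase.2 ⟨hKr b hb, mem_univ _⟩) b' hb'
      (mem_erase.2 ⟨hKr b' hb', mem_univ _⟩) hbb
  · rw [sum_congr rfl (fun b hb => (hLK b hb).2.1)]
    omega
  · intro a ha
    by_cases h : a = r
    · rw [h, hfr]
      have h1 := ht1 b0 hb0K
      have h2 := hMpos b0 hb0K
      omega
    · obtain ⟨h3, h4⟩ := hevb a ha h
      have h5 := hblock _ h3 a h4
      have h6 := ht1 _ h3
      omega
  · intro a a' ha ha' haa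
    by_cases h : a = r <;> by_cases h' : a' = r
    · rw [h, h']
    · rw [h] at haa
      exact absurd haa.symm (hroot a' ha' h')
    · rw [h'] at haa
      exact absurd haa (hroot a ha h)
    · obtain ⟨h3, h4⟩ := hevb a ha h
      obtain ⟨h3', h4'⟩ := hevb a' ha' h'
      by_cases h5 : par a = par a'
      · rw [← h5] at h4'
        exact (hLK _ h3).2.2.2.1 h4 h4' haa
      · exfalso
        have h6 := hblock _ h3 a h4
        have h7 := hblock _ h3' a' h4'
        have h8 := ht2 _ h3 _ h3' h5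
        omega

/-- The general criterion: one colour class, moduli `M b` dividing `n`. -/
theorem general (V : Type) [Fintype V] [DecidableEq V] (T : SimpleGraph V) [DecidableRel T.Adj]
    (n : ℕ) (B : Finset V) (M : V → ℕ) (hT : T.IsTree)
    (hn : Fintype.card V = n + 1) (hB : ∀ u w, T.Adj u w → (u ∈ B ↔ w ∉ B))
    (hM : ∀ b ∈ B, T.degree b ≠ 1 → M b ∣ n ∧ T.degree b ≤ M b ∧
      (M b = T.degree b ∨ M b + 2 ≤ 2 * T.degree b))
    (hsum : ∑ b ∈ B.filter (fun b => T.degree b ≠ 1), (M b - T.degree b) ≤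
      (B.filter fun b => T.degree b = 1).card) :
    Decomposes T (completeBipartiteGraph (Fin n) (Fin n)) := by
  classical
  rcases Nat.eq_zero_or_pos n with h0 | h0
  · subst h0
    exact ⟨0, fun i => i.elim0, fun i => i.elim0, fun i => i.elim0, fun x => by
      rcases x with x | x <;> exact x.elim0⟩
  by_cases hcore : ∀ b ∈ B, T.degree b = 1
  · apply divisor_degrees V T n B hT hn hB
    intro b hb
    rw [hcore b hb]
    exact one_dvd _
  push Not at hcore
  obtain ⟨b0, hb0, hb0d⟩ := hcore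
  have h1 := degree_pos T n hT hn h0 b0
  rw [← SimpleGraph.card_neighborFinset_eq_degree, card_pos] at h1
  obtain ⟨r, hr⟩ := h1
  rw [SimpleGraph.mem_neighborFinset] at hr
  have hrB : r ∉ B := (hB b0 r hr).1 hb0
  obtain ⟨par, hpar, hedge⟩ := exists_par T hT r
  have hdist : ∀ y, y ∈ B ↔ ¬ Even (T.dist r y) := fun y => by
    have := even_dist_iff T hT B hB r hrB _ y rfl
    tauto
  have hb0r : b0 ≠ r := hr.ne
  have hparb0 : par b0 = r := by
    rcases hedge b0 r hr with ⟨_, h2⟩ | ⟨h2, _⟩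
    · exact h2
    · exact absurd rfl h2
  have e1 : (univ.filter fun b => ¬ Even (T.dist r b) ∧ T.degree b ≠ 1) =
      B.filter (fun b => T.degree b ≠ 1) := by
    ext b
    rw [mem_filter, mem_filter, hdist]
    simp
  have e2 : (univ.filter fun b => ¬ Even (T.dist r b) ∧ T.degree b = 1) =
      B.filter (fun b => T.degree b = 1) := by
    ext b
    rw [mem_filter, mem_filter, hdist]
    simp
  refine general_rooted h0 T r par (fun y => T.dist r y) SimpleGraph.dist_self hn hpar hedge M b0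
    hb0r hparb0 hb0d (fun b hb => hM b ((hdist b).2 hb)) ?_
  rw [e1, e2]
  exact hsum

/-- The criterion for the larger colour class. -/
theorem larger_class (V : Type) [Fintype V] [DecidableEq V] (T : SimpleGraph V)
    [DecidableRel T.Adj] (n : ℕ) (B : Finset V) (hT : T.IsTree)
    (hn : Fintype.card V = n + 1) (hB : ∀ u w, T.Adj u w → (u ∈ B ↔ w ∉ B))
    (hlarge : n + 1 ≤ 2 * B.card)
    (hM : ∀ b ∈ B, 2 ≤ T.degree b → ∃ M, M ∣ n ∧ T.degree b ≤ M ∧ M + 2 ≤ 2 * T.degree b) :
    Decomposes T (completeBipartiteGraph (Fin n) (Fin n)) := by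
  classical
  rcases Nat.eq_zero_or_pos n with h0 | h0
  · subst h0
    exact ⟨0, fun i => i.elim0, fun i => i.elim0, fun i => i.elim0, fun x => by
      rcases x with x | x <;> exact x.elim0⟩
  have hposdeg : ∀ v, 0 < T.degree v := degree_pos T n hT hn h0
  have hch : ∀ b, ∃ M, b ∈ B → 2 ≤ T.degree b → M ∣ n ∧ T.degree b ≤ M ∧
      M + 2 ≤ 2 * T.degree b := by
    intro b
    by_cases h1 : b ∈ B
    · by_cases h2 : 2 ≤ T.degree b
      · obtain ⟨M, hM⟩ := hM b h1 h2
        exact ⟨M, fun _ _ => hM⟩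
      · exact ⟨0, fun _ h => absurd h h2⟩
    · exact ⟨0, fun h => absurd h h1⟩
  choose M hM' using hch
  have hge : ∀ b ∈ B, T.degree b ≠ 1 → 2 ≤ T.degree b := by
    intro b _ h
    have := hposdeg b
    omega
  refine general V T n B M hT hn hB ?_ ?_
  · intro b hb h1
    obtain ⟨a1, a2, a3⟩ := hM' b hb (hge b hb h1)
    exact ⟨a1, a2, Or.inr a3⟩
  · have hbip : T.IsBipartiteWith (B : Set V) ((Bᶜ : Finset V) : Set V) := by
      refine ⟨?_, ?_⟩
      · rw [Finset.disjoint_coe]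
        exact disjoint_compl_right
      · intro v w hvw
        have := hB v w hvw
        simp only [mem_coe, mem_compl]
        tauto
    have hsum : ∑ b ∈ B, T.degree b = n := by
      rw [SimpleGraph.isBipartiteWith_sum_degrees_eq_card_edges hbip]
      have := hT.card_edgeFinset
      omega
    have h1 : ∑ b ∈ B.filter (fun b => T.degree b ≠ 1), (M b - T.degree b) +
        ∑ b ∈ B.filter (fun b => T.degree b ≠ 1), 2 ≤
        ∑ b ∈ B.filter (fun b => T.degree b ≠ 1), T.degree b := by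
      rw [← sum_add_distrib]
      apply sum_le_sum
      intro b hb
      rw [mem_filter] at hb
      obtain ⟨a1, a2, a3⟩ := hM' b hb.1 (hge b hb.1 hb.2)
      omega
    have h2 : ∑ b ∈ B.filter (fun b => ¬ T.degree b ≠ 1), T.degree b =
        (B.filter (fun b => T.degree b = 1)).card := by
      rw [card_eq_sum_ones]
      apply sum_congr
      · ext b
        rw [mem_filter, mem_filter, not_not]
      · intro b hb
        exact (mem_filter.1 hb).2
    have h3 := sum_filter_add_sum_filter_not B (fun b => T.degree b ≠ 1) (fun b => T.degree b)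
    rw [h2, hsum] at h3
    have h4 := card_filter_add_card_filter_not (s := B) (fun b => T.degree b ≠ 1)
    have h5 : (B.filter (fun b => ¬ T.degree b ≠ 1)).card =
        (B.filter (fun b => T.degree b = 1)).card := by
      congr 1
      ext b
      rw [mem_filter, mem_filter, not_not]
    rw [h5] at h4
    rw [sum_const, smul_eq_mul] at h1
    omega

/-- Every tree with `n` edges decomposes `K_{n,n}` when `n` is 2-dense. -/
theorem two_dense (V : Type) [Fintype V] (T : SimpleGraph V) (n : ℕ) (hT : T.IsTree)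
    (hn : Fintype.card V = n + 1)
    (hdense : ∀ D, D ∣ n → D < n → ∃ D', D' ∣ n ∧ D < D' ∧ D' ≤ 2 * D) :
    Decomposes T (completeBipartiteGraph (Fin n) (Fin n)) := by
  classical
  rcases Nat.eq_zero_or_pos n with h0 | h0
  · subst h0
    exact ⟨0, fun i => i.elim0, fun i => i.elim0, fun i => i.elim0, fun x => by
      rcases x with x | x <;> exact x.elim0⟩
  -- the divisors
  have hdiv : ∀ e, 2 ≤ e → e ≤ n → ∃ M, M ∣ n ∧ e ≤ M ∧ M + 2 ≤ 2 * e := by
    intro e he hen
    obtain ⟨D, hD, hmax⟩ := exists_max_image (n.divisors.filter (· < e)) id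
      ⟨1, by rw [mem_filter, Nat.mem_divisors]; exact ⟨⟨one_dvd _, h0.ne'⟩, by omega⟩⟩
    rw [mem_filter, Nat.mem_divisors] at hD
    obtain ⟨D', h1, h2, h3⟩ := hdense D hD.1.1 (by omega)
    refine ⟨D', h1, ?_, by omega⟩
    by_contra h4
    have h5 := hmax D' (by
      rw [mem_filter, Nat.mem_divisors]
      exact ⟨⟨h1, h0.ne'⟩, by omega⟩)
    simp only [id] at h5
    omega
  -- the two classes
  obtain ⟨x⟩ := hT.connected.nonempty
  obtain ⟨par, hpar, hedge⟩ := exists_par T hT x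
  set B := univ.filter fun y : V => ¬ Even (T.dist x y) with hBdef
  have hparity : ∀ y, y ≠ x → (y ∈ B ↔ par y ∉ B) := by
    intro y hy
    simp only [hBdef, mem_filter, mem_univ, true_and]
    rw [(hpar y hy).2, Nat.even_add_one]
  have hB : ∀ u w, T.Adj u w → (u ∈ B ↔ w ∉ B) := by
    intro u w huw
    rcases hedge u w huw with ⟨h1, h2⟩ | ⟨h1, h2⟩
    · rw [← h2]
      exact hparity u h1
    · rw [← h2]
      have := hparity w h1
      tauto
  have hBc : ∀ u w, T.Adj u w → (u ∈ Bᶜ ↔ w ∉ Bᶜ) := by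
    intro u w huw
    rw [mem_compl, mem_compl]
    have := hB u w huw
    tauto
  have hdeg : ∀ v, T.degree v ≤ n := by
    intro v
    have := T.degree_lt_card_verts v
    omega
  have htot := card_compl_add_card B
  by_cases hc : n + 1 ≤ 2 * B.card
  · exact larger_class V T n B hT hn hB hc (fun b _ h => hdiv _ h (hdeg b))
  · exact larger_class V T n Bᶜ hT hn hBc (by omega) (fun b _ h => hdiv _ h (hdeg b))

/-- Examples of 2-dense integers: `2 ^ k * q` with `q ≤ 2 ^ (k + 1)`. -/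
lemma dense_two_pow_mul (k q : ℕ) (hq : 1 ≤ q) (hqk : q ≤ 2 ^ (k + 1)) :
    ∀ D, D ∣ 2 ^ k * q → D < 2 ^ k * q → ∃ D', D' ∣ 2 ^ k * q ∧ D < D' ∧ D' ≤ 2 * D := by
  intro D hD hDn
  have hn0 : 0 < 2 ^ k * q := by positivity
  have hD0 : 0 < D := Nat.pos_of_dvd_of_pos hD hn0
  by_cases h : 2 * D ∣ 2 ^ k * q
  · exact ⟨2 * D, h, by omega, le_rfl⟩
  -- `2 ^ k` divides `D`
  have h2k : 2 ^ k ∣ D := by
    obtain ⟨c, hc⟩ := hD
    have hc2 : ¬ 2 ∣ c := by
      rintro ⟨c', rfl⟩
      apply h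
      exact ⟨c', by rw [hc]; ring⟩
    have h1 : 2 ^ k ∣ D * c := by
      rw [← hc]
      exact dvd_mul_right _ _
    have h2 : Nat.Coprime (2 ^ k) c :=
      Nat.Coprime.pow_left k ((Nat.Prime.coprime_iff_not_dvd Nat.prime_two).2 hc2)
    exact h2.dvd_of_dvd_mul_right h1
  have hle : 2 ^ k ≤ D := Nat.le_of_dvd hD0 h2k
  have hex : ∃ i, D < 2 ^ i * q := ⟨k, hDn⟩
  classical
  obtain ⟨i, hi, hmin⟩ : ∃ i, D < 2 ^ i * q ∧ ∀ i' < i, ¬ D < 2 ^ i' * q :=
    ⟨Nat.find hex, Nat.find_spec hex, fun i' hi' => Nat.find_min hex hi'⟩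
  have hik : i ≤ k := by
    by_contra h1
    exact hmin k (by omega) hDn
  refine ⟨2 ^ i * q, mul_dvd_mul_right (pow_dvd_pow 2 hik) q, hi, ?_⟩
  rcases Nat.eq_zero_or_pos i with h1 | h1
  · rw [h1, pow_zero, one_mul]
    rw [pow_succ] at hqk
    omega
  · have h3 := hmin (i - 1) (by omega)
    have h4 : 2 ^ i * q = 2 * (2 ^ (i - 1) * q) := by
      rw [← mul_assoc, ← pow_succ']
      congr 2
      omega
    rw [h4]
    omega

end Pool.Agent.Helper80.GH
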