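import Pool.Agent.Helper80.GH.Div

/-!
# Descendants in a rooted tree
-/

namespace Pool.Agent.Helper80.GH

open Finset

variable {V : Type} [Fintype V] [DecidableEq V]

/-- `x` is a descendant of `v`. -/
def Desc (r : V) (par : V → V) : V → V → Prop :=
  Relation.ReflTransGen fun a c => c ≠ r ∧ par c = a

open Classical in
/-- The set of the descendants of `v` (including `v`). -/
noncomputable def de (r : V) (par : V → V) (v : V) : Finset V := univ.filter fun x => Desc r par v x

lemma mem_de {r : V} {par : V → V} {v x : V} : x ∈ de r par v ↔ Desc r par v x := by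
  simp [de]

lemma self_mem_de (r : V) (par : V → V) (v : V) : v ∈ de r par v :=
  mem_de.2 Relation.ReflTransGen.refl

lemma ch_mem_de {r : V} {par : V → V} {v x c : V} (hx : x ∈ de r par v) (hc : c ∈ ch r par x) :
    c ∈ de r par v := by
  rw [mem_de] at hx ⊢
  exact hx.tail (mem_ch.1 hc)

lemma par_mem_de {r : V} {par : V → V} {v x : V} (hx : x ∈ de r par v) (hne : x ≠ v) :
    x ≠ r ∧ par x ∈ de r par v := by
  rw [mem_de] at hx
  rcases hx.cases_tail with h | ⟨a, ha, h1, h2⟩
  · exact absurd h hne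
  · rw [h2]
    exact ⟨h1, mem_de.2 ha⟩

lemma de_cases {r : V} {par : V → V} {v x : V} (hx : x ∈ de r par v) :
    x = v ∨ ∃ c ∈ ch r par v, x ∈ de r par c := by
  rw [mem_de] at hx
  rcases hx.cases_head with h | ⟨c, hc, h⟩
  · exact Or.inl h.symm
  · exact Or.inr ⟨c, mem_ch.2 hc, mem_de.2 h⟩

lemma de_trans {r : V} {par : V → V} {u v x : V} (hv : v ∈ de r par u) (hx : x ∈ de r par v) :
    x ∈ de r par u := by
  rw [mem_de] at *
  exact hv.trans hx

lemma de_sub {r : V} {par : V → V} {v c : V} (hc : c ∈ ch r par v) : de r par c ⊆ de r par v :=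
  fun _ hx => de_trans (ch_mem_de (self_mem_de r par v) hc) hx

lemma depth_le {r : V} {par : V → V} {d : V → ℕ} (hd : ∀ x, x ≠ r → d x = d (par x) + 1)
    {v x : V} (hx : x ∈ de r par v) : d v ≤ d x := by
  rw [mem_de] at hx
  induction hx with
  | refl => exact le_rfl
  | tail _ h ih =>
    have h1 := hd _ h.1
    rw [h.2] at h1
    omega

lemma de_comparable {r : V} {par : V → V} {a b x : V} (ha : x ∈ de r par a)
    (hb : x ∈ de r par b) : a ∈ de r par b ∨ b ∈ de r par a := by
  rw [mem_de] at ha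
  induction ha with
  | refl => exact Or.inl hb
  | @tail c x hac h ih =>
    by_cases hx : x = b
    · right
      rw [← hx]
      exact mem_de.2 (hac.tail h)
    · have h1 := (par_mem_de hb hx).2
      rw [h.2] at h1
      exact ih h1

lemma de_eq_of_depth {r : V} {par : V → V} {d : V → ℕ} (hd : ∀ x, x ≠ r → d x = d (par x) + 1)
    {a b : V} (h : a ∈ de r par b) (hab : d a = d b) : a = b := by
  by_contra hne
  have h1 := par_mem_de h hne
  have h2 := depth_le hd h1.2
  have h3 := hd a h1.1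
  omega

lemma de_disjoint {r : V} {par : V → V} {d : V → ℕ} (hd : ∀ x, x ≠ r → d x = d (par x) + 1)
    {a b : V} (hne : a ≠ b) (hab : d a = d b) : Disjoint (de r par a) (de r par b) := by
  rw [disjoint_left]
  intro x hx hx'
  rcases de_comparable hx hx' with h | h
  · exact hne (de_eq_of_depth hd h hab)
  · exact hne (de_eq_of_depth hd h hab.symm).symm

lemma ch_depth {r : V} {par : V → V} {d : V → ℕ} (hd : ∀ x, x ≠ r → d x = d (par x) + 1)
    {v c : V} (hc : c ∈ ch r par v) : d c = d v + 1 := by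
  rw [mem_ch] at hc
  have := hd c hc.1
  rw [hc.2] at this
  exact this

lemma notMem_de_ch {r : V} {par : V → V} {d : V → ℕ} (hd : ∀ x, x ≠ r → d x = d (par x) + 1)
    {v c : V} (hc : c ∈ ch r par v) : v ∉ de r par c := by
  intro h
  have h1 := depth_le hd h
  have h2 := ch_depth hd hc
  omega

lemma de_eq {r : V} {par : V → V} (v : V) :
    de r par v = insert v ((ch r par v).biUnion (de r par)) := by
  ext x
  rw [mem_insert, mem_biUnion]
  constructor
  · intro h
    exact de_cases h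
  · rintro (h | ⟨c, hc, h⟩)
    · rw [h]
      exact self_mem_de r par v
    · exact de_sub hc h

lemma sum_de_siblings {r : V} {par : V → V} {d : V → ℕ}
    (hd : ∀ x, x ≠ r → d x = d (par x) + 1) (w : V → ℤ) (v : V) (I : Finset V)
    (hI : I ⊆ ch r par v) :
    ∑ x ∈ I.biUnion (de r par), w x = ∑ c ∈ I, ∑ x ∈ de r par c, w x := by
  apply sum_biUnion
  intro a ha b hb hab
  apply de_disjoint hd hab
  rw [ch_depth hd (hI ha), ch_depth hd (hI hb)]

lemma sum_de {r : V} {par : V → V} {d : V → ℕ} (hd : ∀ x, x ≠ r → d x = d (par x) + 1)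
    (w : V → ℤ) (v : V) :
    ∑ x ∈ de r par v, w x = w v + ∑ c ∈ ch r par v, ∑ x ∈ de r par c, w x := by
  rw [de_eq, sum_insert, sum_de_siblings hd w v _ (Subset.refl _)]
  intro h
  obtain ⟨c, hc, h1⟩ := mem_biUnion.1 h
  exact notMem_de_ch hd hc h1

/-- A closed set is closed under descendants. -/
lemma de_sub_closed {r : V} {par : V → V} {R : Finset V}
    (hcl : ∀ x ∈ R, ∀ c ∈ ch r par x, c ∈ R) {v : V} (hv : v ∈ R) : de r par v ⊆ R := by
  intro x hx
  rw [mem_de] at hx
  induction hx with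
  | refl => exact hv
  | tail _ h ih => exact hcl _ ih _ (mem_ch.2 h)

/-- A top of a closed set with enough weight. -/
lemma exists_top {r : V} {par : V → V} {d : V → ℕ} (hd : ∀ x, x ≠ r → d x = d (par x) + 1)
    (R : Finset V) (hR : R.Nonempty) (hRr : ∀ x ∈ R, x ≠ r)
    (hcl : ∀ x ∈ R, ∀ c ∈ ch r par x, c ∈ R) (w : V → ℤ) (q : ℤ) (hq : 0 ≤ q)
    (h : 0 ≤ q + ∑ x ∈ R, w x) :
    ∃ x ∈ R, par x ∉ R ∧ 0 ≤ q + ∑ y ∈ de r par x, w y := by
  classical
  set Tp := R.filter fun x => par x ∉ R with hTp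
  have hcov : ∀ (k : ℕ) (x : V), x ∈ R → d x = k → ∃ a ∈ Tp, x ∈ de r par a := by
    intro k
    induction k with
    | zero =>
      intro x hx hk
      have := hd x (hRr x hx)
      omega
    | succ k ih =>
      intro x hx hk
      by_cases h1 : par x ∈ R
      · have h2 := hd x (hRr x hx)
        obtain ⟨a, ha, h3⟩ := ih (par x) h1 (by omega)
        exact ⟨a, ha, ch_mem_de h3 (mem_ch.2 ⟨hRr x hx, rfl⟩)⟩
      · exact ⟨x, mem_filter.2 ⟨hx, h1⟩, self_mem_de r par x⟩
  have hReq : R = Tp.biUnion (de r par) := by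
    ext x
    rw [mem_biUnion]
    constructor
    · intro hx
      exact hcov _ x hx rfl
    · rintro ⟨a, ha, hx⟩
      exact de_sub_closed hcl (mem_filter.1 ha).1 hx
  have hsum : ∑ x ∈ R, w x = ∑ a ∈ Tp, ∑ x ∈ de r par a, w x := by
    conv_lhs => rw [hReq]
    apply sum_biUnion
    intro a ha b hb hab
    rw [Function.onFun, disjoint_left]
    intro x hx hx'
    have ha' := mem_filter.1 ha
    have hb' := mem_filter.1 hb
    rcases de_comparable hx hx' with h1 | h1
    · exact ha'.2 (de_sub_closed hcl hb'.1 (par_mem_de h1 hab).2)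
    · exact hb'.2 (de_sub_closed hcl ha'.1 (par_mem_de h1 (Ne.symm hab)).2)
  by_contra hno
  push Not at hno
  obtain ⟨x, hx⟩ := hR
  obtain ⟨a, ha, _⟩ := hcov _ x hx rfl
  have hneg : ∀ b ∈ Tp, q + ∑ y ∈ de r par b, w y < 0 := by
    intro b hb
    have hb' := mem_filter.1 hb
    exact hno b hb'.1 hb'.2
  have h1 : ∑ b ∈ Tp.erase a, ∑ x ∈ de r par b, w x ≤ 0 := by
    apply sum_nonpos
    intro b hb
    have := hneg b (mem_of_mem_erase hb)
    linarith
  have h2 := add_sum_erase Tp (fun b => ∑ x ∈ de r par b, w x) ha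
  have h3 := hneg a ha
  rw [hsum] at h
  linarith

/-- Selection of few children with enough weight. -/
lemma exists_early (C : Finset V) (ν : V → ℤ) (q : ℤ) (m : ℕ) (hq : 0 ≤ q)
    (h : (m : ℤ) ≤ q + ∑ y ∈ C, ν y) :
    ∃ I ⊆ C, I.card ≤ m ∧ (m : ℤ) ≤ q + ∑ y ∈ I, ν y := by
  classical
  set P := C.filter fun y => 1 ≤ ν y with hP
  have h1 : ∑ y ∈ C, ν y ≤ ∑ y ∈ P, ν y := by
    rw [hP, ← sum_filter_add_sum_filter_not C (fun y => 1 ≤ ν y)]
    have : ∑ y ∈ C.filter (fun y => ¬ 1 ≤ ν y), ν y ≤ 0 := by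
      apply sum_nonpos
      intro y hy
      have := (mem_filter.1 hy).2
      omega
    linarith
  by_cases hc : P.card ≤ m
  · exact ⟨P, filter_subset _ _, hc, by linarith⟩
  · obtain ⟨I, hI, hIc⟩ := exists_subset_card_eq (s := P) (n := m) (by omega)
    refine ⟨I, hI.trans (filter_subset _ _), hIc.le, ?_⟩
    have h2 : (m : ℤ) ≤ ∑ y ∈ I, ν y := by
      rw [← hIc, card_eq_sum_ones]
      push_cast
      apply sum_le_sum
      intro y hy
      exact (mem_filter.1 (hI hy)).2
    linarith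

end Pool.Agent.Helper80.GH
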