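import Pool.Agent.Helper80.GH.Cells

/-!
# Labellings with complete residue systems at the vertices of one class
-/

namespace Pool.Agent.Helper80.GH

open Finset Pool.Agent.Helper19.GH

variable {V : Type} [Fintype V] [DecidableEq V]

/-- The children of a vertex of a rooted tree. -/
def ch (r : V) (par : V → V) (b : V) : Finset V := univ.filter fun x => x ≠ r ∧ par x = b

lemma mem_ch {r : V} {par : V → V} {b x : V} : x ∈ ch r par b ↔ x ≠ r ∧ par x = b := by
  simp [ch]

/-- Greedy labelling. -/
lemma label (r : V) (par : V → V) (d : V → ℕ) (h0 : d r = 0)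
    (hd : ∀ x, x ≠ r → d x = d (par x) + 1) :
    ∀ (m : ℕ) (S : Finset V), S.card = m → (∀ b ∈ S, b ≠ r) → (∀ b ∈ S, par b ≠ r →
      par (par b) ∈ S) →
    ∃ f : V → ℕ, (∀ x ∈ insert r (S.biUnion (ch r par)),
        f x < 1 + ∑ b ∈ S, 2 * (ch r par b).card) ∧
      Set.InjOn f (insert r (S.biUnion (ch r par)) : Finset V) ∧
      ∀ b ∈ S, ∀ x ∈ insert (par b) (ch r par b), ∀ y ∈ insert (par b) (ch r par b),
        f x ≡ f y [MOD ((ch r par b).card + 1)] → x = y := by
  intro m
  induction m with
  | zero =>
    intro S hS _ _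
    rw [card_eq_zero] at hS
    subst hS
    refine ⟨fun _ => 0, ?_, ?_, ?_⟩
    · intro x _
      simp
    · intro x hx y hy _
      simp only [biUnion_empty, insert_empty_eq, coe_singleton, Set.mem_singleton_iff] at hx hy
      rw [hx, hy]
    · intro b hb
      exact absurd hb (notMem_empty b)
  | succ m ih =>
    intro S hS hSr hcl
    have hne : S.Nonempty := by
      rw [← card_pos]
      omega
    obtain ⟨b, hb, hmax⟩ := exists_max_image S d hne
    set S' := S.erase b with hS'
    have hcard : S'.card = m := by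
      rw [hS', card_erase_of_mem hb]
      omega
    -- grandparents
    have hgp : ∀ b' ∈ S, par b' ≠ r → par (par b') ∈ S' := by
      intro b' hb' h1
      rw [hS', mem_erase]
      refine ⟨?_, hcl b' hb' h1⟩
      intro h2
      have h3 := hd b' (hSr b' hb')
      have h4 := hd (par b') h1
      rw [h2] at h4
      have h5 := hmax b' hb'
      omega
    obtain ⟨f', hf1, hf2, hf3⟩ := ih S' hcard (fun b' hb' => hSr b' (mem_of_mem_erase hb'))
      (fun b' hb' h1 => hgp b' (mem_of_mem_erase hb') h1)
    have hparmem : ∀ b' ∈ S, par b' ∈ insert r (S'.biUnion (ch r par)) := by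
      intro b' hb'
      by_cases h1 : par b' = r
      · rw [h1]
        exact mem_insert_self _ _
      · apply mem_insert_of_mem
        rw [mem_biUnion]
        exact ⟨par (par b'), hgp b' hb' h1, mem_ch.2 ⟨h1, rfl⟩⟩
    set K := 1 + ∑ b ∈ S', 2 * (ch r par b).card with hK
    set c := (ch r par b).card with hc
    set j := K + (f' (par b) + 1 + c * K) % (c + 1) with hj
    have hj1 : K ≤ j := Nat.le_add_right _ _
    have hj2 : j ≤ K + c := by
      rw [hj]
      exact Nat.add_le_add_left (Nat.lt_succ_iff.1 (Nat.mod_lt _ (Nat.succ_pos c))) _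
    have hj3 : j ≡ f' (par b) + 1 [MOD (c + 1)] := by
      have h1 : K + (f' (par b) + 1 + c * K) % (c + 1) ≡ K + (f' (par b) + 1 + c * K)
          [MOD (c + 1)] := (Nat.ModEq.refl K).add (Nat.mod_modEq _ _)
      have h2 : K + (f' (par b) + 1 + c * K) = (f' (par b) + 1) + (c + 1) * K := by ring
      rw [h2] at h1
      have h3 : (f' (par b) + 1) + (c + 1) * K ≡ (f' (par b) + 1) + 0 [MOD (c + 1)] :=
        (Nat.ModEq.refl _).add ((Nat.modEq_zero_iff_dvd).2 (Dvd.intro _ rfl))
      exact h1.trans (by simpa using h3)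
    have hnotin : ∀ x ∈ ch r par b, x ∉ insert r (S'.biUnion (ch r par)) := by
      intro x hx h1
      rw [mem_ch] at hx
      rcases mem_insert.1 h1 with h2 | h2
      · exact hx.1 h2
      · obtain ⟨b', hb', h3⟩ := mem_biUnion.1 h2
        rw [mem_ch] at h3
        rw [hx.2] at h3
        rw [← h3.2, hS', mem_erase] at hb'
        exact hb'.1 rfl
    let e := (ch r par b).equivFin
    let f : V → ℕ := fun x => if h : x ∈ ch r par b then j + (e ⟨x, h⟩ : ℕ) else f' x
    have hfin : ∀ x (h : x ∈ ch r par b), f x = j + (e ⟨x, h⟩ : ℕ) := fun x h => dif_pos h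
    have hfout : ∀ x, x ∉ ch r par b → f x = f' x := fun x h => dif_neg h
    have hfout' : ∀ x ∈ insert r (S'.biUnion (ch r par)), f x = f' x := fun x h =>
      hfout x (fun h' => hnotin x h' h)
    have helt : ∀ x (h : x ∈ ch r par b), (e ⟨x, h⟩ : ℕ) < c := fun x h => (e ⟨x, h⟩).2
    have hsum : ∑ b ∈ S, 2 * (ch r par b).card = ∑ b ∈ S', 2 * (ch r par b).card + 2 * c := by
      rw [hS', sum_erase_add _ _ hb]
    have hcases : ∀ x ∈ insert r (S.biUnion (ch r par)),
        x ∈ ch r par b ∨ x ∈ insert r (S'.biUnion (ch r par)) := by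
      intro x hx
      rcases mem_insert.1 hx with h1 | h1
      · right
        rw [h1]
        exact mem_insert_self _ _
      · obtain ⟨b', hb', h2⟩ := mem_biUnion.1 h1
        by_cases h3 : b' = b
        · left
          rwa [h3] at h2
        · right
          exact mem_insert_of_mem (mem_biUnion.2 ⟨b', mem_erase.2 ⟨h3, hb'⟩, h2⟩)
    refine ⟨f, ?_, ?_, ?_⟩
    · intro x hx
      rw [hsum]
      rcases hcases x hx with h1 | h1
      · rw [hfin x h1]
        have := helt x h1
        omega
      · rw [hfout' x h1]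
        have := hf1 x h1
        omega
    · intro x hx y hy hxy
      rcases hcases x hx with h1 | h1 <;> rcases hcases y hy with h2 | h2
      · rw [hfin x h1, hfin y h2] at hxy
        have h3 : e ⟨x, h1⟩ = e ⟨y, h2⟩ := Fin.ext (by omega)
        exact congrArg Subtype.val (e.injective h3)
      · rw [hfin x h1, hfout' y h2] at hxy
        have := hf1 y h2
        omega
      · rw [hfin y h2, hfout' x h1] at hxy
        have := hf1 x h1
        omega
      · rw [hfout' x h1, hfout' y h2] at hxy
        exact hf2 h1 h2 hxy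
    · intro b' hb'
      by_cases h1 : b' = b
      · subst h1
        have hz : f (par b') = f' (par b') := hfout' _ (hparmem b' hb)
        have key : ∀ x (h : x ∈ ch r par b'), f x ≡ f' (par b') + 1 + (e ⟨x, h⟩ : ℕ)
            [MOD (c + 1)] := by
          intro x h
          rw [hfin x h]
          exact hj3.add_right _
        have hlt : ∀ (u w : ℕ), u ≤ c → w ≤ c → f' (par b') + u ≡ f' (par b') + w [MOD (c + 1)] →
            u = w := by
          intro u w hu hw h
          have h2 := Nat.ModEq.add_left_cancel' _ h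
          exact Nat.ModEq.eq_of_lt_of_lt h2 (by omega) (by omega)
        intro x hx y hy hxy
        rcases mem_insert.1 hx with h1 | h1 <;> rcases mem_insert.1 hy with h2 | h2
        · rw [h1, h2]
        · exfalso
          rw [h1, hz] at hxy
          have h3 := hxy.trans (key y h2)
          have h4 := hlt 0 (1 + (e ⟨y, h2⟩ : ℕ)) (by omega) (by have := helt y h2; omega)
            (by rw [← add_assoc]; simpa using h3)
          omega
        · exfalso
          rw [h2, hz] at hxy
          have h3 := (key x h1).symm.trans hxy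
          have h4 := hlt (1 + (e ⟨x, h1⟩ : ℕ)) 0 (by have := helt x h1; omega) (by omega)
            (by rw [← add_assoc]; simpa using h3)
          omega
        · have h3 := ((key x h1).symm.trans hxy).trans (key y h2)
          have h4 := hlt (1 + (e ⟨x, h1⟩ : ℕ)) (1 + (e ⟨y, h2⟩ : ℕ))
            (by have := helt x h1; omega) (by have := helt y h2; omega)
            (by rw [← add_assoc, ← add_assoc]; exact h3)
          have h5 : e ⟨x, h1⟩ = e ⟨y, h2⟩ := Fin.ext (by omega)
          exact congrArg Subtype.val (e.injective h5)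
      · have hb'S : b' ∈ S' := mem_erase.2 ⟨h1, hb'⟩
        have hN : ∀ x ∈ insert (par b') (ch r par b'), f x = f' x := by
          intro x hx
          rcases mem_insert.1 hx with h2 | h2
          · rw [h2]
            exact hfout' _ (hparmem b' hb')
          · exact hfout' _ (mem_insert_of_mem (mem_biUnion.2 ⟨b', hb'S, h2⟩))
        intro x hx y hy hxy
        rw [hN x hx, hN y hy] at hxy
        exact hf3 b' hb'S x hx y hy hxy

/-- The neighbours of a vertex of a rooted tree. -/
lemma neighborFinset_eq (T : SimpleGraph V) [DecidableRel T.Adj] (r : V) (par : V → V)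
    (hpar : ∀ x, x ≠ r → T.Adj x (par x))
    (hedge : ∀ u w, T.Adj u w → (u ≠ r ∧ par u = w) ∨ (w ≠ r ∧ par w = u)) (b : V) (hb : b ≠ r) :
    T.neighborFinset b = insert (par b) (ch r par b) := by
  ext x
  rw [SimpleGraph.mem_neighborFinset, mem_insert, mem_ch]
  constructor
  · intro h
    rcases hedge b x h with ⟨_, h2⟩ | ⟨h1, h2⟩
    · left
      exact h2.symm
    · right
      exact ⟨h1, h2⟩
  · rintro (h | ⟨h1, h2⟩)
    · rw [h]
      exact hpar b hb
    · rw [← h2]
      exact (hpar x h1).symm

lemma par_notMem_ch {r : V} {par : V → V} {d : V → ℕ} (hd : ∀ x, x ≠ r → d x = d (par x) + 1)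
    {b : V} (hb : b ≠ r) : par b ∉ ch r par b := by
  intro h
  rw [mem_ch] at h
  have h1 := hd b hb
  have h2 := hd (par b) h.1
  rw [h.2] at h2
  omega

/-- If the degrees of the vertices at odd distance from the root divide `n` and there are at least
as many vertices at odd distance as at even distance, then the tree decomposes `K_{n,n}`. -/
lemma decomposes_div {n : ℕ} (hn0 : 0 < n) (T : SimpleGraph V) (r : V) (par : V → V) (d : V → ℕ)
    (h0 : d r = 0) (hn : Fintype.card V = n + 1)
    (hpar : ∀ x, x ≠ r → T.Adj x (par x) ∧ d x = d (par x) + 1)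
    (hedge : ∀ u w, T.Adj u w → (u ≠ r ∧ par u = w) ∨ (w ≠ r ∧ par w = u))
    (hcard : (univ.filter fun x : V => Even (d x)).card ≤
      (univ.filter fun x : V => ¬ Even (d x)).card)
    (hdiv : ∀ b, ¬ Even (d b) → (ch r par b).card + 1 ∣ n) :
    Decomposes T (completeBipartiteGraph (Fin n) (Fin n)) := by
  classical
  have : NeZero n := ⟨hn0.ne'⟩
  have hd : ∀ x, x ≠ r → d x = d (par x) + 1 := fun x hx => (hpar x hx).2
  have hne : ∀ b, ¬ Even (d b) → b ≠ r := by
    rintro b hb rfl
    rw [h0] at hb
    exact hb (by decide)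
  have hparity : ∀ x, x ≠ r → (Even (d x) ↔ ¬ Even (d (par x))) := by
    intro x hx
    rw [hd x hx, Nat.even_add_one]
  set S := univ.filter fun x : V => ¬ Even (d x) with hS
  set E := univ.filter fun x : V => Even (d x) with hE
  have hmemS : ∀ b, b ∈ S ↔ ¬ Even (d b) := fun b => by simp [hS]
  have hrE : r ∈ E := by
    rw [hE, mem_filter]
    exact ⟨mem_univ _, by rw [h0]; decide⟩
  obtain ⟨f, hf1, hf2, hf3⟩ := label r par d h0 hd S.card S rfl
    (fun b hb => hne b ((hmemS b).1 hb)) (by
      intro b hb hb2
      rw [hmemS] at hb ⊢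
      have h1 := hparity b (hne b hb)
      have h2 := hparity (par b) hb2
      tauto)
  -- all vertices of even distance are labelled
  have hEsub : ∀ x, Even (d x) → x ∈ insert r (S.biUnion (ch r par)) := by
    intro x hx
    by_cases h1 : x = r
    · rw [h1]
      exact mem_insert_self _ _
    · apply mem_insert_of_mem
      rw [mem_biUnion]
      exact ⟨par x, (hmemS _).2 ((hparity x h1).1 hx), mem_ch.2 ⟨h1, rfl⟩⟩
  have hsumch : ∑ b ∈ S, (ch r par b).card = E.card - 1 := by
    rw [← card_erase_of_mem hrE]
    rw [← card_biUnion]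
    · congr 1
      ext x
      rw [mem_biUnion, mem_erase, hE, mem_filter]
      constructor
      · rintro ⟨b, hb, hx⟩
        rw [mem_ch] at hx
        refine ⟨hx.1, mem_univ _, ?_⟩
        rw [hparity x hx.1, hx.2]
        exact (hmemS b).1 hb
      · rintro ⟨h1, _, h2⟩
        exact ⟨par x, (hmemS _).2 ((hparity x h1).1 h2), mem_ch.2 ⟨h1, rfl⟩⟩
    · intro b _ b' _ hbb
      rw [Function.onFun, disjoint_left]
      intro x hx hx'
      rw [mem_ch] at hx hx'
      exact hbb (hx.2.symm.trans hx'.2)
  have hE1 : 0 < E.card := card_pos.2 ⟨r, hrE⟩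
  have htot : E.card + S.card = n + 1 := by
    rw [← hn, hE, hS, ← card_univ]
    exact card_filter_add_card_filter_not _
  have hflt : ∀ x, Even (d x) → f x < n := by
    intro x hx
    have h1 := hf1 x (hEsub x hx)
    rw [← mul_sum, hsumch] at h1
    omega
  have hcolcard : Fintype.card ((b : {b : V // ¬ Even (d b)}) × ZMod ((ch r par b.1).card + 1))
      = n := by
    rw [Fintype.card_sigma]
    have h1 : ∀ b : {b : V // ¬ Even (d b)}, Fintype.card (ZMod ((ch r par b.1).card + 1)) =
        (ch r par b.1).card + 1 := fun b => ZMod.card _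
    rw [sum_congr rfl (fun b _ => h1 b)]
    have h2 : ∑ b : {b : V // ¬ Even (d b)}, ((ch r par b.1).card + 1) =
        ∑ b ∈ S, ((ch r par b).card + 1) := by
      rw [hS]
      exact (sum_subtype (f := fun b => (ch r par b).card + 1) _ (by simp)).symm
    rw [h2, sum_add_distrib, hsumch, sum_const, smul_eq_mul, mul_one]
    omega
  have hnonempty : Nonempty ((b : {b : V // ¬ Even (d b)}) × ZMod ((ch r par b.1).card + 1)) := by
    rw [← Fintype.card_pos_iff, hcolcard]
    exact hn0
  refine decomposes_of_cells (I := ZMod n) (R := ZMod n)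
    (C := (b : {b : V // ¬ Even (d b)}) × ZMod ((ch r par b.1).card + 1)) T r par hn
    (fun x hx => (hpar x hx).1) (fun x => Even (d x)) ?_ (ZMod.card n) (ZMod.card n) hcolcard
    (fun k x => k + (f x : ZMod n))
    (fun k x => if h : ¬ Even (d x) then ⟨⟨x, h⟩, (k.cast : ZMod ((ch r par x).card + 1))⟩
      else Classical.choice hnonempty) ?_ ?_ ?_ hedge
  · intro u w huw
    rcases hedge u w huw with ⟨h1, h2⟩ | ⟨h1, h2⟩
    · rw [← h2]
      exact hparity u h1
    · rw [← h2]
      have := hparity w h1
      tauto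
  · intro k a a' ha ha' h
    have h1 : (f a : ZMod n) = (f a' : ZMod n) := add_left_cancel h
    rw [ZMod.natCast_eq_natCast_iff] at h1
    have h2 := Nat.ModEq.eq_of_lt_of_lt h1 (hflt a ha) (hflt a' ha')
    exact hf2 (hEsub a ha) (hEsub a' ha') h2
  · intro k b b' hb hb' h
    simp only [hb, hb', not_false_eq_true, dif_pos] at h
    rw [Sigma.mk.injEq] at h
    exact congrArg Subtype.val h.1
  · rintro s ⟨⟨b, hb⟩, j⟩
    have hδn : (ch r par b).card + 1 ∣ n := hdiv b hb
    set N := insert (par b) (ch r par b) with hN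
    have hNcard : N.card = (ch r par b).card + 1 := by
      rw [hN, card_insert_of_notMem (par_notMem_ch hd (hne b hb))]
    have himg : N.image (fun a => (f a : ZMod ((ch r par b).card + 1))) = univ := by
      apply eq_univ_of_card
      rw [card_image_of_injOn, hNcard, ZMod.card]
      intro x hx y hy hxy
      simp only at hxy
      rw [ZMod.natCast_eq_natCast_iff] at hxy
      exact hf3 b ((hmemS b).2 hb) x hx y hy hxy
    have h1 : (ZMod.castHom hδn (ZMod ((ch r par b).card + 1)) s - j) ∈ N.image (fun a => (f a : ZMod ((ch r par b).card + 1))) := by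
      rw [himg]
      exact mem_univ _
    obtain ⟨a, ha, hfa⟩ := mem_image.1 h1
    have hadj : T.Adj a b ∧ Even (d a) := by
      rcases mem_insert.1 ha with h2 | h2
      · rw [h2]
        refine ⟨(hpar b (hne b hb)).1.symm, ?_⟩
        have := hparity b (hne b hb)
        tauto
      · rw [mem_ch] at h2
        refine ⟨?_, ?_⟩
        · have := (hpar a h2.1).1
          rwa [h2.2] at this
        · rw [hparity a h2.1, h2.2]
          exact hb
    refine ⟨s - (f a : ZMod n), a, b, hadj.1, hadj.2, hb, by ring, ?_⟩
    simp only [hb, not_false_eq_true, dif_pos]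
    rw [Sigma.mk.injEq]
    refine ⟨rfl, heq_of_eq ?_⟩
    have h3 : ((s - (f a : ZMod n)).cast : ZMod ((ch r par b).card + 1)) =
        ZMod.castHom hδn (ZMod ((ch r par b).card + 1)) (s - (f a : ZMod n)) := rfl
    rw [h3, map_sub, map_natCast, hfa]
    ring

end Pool.Agent.Helper80.GH
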