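import Mathlib

/-!
# A partial form of a theorem of Marshall Hall on abelian groups

For elements `g i`, `i ∈ I`, `|I| < |P|`, of a finite abelian group `P` there are distinct `c i` such
that the sums `c i + g i` are distinct.
-/

namespace Pool.Agent.Helper80.GH

open Finset

variable {ι P : Type*} [DecidableEq ι] [AddCommGroup P]

/-- The chain of exchanges. `e` is not yet placed, `α` and `β` are free, `Mv` is the set of the
elements which were moved already. -/
lemma hall_chain [DecidableEq P] (g : ι → P) : ∀ (m : ℕ) (I Mv : Finset ι) (c : ι → P) (e : ι)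
    (α β : P), (I \ Mv).card = m → e ∉ I → Set.InjOn c I → Set.InjOn (fun i => c i + g i) I →
    (∀ i ∈ I, c i ≠ α) → (∀ i ∈ I, c i ≠ β) → α ≠ β →
    (∀ i ∈ Mv, i ∈ I → (α + β + g e - (c i + g i) = α ∨
      ∃ i' ∈ Mv, i' ∈ I ∧ α + β + g e - (c i + g i) = c i')) →
    ∃ c' : ι → P, Set.InjOn c' (insert e I : Finset ι) ∧
      Set.InjOn (fun i => c' i + g i) (insert e I : Finset ι) := by
  intro m
  induction m with
  | zero =>
    intro I Mv c e α β hm he hc hl hα hβ hαβ hinv
    -- every element was moved, so the label of `e` at `α` is free
    have hall : ∀ i ∈ I, c i + g i ≠ α + g e := by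
      intro i hi h
      have hiM : i ∈ Mv := by
        by_contra h1
        rw [card_eq_zero] at hm
        have : i ∈ I \ Mv := mem_sdiff.2 ⟨hi, h1⟩
        rw [hm] at this
        exact absurd this (notMem_empty _)
      have h2 : α + β + g e - (c i + g i) = β := by
        rw [h]
        abel
      rcases hinv i hiM hi with h3 | ⟨i', _, hi', h3⟩
      · exact hαβ (h3.symm.trans h2)
      · exact hβ i' hi' (h3.symm.trans h2)
    refine ⟨fun i => if i = e then α else c i, ?_, ?_⟩
    · intro x hx y hy hxy
      rw [mem_coe, mem_insert] at hx hy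
      by_cases h1 : x = e <;> by_cases h2 : y = e
      · rw [h1, h2]
      · simp only [h1, h2, if_true, if_false] at hxy
        exact absurd hxy.symm (hα y (hy.resolve_left h2))
      · simp only [h1, h2, if_true, if_false] at hxy
        exact absurd hxy (hα x (hx.resolve_left h1))
      · simp only [h1, h2, if_false] at hxy
        exact hc (hx.resolve_left h1) (hy.resolve_left h2) hxy
    · intro x hx y hy hxy
      rw [mem_coe, mem_insert] at hx hy
      by_cases h1 : x = e <;> by_cases h2 : y = e
      · rw [h1, h2]
      · simp only [h1, h2, if_true, if_false] at hxy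
        exact absurd hxy.symm (hall y (hy.resolve_left h2))
      · simp only [h1, h2, if_true, if_false] at hxy
        exact absurd hxy (hall x (hx.resolve_left h1))
      · simp only [h1, h2, if_false] at hxy
        exact hl (hx.resolve_left h1) (hy.resolve_left h2) hxy
  | succ m ih =>
    intro I Mv c e α β hm he hc hl hα hβ hαβ hinv
    by_cases hall : ∀ i ∈ I, c i + g i ≠ α + g e
    · refine ⟨fun i => if i = e then α else c i, ?_, ?_⟩
      · intro x hx y hy hxy
        rw [mem_coe, mem_insert] at hx hy
        by_cases h1 : x = e <;> by_cases h2 : y = e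
        · rw [h1, h2]
        · simp only [h1, h2, if_true, if_false] at hxy
          exact absurd hxy.symm (hα y (hy.resolve_left h2))
        · simp only [h1, h2, if_true, if_false] at hxy
          exact absurd hxy (hα x (hx.resolve_left h1))
        · simp only [h1, h2, if_false] at hxy
          exact hc (hx.resolve_left h1) (hy.resolve_left h2) hxy
      · intro x hx y hy hxy
        rw [mem_coe, mem_insert] at hx hy
        by_cases h1 : x = e <;> by_cases h2 : y = e
        · rw [h1, h2]
        · simp only [h1, h2, if_true, if_false] at hxy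
          exact absurd hxy.symm (hall y (hy.resolve_left h2))
        · simp only [h1, h2, if_true, if_false] at hxy
          exact absurd hxy (hall x (hx.resolve_left h1))
        · simp only [h1, h2, if_false] at hxy
          exact hl (hx.resolve_left h1) (hy.resolve_left h2) hxy
    · push Not at hall
      obtain ⟨e', he', hee'⟩ := hall
      have he'M : e' ∉ Mv := by
        intro h1
        have h2 : α + β + g e - (c e' + g e') = β := by
          rw [hee']
          abel
        rcases hinv e' h1 he' with h3 | ⟨i', _, hi', h3⟩
        · exact hαβ (h3.symm.trans h2)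
        · exact hβ i' hi' (h3.symm.trans h2)
      have hne : e ≠ e' := fun h => he (h ▸ he')
      -- place `e` at `α` and remove `e'`
      set I' := insert e (I.erase e') with hI'
      set c' : ι → P := fun i => if i = e then α else c i with hc'
      have hc'e : c' e = α := by simp [hc']
      have hc'ne : ∀ i, i ≠ e → c' i = c i := fun i hi => by simp [hc', hi]
      have hmem : ∀ i ∈ I', i = e ∨ (i ≠ e ∧ i ≠ e' ∧ i ∈ I) := by
        intro i hi
        rcases mem_insert.1 hi with h1 | h1
        · exact Or.inl h1
        · right
          rw [mem_erase] at h1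
          exact ⟨fun h => he (h ▸ h1.2), h1⟩
      have hsum : β + c e' + g e' = α + β + g e := by
        have h1 : β + c e' + g e' = β + (c e' + g e') := by abel
        rw [h1, hee']
        abel
      have k1 : (I' \ insert e Mv).card = m := by
        -- cardinality
        have h3 : I' \ insert e Mv = (I \ Mv).erase e' := by
          ext i
          simp only [hI', mem_sdiff, mem_insert, mem_erase]
          constructor
          · rintro ⟨h4 | ⟨h4, h5⟩, h6⟩
            · exact absurd (Or.inl h4) h6
            · exact ⟨h4, h5, fun h7 => h6 (Or.inr h7)⟩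
          · rintro ⟨h4, h5, h6⟩
            refine ⟨Or.inr ⟨h4, h5⟩, ?_⟩
            rintro (h7 | h7)
            · exact he (h7 ▸ h5)
            · exact h6 h7
        rw [h3, card_erase_of_mem (mem_sdiff.2 ⟨he', he'M⟩)]
        omega
      have k2 : e' ∉ I' := by
        rw [hI', mem_insert, mem_erase]
        rintro (h3 | ⟨h3, _⟩)
        · exact hne h3.symm
        · exact h3 rfl
      have k3 : Set.InjOn c' I' := by
        intro x hx y hy hxy
        rcases hmem x hx with h1 | ⟨h1, h1', h1''⟩ <;> rcases hmem y hy with h2 | ⟨h2, h2', h2''⟩
        · rw [h1, h2]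
        · rw [h1, hc'e, hc'ne y h2] at hxy
          exact absurd hxy.symm (hα y h2'')
        · rw [h2, hc'e, hc'ne x h1] at hxy
          exact absurd hxy (hα x h1'')
        · rw [hc'ne x h1, hc'ne y h2] at hxy
          exact hc h1'' h2'' hxy
      have k4 : Set.InjOn (fun i => c' i + g i) I' := by
        intro x hx y hy hxy
        simp only at hxy
        rcases hmem x hx with h1 | ⟨h1, h1', h1''⟩ <;> rcases hmem y hy with h2 | ⟨h2, h2', h2''⟩
        · rw [h1, h2]
        · rw [h1, hc'e, hc'ne y h2, ← hee'] at hxy
          exact absurd (hl he' h2'' hxy).symm h2'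
        · rw [h2, hc'e, hc'ne x h1, ← hee'] at hxy
          exact absurd (hl h1'' he' hxy) h1'
        · rw [hc'ne x h1, hc'ne y h2] at hxy
          exact hl h1'' h2'' hxy
      have k5 : ∀ i ∈ I', c' i ≠ β := by
        intro i hi
        rcases hmem i hi with h1 | ⟨h1, h1', h1''⟩
        · rw [h1, hc'e]
          exact hαβ
        · rw [hc'ne i h1]
          exact hβ i h1''
      have k6 : ∀ i ∈ I', c' i ≠ c e' := by
        intro i hi
        rcases hmem i hi with h1 | ⟨h1, h1', h1''⟩
        · rw [h1, hc'e]
          exact (hα e' he').symm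
        · rw [hc'ne i h1]
          intro h2
          exact h1' (hc h1'' he' h2)
      have k7 : β ≠ c e' := by
        exact (hβ e' he').symm
      have k8 : ∀ i ∈ insert e Mv, i ∈ I' → (β + c e' + g e' - (c' i + g i) = β ∨
          ∃ i' ∈ insert e Mv, i' ∈ I' ∧ β + c e' + g e' - (c' i + g i) = c' i') := by
        intro i hiM hi
        rw [hsum]
        rcases hmem i hi with h1 | ⟨h1, h1', h1''⟩
        · left
          rw [h1, hc'e]
          abel
        · right
          have hiM' : i ∈ Mv := (mem_insert.1 hiM).resolve_left h1
          rw [hc'ne i h1]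
          rcases hinv i hiM' h1'' with h3 | ⟨i', hi'M, hi', h3⟩
          · exact ⟨e, mem_insert_self _ _, mem_insert_self _ _, by rw [hc'e]; exact h3⟩
          · have h4 : i' ≠ e := fun h => he (h ▸ hi')
            have h5 : i' ≠ e' := fun h => he'M (h ▸ hi'M)
            refine ⟨i', mem_insert_of_mem hi'M, mem_insert_of_mem (mem_erase.2 ⟨h5, hi'⟩), ?_⟩
            rw [hc'ne i' h4]
            exact h3
      obtain ⟨c'', h1, h2⟩ := ih I' (insert e Mv) c' e' β (c e') k1 k2 k3 k4 k5 k6 k7 k8
      have h3 : insert e' I' = insert e I := by
        rw [hI', Finset.insert_comm, insert_erase he']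
      rw [h3] at h1 h2
      exact ⟨c'', h1, h2⟩

/-- The partial form of Hall's theorem. -/
theorem hall_partial [Fintype P] (g : ι → P) (I : Finset ι) (hI : I.card < Fintype.card P) :
    ∃ c : ι → P, Set.InjOn c I ∧ Set.InjOn (fun i => c i + g i) I := by
  classical
  induction I using Finset.induction_on with
  | empty => exact ⟨fun _ => 0, by simp, by simp⟩
  | insert e I he ih =>
    rw [card_insert_of_notMem he] at hI
    obtain ⟨c, h1, h2⟩ := ih (by omega)
    have h3 : 1 < ((univ : Finset P) \ I.image c).card := by
      rw [card_sdiff_of_subset (subset_univ _), card_univ]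
      have := card_image_le (s := I) (f := c)
      omega
    obtain ⟨α, hα, β, hβ, hαβ⟩ := one_lt_card.1 h3
    have hfree : ∀ γ ∈ (univ : Finset P) \ I.image c, ∀ i ∈ I, c i ≠ γ := by
      intro γ hγ i hi h
      exact (mem_sdiff.1 hγ).2 (mem_image.2 ⟨i, hi, h⟩)
    exact hall_chain g _ I ∅ c e α β rfl he h1 h2 (hfree α hα) (hfree β hβ) hαβ (by simp)

end Pool.Agent.Helper80.GH
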