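import Pool.Agent.Helper80.GH.Cells

/-!
# Decompositions of `K_{n,n}`, rows indexed by a finite abelian group
-/

namespace Pool.Agent.Helper80.GH

open Finset Pool.Agent.Helper19.GH

variable {V : Type} [Fintype V] [DecidableEq V]

/-- Decomposition of `K_{n,n}` from a labelling of one class by a group `G` of order `n` and a
partition of the columns into quotients of `G`. -/
lemma decomposes_hom {n : ℕ} (T : SimpleGraph V) (v : V) (par : V → V)
    (hn : Fintype.card V = n + 1) (hpar : ∀ x, x ≠ v → T.Adj x (par x))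
    (hedge : ∀ u w, T.Adj u w → (u ≠ v ∧ par u = w) ∨ (w ≠ v ∧ par w = u))
    (A : V → Prop) (hA : ∀ u w, T.Adj u w → (A u ↔ ¬ A w))
    {G : Type} [AddCommGroup G] [Fintype G] (hG : Fintype.card G = n)
    (f : V → G) (hfi : ∀ a a', A a → A a' → f a = f a' → a = a')
    (Z : Finset V) (W : V → AddSubgroup G) (hsum : ∑ b ∈ Z, Nat.card (W b) = n)
    (π : V → G →+ G) (hπ : ∀ b ∈ Z, ∀ x, π b x ∈ W b)
    (g : V → V) (hg : ∀ u, ¬ A u → g u ∈ Z) (o : V → G) (hoW : ∀ u, ¬ A u → o u ∈ W (g u))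
    (ho : ∀ u u', ¬ A u → ¬ A u' → g u = g u' → o u = o u' → u = u')
    (hc : ∀ b ∈ Z, ∀ κ ∈ W b, ∃ u a, ¬ A u ∧ A a ∧ T.Adj a u ∧ g u = b ∧
      π b (f a) - o u = κ) :
    Decomposes T (completeBipartiteGraph (Fin n) (Fin n)) := by
  classical
  let C : Type := {p : V × G // p.1 ∈ Z ∧ p.2 ∈ W p.1}
  have hCcard : Fintype.card C = n := by
    have e : C ≃ ((b : {b // b ∈ Z}) × W b.1) :=
      { toFun := fun p => ⟨⟨p.1.1, p.2.1⟩, ⟨p.1.2, p.2.2⟩⟩
        invFun := fun q => ⟨(q.1.1, q.2.1), ⟨q.1.2, q.2.2⟩⟩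
        left_inv := fun p => rfl
        right_inv := fun q => rfl }
    rw [Fintype.card_congr e, Fintype.card_sigma, ← hsum]
    rw [← sum_coe_sort Z (fun b => Nat.card (W b))]
    apply sum_congr rfl
    intro b _
    exact Nat.card_eq_fintype_card.symm
  have hn0 : 0 < n := by
    rw [← hG]
    exact Fintype.card_pos
  have hCne : Nonempty C := by
    rw [← Fintype.card_pos_iff, hCcard]
    exact hn0
  let col : G → V → C := fun k u =>
    if h : ¬ A u then ⟨(g u, π (g u) k + o u), hg u h, (W (g u)).add_mem (hπ _ (hg u h) k)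
      (hoW u h)⟩ else Classical.choice hCne
  have hcol : ∀ k u (_ : ¬ A u), (col k u).1 = (g u, π (g u) k + o u) := by
    intro k u h
    simp only [col, dif_pos h]
  refine decomposes_of_cells (I := G) (R := G) (C := C) T v par hn hpar A hA hG hG
    hCcard (fun k x => k + f x) col ?_ ?_ ?_ hedge
  · intro k a a' ha ha' h
    exact hfi a a' ha ha' (add_left_cancel h)
  · intro k b b' hb hb' h
    have h1 : (g b, π (g b) k + o b) = (g b', π (g b') k + o b') := by
      rw [← hcol k b hb, ← hcol k b' hb', h]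
    rw [Prod.mk.injEq] at h1
    obtain ⟨h2, h3⟩ := h1
    rw [← h2] at h3
    exact ho b b' hb hb' h2 (add_left_cancel h3)
  · rintro ρ ⟨⟨b, w⟩, hb, hw⟩
    obtain ⟨u, a, hu, ha, hadj, hgu, hκ⟩ := hc b hb (π b ρ - w) ((W b).sub_mem (hπ b hb ρ) hw)
    refine ⟨ρ - f a, a, u, hadj, ha, hu, by simp, ?_⟩
    apply Subtype.ext
    rw [hcol _ u hu, hgu, map_sub]
    have h1 : π b ρ - π b (f a) + o u = w := by
      have h2 : π b ρ - π b (f a) + o u = π b ρ - (π b (f a) - o u) := by abel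
      rw [h2, hκ]
      abel
    rw [h1]

end Pool.Agent.Helper80.GH
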