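import Pool.Agent.Helper80.GH.Orbits
import Pool.Agent.Helper80.GH.Div

/-!
# Labellings in which the labels around every vertex form an arc of residues
-/

namespace Pool.Agent.Helper80.GH

open Finset

variable {V : Type} [Fintype V] [DecidableEq V]

/-- Arithmetic of one star: residues of an arc of length `c + 1` containing `φ` and `0`. -/
lemma arc (M c φ : ℕ) (h1 : c + 1 ≤ M) (h2 : M ≤ 2 * c + 1) :
    ∃ t β : ℕ, t ≤ c ∧ (φ ≡ β + t [MOD M]) ∧ ∃ p, p < c + 1 ∧ 0 ≡ β + p [MOD M] := by
  have hM : 0 < M := by omega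
  have hω : ∃ ω, ω < M ∧ φ + ω ≡ 0 [MOD M] := by
    refine ⟨(M - φ % M) % M, Nat.mod_lt _ hM, ?_⟩
    have h3 : φ + (M - φ % M) % M ≡ φ % M + (M - φ % M) [MOD M] :=
      (Nat.mod_modEq φ M).symm.add (Nat.mod_modEq _ M)
    have h4 : φ % M + (M - φ % M) = M := by
      have := Nat.mod_lt φ hM
      omega
    rw [h4] at h3
    exact h3.trans (Nat.modEq_zero_iff_dvd.2 dvd_rfl)
  obtain ⟨ω, hω1, hω2⟩ := hω
  by_cases h : ω ≤ c
  · refine ⟨0, φ, by omega, by simp [Nat.ModEq.refl], ω, by omega, hω2.symm⟩
  · refine ⟨M - ω, φ + ω, by omega, ?_, 0, by omega, ?_⟩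
    · have h3 : φ + ω + (M - ω) = φ + M := by omega
      rw [h3]
      exact (Nat.modEq_iff_dvd' (by omega)).2 (by simp)
    · simpa using hω2.symm

lemma label2 (r : V) (par : V → V) (d : V → ℕ)
    (hd : ∀ x, x ≠ r → d x = d (par x) + 1) (M : V → ℕ) :
    ∀ (m : ℕ) (S : Finset V), S.card = m → (∀ b ∈ S, b ≠ r) → (∀ b ∈ S, par b ≠ r →
      par (par b) ∈ S) →
      (∀ b ∈ S, (ch r par b).card + 1 ≤ M b ∧ M b ≤ 2 * (ch r par b).card + 1) →
    ∃ f β : V → ℕ, f r = 0 ∧ (∀ x ∈ S.biUnion (ch r par), f x < ∑ b ∈ S, M b) ∧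
      Set.InjOn f (insert r (S.biUnion (ch r par)) : Finset V) ∧
      ∀ b ∈ S, (∀ x ∈ insert (par b) (ch r par b),
          ∃ p, p < (ch r par b).card + 1 ∧ f x ≡ β b + p [MOD M b]) ∧
        (∀ x ∈ insert (par b) (ch r par b), ∀ y ∈ insert (par b) (ch r par b),
          f x ≡ f y [MOD M b] → x = y) ∧
        ∃ p, p < (ch r par b).card + 1 ∧ 0 ≡ β b + p [MOD M b] := by
  intro m
  induction m with
  | zero =>
    intro S hS _ _ _
    rw [card_eq_zero] at hS
    subst hS
    refine ⟨fun _ => 0, fun _ => 0, rfl, ?_, ?_, ?_⟩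
    · intro x hx
      simp at hx
    · intro x hx y hy _
      simp only [biUnion_empty, insert_empty_eq, coe_singleton, Set.mem_singleton_iff] at hx hy
      rw [hx, hy]
    · intro b hb
      exact absurd hb (notMem_empty b)
  | succ m ih =>
    intro S hS hSr hcl hMS
    have hne : S.Nonempty := by
      rw [← card_pos]
      omega
    obtain ⟨b, hb, hmax⟩ := exists_max_image S d hne
    set S' := S.erase b with hS'
    have hcard : S'.card = m := by
      rw [hS', card_erase_of_mem hb]
      omega
    have hgp : ∀ b' ∈ S, par b' ≠ r → par (par b') ∈ S' := by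
      intro b' hb' h1
      rw [hS', mem_erase]
      refine ⟨?_, hcl b' hb' h1⟩
      intro h2
      have h3 := hd b' (hSr b' hb')
      have h4 := hd (par b') h1
      rw [h2] at h4
      have h5 := hmax b' hb'
      omega
    obtain ⟨f', β', hf0, hf1, hf2, hf3⟩ := ih S' hcard
      (fun b' hb' => hSr b' (mem_of_mem_erase hb'))
      (fun b' hb' h1 => hgp b' (mem_of_mem_erase hb') h1)
      (fun b' hb' => hMS b' (mem_of_mem_erase hb'))
    have hparmem : ∀ b' ∈ S, par b' ∈ insert r (S'.biUnion (ch r par)) := by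
      intro b' hb'
      by_cases h1 : par b' = r
      · rw [h1]
        exact mem_insert_self _ _
      · apply mem_insert_of_mem
        rw [mem_biUnion]
        exact ⟨par (par b'), hgp b' hb' h1, mem_ch.2 ⟨h1, rfl⟩⟩
    obtain ⟨hMb1, hMb2⟩ := hMS b hb
    obtain ⟨t, β, ht, htβ, p₀, hp₀, hp₀'⟩ := arc (M b) (ch r par b).card (f' (par b)) hMb1 hMb2
    obtain ⟨K, hK⟩ : ∃ K, K = ∑ b ∈ S', M b := ⟨_, rfl⟩
    obtain ⟨c, hc⟩ : ∃ c, c = (ch r par b).card := ⟨_, rfl⟩
    obtain ⟨N, hN⟩ : ∃ N, N = M b := ⟨_, rfl⟩
    rw [← hc] at hMb1 hMb2 ht hp₀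
    rw [← hN] at hMb1 hMb2 htβ hp₀'
    have hNpos : 0 < N := by omega
    let pl : ℕ → ℕ := fun i => K + (β + i + (N - 1) * K) % N
    have hpl1 : ∀ i, K ≤ pl i := fun i => Nat.le_add_right _ _
    have hpl2 : ∀ i, pl i < K + N := fun i => Nat.add_lt_add_left (Nat.mod_lt _ hNpos) _
    have hpl3 : ∀ i, pl i ≡ β + i [MOD N] := by
      intro i
      have h1 : K + (β + i + (N - 1) * K) % N ≡ K + (β + i + (N - 1) * K) [MOD N] :=
        (Nat.ModEq.refl K).add (Nat.mod_modEq _ _)
      obtain ⟨N', hN'⟩ : ∃ N', N = N' + 1 := ⟨N - 1, by omega⟩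
      have h2 : K + (β + i + (N - 1) * K) = (β + i) + N * K := by
        rw [hN', Nat.add_sub_cancel]
        ring
      rw [h2] at h1
      have h3 : (β + i) + N * K ≡ (β + i) + 0 [MOD N] :=
        (Nat.ModEq.refl _).add ((Nat.modEq_zero_iff_dvd).2 (Dvd.intro _ rfl))
      exact h1.trans (by simpa using h3)
    have hnotin : ∀ x ∈ ch r par b, x ∉ insert r (S'.biUnion (ch r par)) := by
      intro x hx h1
      rw [mem_ch] at hx
      rcases mem_insert.1 h1 with h2 | h2
      · exact hx.1 h2
      · obtain ⟨b', hb', h3⟩ := mem_biUnion.1 h2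
        rw [mem_ch] at h3
        rw [hx.2] at h3
        rw [← h3.2, hS', mem_erase] at hb'
        exact hb'.1 rfl
    let e := (ch r par b).equivFin
    let idx : {x // x ∈ ch r par b} → ℕ := fun x => if (e x : ℕ) < t then e x else e x + 1
    have helt : ∀ x, (e x : ℕ) < c := fun x => by
      rw [hc]
      exact (e x).2
    have hidx1 : ∀ x, idx x < c + 1 := by
      intro x
      have := helt x
      simp only [idx]
      split_ifs <;> omega
    have hidx2 : ∀ x, idx x ≠ t := by
      intro x
      simp only [idx]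
      split_ifs <;> omega
    have hidx3 : ∀ x y, idx x = idx y → x = y := by
      intro x y h
      simp only [idx] at h
      apply e.injective
      apply Fin.ext
      split_ifs at h <;> omega
    have hlt : ∀ (u w : ℕ), u < c + 1 → w < c + 1 → β + u ≡ β + w [MOD N] → u = w := by
      intro u w hu hw h
      have h2 := Nat.ModEq.add_left_cancel' _ h
      exact Nat.ModEq.eq_of_lt_of_lt h2 (by omega) (by omega)
    let f : V → ℕ := fun x => if h : x ∈ ch r par b then pl (idx ⟨x, h⟩) else f' x
    have hfin : ∀ x (h : x ∈ ch r par b), f x = pl (idx ⟨x, h⟩) := fun x h => dif_pos h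
    have hfout : ∀ x, x ∉ ch r par b → f x = f' x := fun x h => dif_neg h
    have hfout' : ∀ x ∈ insert r (S'.biUnion (ch r par)), f x = f' x := fun x h =>
      hfout x (fun h' => hnotin x h' h)
    have hsum : ∑ b ∈ S, M b = K + N := by
      rw [hK, hN, hS', sum_erase_add _ _ hb]
    have hcases : ∀ x ∈ S.biUnion (ch r par),
        x ∈ ch r par b ∨ x ∈ S'.biUnion (ch r par) := by
      intro x hx
      obtain ⟨b', hb', h2⟩ := mem_biUnion.1 hx
      by_cases h3 : b' = b
      · left
        rwa [h3] at h2
      · right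
        exact mem_biUnion.2 ⟨b', mem_erase.2 ⟨h3, hb'⟩, h2⟩
    -- the new labels differ from the old ones
    have hnew : ∀ x (h : x ∈ ch r par b), ∀ y ∈ insert r (S'.biUnion (ch r par)),
        f x ≠ f y := by
      intro x h y hy hxy
      rw [hfin x h, hfout' y hy] at hxy
      rcases mem_insert.1 hy with h1 | h1
      · rw [h1, hf0] at hxy
        have hK0 : K = 0 := by
          have := hpl1 (idx ⟨x, h⟩)
          omega
        have hS0 : S' = ∅ := by
          by_contra hne'
          obtain ⟨b', hb'⟩ := nonempty_iff_ne_empty.2 hne'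
          have h2 := (hMS b' (mem_of_mem_erase hb')).1
          have h3 : M b' ≤ K := by
            rw [hK]
            exact single_le_sum (f := M) (fun _ _ => Nat.zero_le _) hb'
          omega
        have hpr : par b = r := by
          by_contra h2
          have h3 := hgp b hb h2
          rw [hS0] at h3
          exact absurd h3 (notMem_empty _)
        rw [hpr, hf0] at htβ
        have h4 := hpl3 (idx ⟨x, h⟩)
        rw [hxy] at h4
        exact hidx2 ⟨x, h⟩ (hlt _ _ (hidx1 _) (by omega) (h4.symm.trans htβ))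
      · have h2 := hf1 y h1
        have h3 := hpl1 (idx ⟨x, h⟩)
        omega
    refine ⟨f, fun y => if y = b then β else β' y, ?_, ?_, ?_, ?_⟩
    · rw [hfout' r (mem_insert_self _ _), hf0]
    · intro x hx
      rw [hsum]
      rcases hcases x hx with h1 | h1
      · rw [hfin x h1]
        exact hpl2 _
      · rw [hfout' x (mem_insert_of_mem h1)]
        have := hf1 x h1
        omega
    · intro x hx y hy hxy
      have hx' : x ∈ ch r par b ∨ x ∈ insert r (S'.biUnion (ch r par)) := by
        rcases mem_insert.1 (mem_coe.1 hx) with h1 | h1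
        · right
          rw [h1]
          exact mem_insert_self _ _
        · rcases hcases x h1 with h2 | h2
          · exact Or.inl h2
          · exact Or.inr (mem_insert_of_mem h2)
      have hy' : y ∈ ch r par b ∨ y ∈ insert r (S'.biUnion (ch r par)) := by
        rcases mem_insert.1 (mem_coe.1 hy) with h1 | h1
        · right
          rw [h1]
          exact mem_insert_self _ _
        · rcases hcases y h1 with h2 | h2
          · exact Or.inl h2
          · exact Or.inr (mem_insert_of_mem h2)
      rcases hx' with h1 | h1 <;> rcases hy' with h2 | h2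
      · rw [hfin x h1, hfin y h2] at hxy
        have h3 := (hpl3 (idx ⟨x, h1⟩)).symm
        rw [hxy] at h3
        have h4 := hlt _ _ (hidx1 _) (hidx1 _) (h3.trans (hpl3 (idx ⟨y, h2⟩)))
        exact congrArg Subtype.val (hidx3 _ _ h4)
      · exact absurd hxy (hnew x h1 y h2)
      · exact absurd hxy.symm (hnew y h2 x h1)
      · rw [hfout' x h1, hfout' y h2] at hxy
        exact hf2 h1 h2 hxy
    · intro b' hb'
      by_cases h1 : b' = b
      · subst h1
        simp only [if_true]
        rw [← hc, ← hN]
        have hz : f (par b') = f' (par b') := hfout' _ (hparmem b' hb)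
        refine ⟨?_, ?_, p₀, hp₀, hp₀'⟩
        · intro x hx
          rcases mem_insert.1 hx with h2 | h2
          · refine ⟨t, by omega, ?_⟩
            rw [h2, hz]
            exact htβ
          · refine ⟨idx ⟨x, h2⟩, hidx1 _, ?_⟩
            rw [hfin x h2]
            exact hpl3 _
        · intro x hx y hy hxy
          rcases mem_insert.1 hx with h1 | h1 <;> rcases mem_insert.1 hy with h2 | h2
          · rw [h1, h2]
          · exfalso
            rw [h1, hz, hfin y h2] at hxy
            exact hidx2 ⟨y, h2⟩ (hlt _ _ (hidx1 _) (by omega)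
              ((hpl3 _).symm.trans (hxy.symm.trans htβ)))
          · exfalso
            rw [h2, hz, hfin x h1] at hxy
            exact hidx2 ⟨x, h1⟩ (hlt _ _ (hidx1 _) (by omega)
              ((hpl3 _).symm.trans (hxy.trans htβ)))
          · rw [hfin x h1, hfin y h2] at hxy
            have h4 := hlt _ _ (hidx1 _) (hidx1 _)
              ((hpl3 (idx ⟨x, h1⟩)).symm.trans (hxy.trans (hpl3 (idx ⟨y, h2⟩))))
            exact congrArg Subtype.val (hidx3 _ _ h4)
      · have hb'S : b' ∈ S' := mem_erase.2 ⟨h1, hb'⟩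
        have hNb : ∀ x ∈ insert (par b') (ch r par b'), f x = f' x := by
          intro x hx
          rcases mem_insert.1 hx with h2 | h2
          · rw [h2]
            exact hfout' _ (hparmem b' hb')
          · exact hfout' _ (mem_insert_of_mem (mem_biUnion.2 ⟨b', hb'S, h2⟩))
        simp only [h1, if_false]
        obtain ⟨h2, h3, h4⟩ := hf3 b' hb'S
        refine ⟨?_, ?_, h4⟩
        · intro x hx
          rw [hNb x hx]
          exact h2 x hx
        · intro x hx y hy hxy
          rw [hNb x hx, hNb y hy] at hxy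
          exact h3 x hx y hy hxy

end Pool.Agent.Helper80.GH
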