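import Pool.Agent.Helper80.GH.Cells

/-!
# Decompositions of `K_{n,n}` from orbits of columns
-/

namespace Pool.Agent.Helper80.GH

open Finset Pool.Agent.Helper19.GH

variable {V : Type} [Fintype V] [DecidableEq V]

/-- Decomposition of `K_{n,n}` from a labelling of one class and a partition of the columns into
orbits of sizes dividing `n`. -/
lemma decomposes_orbits {n : ℕ} (hn0 : 0 < n) (T : SimpleGraph V) (v : V) (par : V → V)
    (hn : Fintype.card V = n + 1) (hpar : ∀ x, x ≠ v → T.Adj x (par x))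
    (hedge : ∀ u w, T.Adj u w → (u ≠ v ∧ par u = w) ∨ (w ≠ v ∧ par w = u))
    (A : V → Prop) (hA : ∀ u w, T.Adj u w → (A u ↔ ¬ A w))
    (f : V → ℕ) (hf : ∀ a, A a → f a < n) (hfi : ∀ a a', A a → A a' → f a = f a' → a = a')
    (Z : Finset V) (M : V → ℕ) (hM : ∀ b ∈ Z, M b ∣ n) (hsum : ∑ b ∈ Z, M b = n)
    (g : V → V) (hg : ∀ u, ¬ A u → g u ∈ Z) (o : V → ℤ)
    (ho : ∀ u u', ¬ A u → ¬ A u' → g u = g u' → o u ≡ o u' [ZMOD (M (g u) : ℤ)] → u = u')
    (hc : ∀ b ∈ Z, ∀ κ : ℤ, ∃ u a, ¬ A u ∧ A a ∧ T.Adj a u ∧ g u = b ∧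
      (f a : ℤ) - o u ≡ κ [ZMOD (M b : ℤ)]) :
    Decomposes T (completeBipartiteGraph (Fin n) (Fin n)) := by
  classical
  have : NeZero n := ⟨hn0.ne'⟩
  have hMpos : ∀ b ∈ Z, 0 < M b := fun b hb => Nat.pos_of_dvd_of_pos (hM b hb) hn0
  have hne : ∀ b : {b // b ∈ Z}, NeZero (M b.1) := fun b => ⟨(hMpos b.1 b.2).ne'⟩
  have hcolcard : Fintype.card ((b : {b // b ∈ Z}) × ZMod (M b.1)) = n := by
    rw [Fintype.card_sigma]
    rw [sum_congr rfl (fun b _ => ZMod.card (M b.1))]
    rw [← hsum]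
    exact (sum_coe_sort Z M)
  have hnonempty : Nonempty ((b : {b // b ∈ Z}) × ZMod (M b.1)) := by
    rw [← Fintype.card_pos_iff, hcolcard]
    exact hn0
  let col : ZMod n → V → (b : {b // b ∈ Z}) × ZMod (M b.1) := fun k u =>
    if h : ¬ A u then ⟨⟨g u, hg u h⟩, (k.cast : ZMod (M (g u))) + ((o u : ℤ) : ZMod (M (g u)))⟩
      else Classical.choice hnonempty
  have hcol : ∀ k u (h : ¬ A u), col k u =
      ⟨⟨g u, hg u h⟩, (k.cast : ZMod (M (g u))) + ((o u : ℤ) : ZMod (M (g u)))⟩ :=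
    fun k u h => dif_pos h
  refine decomposes_of_cells (I := ZMod n) (R := ZMod n)
    (C := (b : {b // b ∈ Z}) × ZMod (M b.1)) T v par hn hpar A hA (ZMod.card n) (ZMod.card n)
    hcolcard (fun k x => k + (f x : ZMod n)) col ?_ ?_ ?_ hedge
  · intro k a a' ha ha' h
    have h1 : (f a : ZMod n) = (f a' : ZMod n) := add_left_cancel h
    rw [ZMod.natCast_eq_natCast_iff] at h1
    exact hfi a a' ha ha' (Nat.ModEq.eq_of_lt_of_lt h1 (hf a ha) (hf a' ha'))
  · intro k b b' hb hb' h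
    rw [hcol k b hb, hcol k b' hb', Sigma.mk.injEq] at h
    have h1 : g b = g b' := congrArg Subtype.val h.1
    apply ho b b' hb hb' h1
    have h2 : ((k.cast : ZMod (M (g b))) + ((o b : ℤ) : ZMod (M (g b)))) =
        ((k.cast : ZMod (M (g b))) + ((o b' : ℤ) : ZMod (M (g b)))) := by
      have h3 := h.2
      have key : ∀ (c : V) (hc : g b = c) (x : ZMod (M (g b))),
          HEq x ((k.cast : ZMod (M c)) + ((o b' : ℤ) : ZMod (M c))) →
          x = ((k.cast : ZMod (M (g b))) + ((o b' : ℤ) : ZMod (M (g b)))) := by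
        intro c hc x hx
        subst hc
        exact eq_of_heq hx
      exact key (g b') h1 _ h3
    have h4 := add_left_cancel h2
    exact (ZMod.intCast_eq_intCast_iff _ _ _).1 h4
  · rintro s ⟨⟨b, hb⟩, j⟩
    have hδn : M b ∣ n := hM b hb
    have hneb : NeZero (M b) := ⟨(hMpos b hb).ne'⟩
    obtain ⟨u, a, hu, ha, hadj, hgu, hκ⟩ := hc b hb ((ZMod.castHom hδn (ZMod (M b)) s - j).cast : ℤ)
    refine ⟨s - (f a : ZMod n), a, u, hadj, ha, hu, by ring, ?_⟩
    rw [hcol _ u hu]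
    subst hgu
    rw [Sigma.mk.injEq]
    refine ⟨rfl, heq_of_eq ?_⟩
    have h3 : ((s - (f a : ZMod n)).cast : ZMod (M (g u))) =
        ZMod.castHom hδn (ZMod (M (g u))) (s - (f a : ZMod n)) := rfl
    have h4 := (ZMod.intCast_eq_intCast_iff _ _ _).2 hκ
    rw [ZMod.intCast_cast, ZMod.cast_id] at h4
    push_cast at h4
    rw [h3, map_sub, map_natCast]
    linear_combination (-1 : ZMod (M (g u))) * h4

/-- Sorting lemma. -/
lemma exists_sort (p : V → ℕ) : ∀ (m : ℕ) (L : Finset V), L.card = m →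
    ∃ i : V → ℕ, (∀ u ∈ L, i u < m) ∧ (∀ j < m, ∃ u ∈ L, i u = j) ∧
      ∀ u ∈ L, ∀ u' ∈ L, (p u : ℤ) - i u = (p u' : ℤ) - i u' → u = u' := by
  intro m
  induction m with
  | zero =>
    intro L hL
    rw [card_eq_zero] at hL
    subst hL
    exact ⟨fun _ => 0, by simp, by simp, by simp⟩
  | succ m ih =>
    intro L hL
    have hne : L.Nonempty := by
      rw [← card_pos]
      omega
    obtain ⟨u₀, hu₀, hmin⟩ := exists_min_image L p hne
    obtain ⟨i, hi1, hi2, hi3⟩ := ih (L.erase u₀) (by rw [card_erase_of_mem hu₀]; omega)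
    refine ⟨fun u => if u = u₀ then m else i u, ?_, ?_, ?_⟩
    · intro u hu
      by_cases h : u = u₀
      · simp only [h, if_true]
        omega
      · simp only [h, if_false]
        have := hi1 u (mem_erase.2 ⟨h, hu⟩)
        omega
    · intro j hj
      by_cases h : j = m
      · exact ⟨u₀, hu₀, by simp [h]⟩
      · obtain ⟨u, hu, huj⟩ := hi2 j (by omega)
        refine ⟨u, mem_of_mem_erase hu, ?_⟩
        simp only [(mem_erase.1 hu).1, if_false]
        exact huj
    · intro u hu u' hu' h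
      by_cases h1 : u = u₀ <;> by_cases h2 : u' = u₀
      · rw [h1, h2]
      · exfalso
        simp only [h1, h2, if_true, if_false] at h
        have h3 := hi1 u' (mem_erase.2 ⟨h2, hu'⟩)
        have h4 := hmin u' hu'
        omega
      · exfalso
        simp only [h1, h2, if_true, if_false] at h
        have h3 := hi1 u (mem_erase.2 ⟨h1, hu⟩)
        have h4 := hmin u hu
        omega
      · simp only [h1, h2, if_false] at h
        exact hi3 u (mem_erase.2 ⟨h1, hu⟩) u' (mem_erase.2 ⟨h2, hu'⟩) h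

end Pool.Agent.Helper80.GH
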