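import Pool.Agent.Helper80.GH.Hall

/-!
# The problem of one star
-/

namespace Pool.Agent.Helper80.GH

open Finset

variable {V W : Type*} [DecidableEq V] [AddCommGroup W] [DecidableEq W]

/-- An injection between finite sets. -/
lemma exists_inj (S : Finset V) (R : Finset W) (h : S.card ≤ R.card) :
    ∃ f : V → W, (∀ s ∈ S, f s ∈ R) ∧ Set.InjOn f S := by
  classical
  obtain ⟨φ⟩ : Nonempty (S ↪ R) := by
    rw [Function.Embedding.nonempty_iff_card_le]
    simpa using h
  refine ⟨fun s => if hs : s ∈ S then (φ ⟨s, hs⟩ : W) else 0, ?_, ?_⟩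
  · intro s hs
    simp only [hs, dif_pos]
    exact (φ ⟨s, hs⟩).2
  · intro s hs t ht hst
    rw [mem_coe] at hs ht
    simp only [hs, ht, dif_pos] at hst
    have h1 := φ.injective (Subtype.ext hst)
    exact congrArg Subtype.val h1

/-- The kernel of a nonzero homomorphism to `ZMod 2` has index two. -/
lemma two_mul_card_ker [Fintype W] (φ : W →+ ZMod 2) (e : W) (he : φ e = 1) :
    2 * (univ.filter fun w => φ w = 0).card = Fintype.card W := by
  classical
  have h1 : (univ.filter fun w => φ w = 0).card = (univ.filter fun w => ¬ φ w = 0).card := by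
    apply card_bij (fun w _ => w + e)
    · intro w hw
      rw [mem_filter] at hw ⊢
      refine ⟨mem_univ _, ?_⟩
      rw [map_add, hw.2, he]
      decide
    · intro w _ w' _ h
      exact add_right_cancel h
    · intro w hw
      rw [mem_filter] at hw
      refine ⟨w - e, ?_, by simp⟩
      rw [mem_filter]
      refine ⟨mem_univ _, ?_⟩
      rw [map_sub, he]
      have h2 : ∀ a : ZMod 2, a ≠ 0 → a - 1 = 0 := by decide
      exact h2 _ hw.2
  have h2 := card_filter_add_card_filter_not (s := (univ : Finset W)) (fun w => φ w = 0)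
  rw [card_univ] at h2
  omega

/-- The problem of one star: `C` is the set of the children of the centre, `L` the set of the
additional leaves. -/
theorem star_solve [Fintype W] (ζ : W) (C L : Finset V)
    (hφ : L.Nonempty → ∃ (φ : W →+ ZMod 2) (e : W), φ ζ = 0 ∧ φ e = 1)
    (hcard : C.card + 1 + L.card = Fintype.card W)
    (hL : 2 * L.card < Fintype.card W) (par : V → V) (x : V → W) :
    ∃ (v κ : V → W), (∀ y ∈ C, v y ≠ ζ) ∧ Set.InjOn v C ∧
      (∀ u ∈ L, ∀ u' ∈ L, κ u - (if par u ∈ C then v (par u) else x u) =
        κ u' - (if par u' ∈ C then v (par u') else x u') → u = u') ∧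
      (∀ u ∈ L, κ u ≠ (if par u ∈ C then v (par u) else x u)) ∧
      ∀ w, w = ζ ∨ (∃ y ∈ C, v y = w) ∨ ∃ u ∈ L, κ u = w := by
  classical
  rcases L.eq_empty_or_nonempty with hLe | hLn
  · subst hLe
    rw [card_empty, add_zero] at hcard
    have h1 : C.card ≤ ((univ : Finset W).erase ζ).card := by
      rw [card_erase_of_mem (mem_univ _), card_univ]
      omega
    obtain ⟨v, hv1, hv2⟩ := exists_inj C _ h1
    refine ⟨v, fun _ => 0, ?_, hv2, by simp, by simp, ?_⟩
    · intro y hy
      exact (mem_erase.1 (hv1 y hy)).1
    · intro w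
      by_cases hw : w = ζ
      · exact Or.inl hw
      right
      left
      have h2 : C.image v = (univ : Finset W).erase ζ := by
        apply eq_of_subset_of_card_le
        · intro a ha
          obtain ⟨y, hy, rfl⟩ := mem_image.1 ha
          exact hv1 y hy
        · rw [card_image_of_injOn hv2, card_erase_of_mem (mem_univ _), card_univ]
          omega
      have h3 : w ∈ C.image v := by
        rw [h2]
        exact mem_erase.2 ⟨hw, mem_univ _⟩
      obtain ⟨y, hy, h4⟩ := mem_image.1 h3
      exact ⟨y, hy, h4⟩
  · obtain ⟨φ, e, hφζ, hφe⟩ := hφ hLn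
    have hker := two_mul_card_ker φ e hφe
    set P := univ.filter fun w => φ w = 0 with hP
    have hPcard : L.card < P.card := by omega
    -- the internal parents
    set I := (L.image par) ∩ C with hI
    have hIcard : I.card ≤ L.card :=
      (card_le_card inter_subset_left).trans card_image_le
    have hζP : ζ ∈ P := by
      rw [hP, mem_filter]
      exact ⟨mem_univ _, hφζ⟩
    obtain ⟨v0, hv0, hv0i⟩ := exists_inj I (P.erase ζ) (by
      rw [card_erase_of_mem hζP]
      omega)
    have hv0φ : ∀ y ∈ I, φ (v0 y) = 0 := fun y hy => by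
      have h1 := (mem_erase.1 (hv0 y hy)).2
      rw [hP, mem_filter] at h1
      exact h1.2
    set g : V → W := fun u => if par u ∈ C then v0 (par u) else x u with hg
    have h01 : ∀ a : ZMod 2, a ≠ 0 → a = 1 := by decide
    let g' : V → φ.ker := fun u => if h : φ (g u) = 0 then ⟨g u, h⟩ else ⟨g u - e, by
      rw [AddMonoidHom.mem_ker, map_sub, hφe, h01 _ h, sub_self]⟩
    have hg'0 : ∀ u, φ (g u) = 0 → (g' u : W) = g u := by
      intro u hu
      simp only [g', dif_pos hu]
    have hg'1 : ∀ u, φ (g u) ≠ 0 → (g' u : W) = g u - e := by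
      intro u hu
      simp only [g', dif_neg hu]
    have hkc : Fintype.card φ.ker = P.card := by
      rw [hP, ← Fintype.card_subtype]
      apply Fintype.card_congr
      exact Equiv.subtypeEquivRight (fun w => AddMonoidHom.mem_ker)
    obtain ⟨c, hc1, hc2⟩ := hall_partial (fun u => - g' u) L (by rw [hkc]; exact hPcard)
    obtain ⟨τ, hτ⟩ : ∃ τ : φ.ker, ∀ u ∈ L, τ ≠ g' u - c u := by
      have h1 : ((univ : Finset φ.ker) \ L.image (fun u => g' u - c u)).Nonempty := by
        rw [← card_pos, card_sdiff_of_subset (subset_univ _), card_univ, hkc]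
        have := card_image_le (s := L) (f := fun u => g' u - c u)
        omega
      obtain ⟨τ, hτ⟩ := h1
      refine ⟨τ, fun u hu h2 => ?_⟩
      exact (mem_sdiff.1 hτ).2 (mem_image.2 ⟨u, hu, h2.symm⟩)
    set κ : V → W := fun u => e + c u + τ with hκ
    have hφκ : ∀ u, φ (κ u) = 1 := by
      intro u
      have h1 : φ (c u : W) = 0 := (c u).2
      have h2 : φ (τ : W) = 0 := τ.2
      simp only [hκ]
      rw [map_add, map_add, hφe, h1, h2]
      decide
    have hκi : Set.InjOn κ L := by
      intro u hu u' hu' h
      simp only [hκ] at h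
      have h1 : (c u : W) = c u' := add_left_cancel (add_right_cancel h)
      exact hc1 hu hu' (Subtype.ext h1)
    -- labels
    have hlab0 : ∀ u, φ (g u) = 0 → κ u - g u = e + τ + ((c u + -g' u : φ.ker) : W) := by
      intro u hu
      have h1 := hg'0 u hu
      simp only [hκ]
      push_cast
      rw [h1]
      abel
    have hlab1 : ∀ u, φ (g u) ≠ 0 → κ u - g u = τ + ((c u + -g' u : φ.ker) : W) := by
      intro u hu
      have h1 := hg'1 u hu
      simp only [hκ]
      push_cast
      rw [h1]
      abel
    have hφlab : ∀ u, φ (κ u - g u) = 1 - φ (g u) := by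
      intro u
      rw [map_sub, hφκ]
    have hg1 : ∀ u ∈ L, κ u ≠ g u := by
      intro u hu h
      by_cases h1 : φ (g u) = 0
      · have h2 := hφκ u
        rw [h, h1] at h2
        exact absurd h2 (by decide)
      · have h2 := hlab1 u h1
        rw [h, sub_self] at h2
        apply hτ u hu
        apply Subtype.ext
        have h3 : (τ : W) = -((c u + -g' u : φ.ker) : W) := by
          rw [eq_neg_iff_add_eq_zero]
          exact h2.symm
        rw [h3]
        push_cast
        abel
    have hg2 : ∀ u ∈ L, ∀ u' ∈ L, κ u - g u = κ u' - g u' → u = u' := by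
      intro u hu u' hu' h
      have h1 : φ (g u) = φ (g u') := by
        have h2 := congrArg φ h
        rw [hφlab, hφlab] at h2
        exact sub_right_injective h2
      apply hc2 hu hu'
      by_cases h2 : φ (g u) = 0
      · have h3 : φ (g u') = 0 := by rw [← h1, h2]
        rw [hlab0 u h2, hlab0 u' h3] at h
        exact Subtype.ext (add_left_cancel h)
      · have h3 : φ (g u') ≠ 0 := by rw [← h1]; exact h2
        rw [hlab1 u h2, hlab1 u' h3] at h
        exact Subtype.ext (add_left_cancel h)
    -- the remaining children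
    set U := insert ζ (I.image v0 ∪ L.image κ) with hU
    have hd1 : Disjoint (I.image v0) (L.image κ) := by
      rw [disjoint_left]
      intro a ha ha'
      obtain ⟨y, hy, rfl⟩ := mem_image.1 ha
      obtain ⟨u, hu, h1⟩ := mem_image.1 ha'
      have h2 := hφκ u
      rw [h1, hv0φ y hy] at h2
      exact absurd h2 (by decide)
    have hζn : ζ ∉ I.image v0 ∪ L.image κ := by
      rw [mem_union]
      rintro (h1 | h1)
      · obtain ⟨y, hy, h2⟩ := mem_image.1 h1
        exact (mem_erase.1 (hv0 y hy)).1 h2
      · obtain ⟨u, hu, h2⟩ := mem_image.1 h1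
        have h3 := hφκ u
        rw [h2, hφζ] at h3
        exact absurd h3 (by decide)
    have hUcard : U.card = I.card + L.card + 1 := by
      rw [hU, card_insert_of_notMem hζn, card_union_of_disjoint hd1, card_image_of_injOn hv0i,
        card_image_of_injOn hκi]
    have hIC : I ⊆ C := inter_subset_right
    have hle := card_le_card hIC
    have hrest : (C \ I).card = ((univ : Finset W) \ U).card := by
      rw [card_sdiff_of_subset hIC, card_sdiff_of_subset (subset_univ _), card_univ, hUcard]
      omega
    obtain ⟨v1, hv1, hv1i⟩ := exists_inj (C \ I) ((univ : Finset W) \ U) hrest.le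
    set v : V → W := fun y => if y ∈ I then v0 y else v1 y with hv
    have hvI : ∀ y ∈ I, v y = v0 y := fun y hy => by simp only [hv, if_pos hy]
    have hvn : ∀ y, y ∉ I → v y = v1 y := fun y hy => by simp only [hv, if_neg hy]
    have hgv : ∀ u ∈ L, (if par u ∈ C then v (par u) else x u) = g u := by
      intro u hu
      by_cases h1 : par u ∈ C
      · have h2 : par u ∈ I := mem_inter.2 ⟨mem_image_of_mem _ hu, h1⟩
        simp only [hg, h1, if_true]
        exact hvI _ h2
      · simp only [hg, h1, if_false]
    have hvζ : ∀ y ∈ C, v y ≠ ζ := by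
      intro y hy
      by_cases h1 : y ∈ I
      · rw [hvI y h1]
        exact (mem_erase.1 (hv0 y h1)).1
      · rw [hvn y h1]
        intro h2
        have h3 := (mem_sdiff.1 (hv1 y (mem_sdiff.2 ⟨hy, h1⟩))).2
        rw [h2] at h3
        exact h3 (mem_insert_self _ _)
    have hvi : Set.InjOn v C := by
      intro y hy y' hy' h
      rw [mem_coe] at hy hy'
      by_cases h1 : y ∈ I <;> by_cases h2 : y' ∈ I
      · rw [hvI y h1, hvI y' h2] at h
        exact hv0i h1 h2 h
      · rw [hvI y h1, hvn y' h2] at h
        exfalso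
        have h3 := (mem_sdiff.1 (hv1 y' (mem_sdiff.2 ⟨hy', h2⟩))).2
        rw [← h] at h3
        exact h3 (mem_insert_of_mem (mem_union_left _ (mem_image_of_mem _ h1)))
      · rw [hvn y h1, hvI y' h2] at h
        exfalso
        have h3 := (mem_sdiff.1 (hv1 y (mem_sdiff.2 ⟨hy, h1⟩))).2
        rw [h] at h3
        exact h3 (mem_insert_of_mem (mem_union_left _ (mem_image_of_mem _ h2)))
      · rw [hvn y h1, hvn y' h2] at h
        exact hv1i (mem_sdiff.2 ⟨hy, h1⟩) (mem_sdiff.2 ⟨hy', h2⟩) h
    refine ⟨v, κ, hvζ, hvi, ?_, ?_, ?_⟩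
    · intro u hu u' hu' h
      rw [hgv u hu, hgv u' hu'] at h
      exact hg2 u hu u' hu' h
    · intro u hu
      rw [hgv u hu]
      exact hg1 u hu
    · intro w
      by_cases hw : w ∈ U
      · rcases mem_insert.1 hw with h1 | h1
        · exact Or.inl h1
        · rcases mem_union.1 h1 with h2 | h2
          · obtain ⟨y, hy, h3⟩ := mem_image.1 h2
            right
            left
            exact ⟨y, hIC hy, by rw [hvI y hy]; exact h3⟩
          · obtain ⟨u, hu, h3⟩ := mem_image.1 h2
            right
            right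
            exact ⟨u, hu, h3⟩
      · have h1 : (C \ I).image v1 = (univ : Finset W) \ U := by
          apply eq_of_subset_of_card_le
          · intro a ha
            obtain ⟨y, hy, rfl⟩ := mem_image.1 ha
            exact hv1 y hy
          · rw [card_image_of_injOn hv1i, hrest]
        have h2 : w ∈ (C \ I).image v1 := by
          rw [h1]
          exact mem_sdiff.2 ⟨mem_univ _, hw⟩
        obtain ⟨y, hy, h3⟩ := mem_image.1 h2
        rw [mem_sdiff] at hy
        right
        left
        exact ⟨y, hy.1, by rw [hvn y hy.2]; exact h3⟩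

end Pool.Agent.Helper80.GH
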