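import Pool.Agent.Helper80.GH.Colours
import Pool.Agent.Helper80.GH.Star
import Pool.Agent.Helper80.GH.Div

/-!
# The problem of one star, in two phases
-/

namespace Pool.Agent.Helper80.GH

open Finset

/-- The labels of `I` are chosen first, then the leaves become known, and then everything else is
chosen. -/
lemma two_phase {V : Type} [DecidableEq V] (M t φ : ℕ) (C I : Finset V) (hI : I ⊆ C) (m : ℕ)
    (hcard : C.card + 1 + m = M) (hIm : I.card ≤ m) (h2 : 2 * m + 2 ≤ M ∨ m = 0) :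
    ∃ e : V → ℕ, ∀ L : Finset V, L.card = m → ∀ G : V → ℤ, ∃ (e' : V → ℕ) (κ : V → ℤ),
      (∀ y ∈ I, e' y = e y) ∧ (∀ y ∈ C, t ≤ e' y ∧ e' y < t + M) ∧ Set.InjOn e' C ∧
      (∀ y ∈ C, ¬ (e' y : ℤ) ≡ φ [ZMOD (M : ℤ)]) ∧
      (∀ u ∈ L, ∀ u' ∈ L, κ u - G u ≡ κ u' - G u' [ZMOD (M : ℤ)] → u = u') ∧
      (∀ u ∈ L, ¬ κ u ≡ G u - t [ZMOD (M : ℤ)]) ∧
      ∀ w : ℤ, w ≡ φ - t [ZMOD (M : ℤ)] ∨ (∃ y ∈ C, (e' y : ℤ) - t ≡ w [ZMOD (M : ℤ)]) ∨
        ∃ u ∈ L, κ u ≡ w [ZMOD (M : ℤ)] := by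
  classical
  have hM : (0 : ℤ) < M := by omega
  obtain ⟨ζ, hζ⟩ : ∃ ζ, ζ = ((φ : ℤ) - t) % M := ⟨_, rfl⟩
  have hζ0 : 0 ≤ ζ := hζ ▸ Int.emod_nonneg _ hM.ne'
  have hζM : ζ < M := hζ ▸ Int.emod_lt_of_pos _ hM
  have hζφ : ζ ≡ (φ : ℤ) - t [ZMOD (M : ℤ)] := hζ ▸ Int.mod_modEq _ _
  -- positions of the first children
  let i : V → ℤ := fun y => if h : y ∈ I then ((I.equivFin ⟨y, h⟩).val : ℤ) + 1 else 0
  have hi : ∀ y (h : y ∈ I), i y = ((I.equivFin ⟨y, h⟩).val : ℤ) + 1 := fun y h => dif_pos h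
  have hi1 : ∀ y ∈ I, 1 ≤ i y ∧ i y ≤ I.card := by
    intro y hy
    rw [hi y hy]
    have := (I.equivFin ⟨y, hy⟩).2
    omega
  have hi2 : Set.InjOn i I := by
    intro y hy y' hy' h
    rw [mem_coe] at hy hy'
    rw [hi y hy, hi y' hy'] at h
    have h1 : (I.equivFin ⟨y, hy⟩) = (I.equivFin ⟨y', hy'⟩) := Fin.ext (by omega)
    exact congrArg Subtype.val (I.equivFin.injective h1)
  -- the label at a position
  let lab : ℤ → ℕ := fun p => t + ((ζ + p) % M).toNat
  have hlab : ∀ p, (lab p : ℤ) = t + (ζ + p) % M := by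
    intro p
    simp only [lab]
    push_cast
    rw [Int.toNat_of_nonneg (Int.emod_nonneg _ hM.ne')]
  have hlab' : ∀ p, (lab p : ℤ) - t ≡ ζ + p [ZMOD (M : ℤ)] := by
    intro p
    rw [hlab, add_sub_cancel_left]
    exact Int.mod_modEq _ _
  refine ⟨fun y => lab (i y), ?_⟩
  intro L hL G
  obtain ⟨x, hx1, hx2, hx3, hx4⟩ := exists_colours L M I.card (by omega) (fun u => G u - t - ζ)
  have hIC := card_le_card hI
  set J := Icc ((I.card : ℤ) + 1) (M - 1) \ L.image x with hJ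
  have hxsub : L.image x ⊆ Icc ((I.card : ℤ) + 1) (M - 1) := by
    intro p hp
    obtain ⟨u, hu, rfl⟩ := mem_image.1 hp
    have h3 := hx1 u hu
    have h4 : 0 < L.card := card_pos.2 ⟨u, hu⟩
    rw [mem_Icc]
    omega
  have hxc : (L.image x).card = m := by
    rw [card_image_of_injOn (fun u hu v hv h => hx2 u hu v hv h), hL]
  have hJc : (C \ I).card = J.card := by
    rw [hJ, card_sdiff_of_subset hxsub, card_sdiff_of_subset hI, hxc, Int.card_Icc]
    omega
  obtain ⟨j, hj1, hj2⟩ := exists_inj (C \ I) J hJc.le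
  set pos : V → ℤ := fun y => if y ∈ I then i y else j y with hpos
  have hposI : ∀ y ∈ I, pos y = i y := fun y hy => by simp only [hpos, if_pos hy]
  have hposn : ∀ y, y ∉ I → pos y = j y := fun y hy => by simp only [hpos, if_neg hy]
  have hjJ : ∀ y ∈ C, y ∉ I → (I.card : ℤ) + 1 ≤ j y ∧ j y ≤ M - 1 ∧ j y ∉ L.image x := by
    intro y hy hyI
    have h := mem_sdiff.1 (hj1 y (mem_sdiff.2 ⟨hy, hyI⟩))
    rw [mem_Icc] at h
    exact ⟨h.1.1, h.1.2, h.2⟩
  have hpos1 : ∀ y ∈ C, 1 ≤ pos y ∧ pos y ≤ M - 1 := by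
    intro y hy
    by_cases h : y ∈ I
    · rw [hposI y h]
      have := hi1 y h
      omega
    · rw [hposn y h]
      have := hjJ y hy h
      omega
  have hpos2 : Set.InjOn pos C := by
    intro y hy y' hy' h
    rw [mem_coe] at hy hy'
    by_cases h1 : y ∈ I <;> by_cases h2 : y' ∈ I
    · rw [hposI y h1, hposI y' h2] at h
      exact hi2 h1 h2 h
    · rw [hposI y h1, hposn y' h2] at h
      have h3 := hi1 y h1
      have h4 := hjJ y' hy' h2
      omega
    · rw [hposn y h1, hposI y' h2] at h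
      have h3 := hi1 y' h2
      have h4 := hjJ y hy h1
      omega
    · rw [hposn y h1, hposn y' h2] at h
      exact hj2 (mem_sdiff.2 ⟨hy, h1⟩) (mem_sdiff.2 ⟨hy', h2⟩) h
  have hpos3 : ∀ y ∈ C, pos y ∉ L.image x := by
    intro y hy
    by_cases h : y ∈ I
    · rw [hposI y h]
      intro h1
      have h2 := hxsub h1
      rw [mem_Icc] at h2
      have := hi1 y h
      omega
    · rw [hposn y h]
      exact (hjJ y hy h).2.2
  have hcov : C.image pos ∪ L.image x = Icc (1 : ℤ) (M - 1) := by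
    apply eq_of_subset_of_card_le
    · intro p hp
      rcases mem_union.1 hp with h | h
      · obtain ⟨y, hy, rfl⟩ := mem_image.1 h
        rw [mem_Icc]
        exact hpos1 y hy
      · have := hxsub h
        rw [mem_Icc] at this ⊢
        omega
    · rw [card_union_of_disjoint, card_image_of_injOn hpos2, hxc, Int.card_Icc]
      · omega
      · rw [disjoint_left]
        intro p hp
        obtain ⟨y, hy, rfl⟩ := mem_image.1 hp
        exact hpos3 y hy
  refine ⟨fun y => lab (pos y), fun u => ζ + x u, ?_, ?_, ?_, ?_, ?_, ?_, ?_⟩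
  · intro y hy
    simp only
    rw [hposI y hy]
  · intro y _
    have h1 := hlab (pos y)
    have h3 := Int.emod_nonneg (ζ + pos y) hM.ne'
    have h4 := Int.emod_lt_of_pos (ζ + pos y) hM
    simp only
    omega
  · intro y hy y' hy' h
    rw [mem_coe] at hy hy'
    simp only at h
    apply hpos2 hy hy'
    have h1 := hlab' (pos y)
    rw [h] at h1
    have h3 := h1.symm.trans (hlab' (pos y'))
    have h4 := h3.add_left_cancel' ζ
    have h5 := hpos1 y hy
    have h6 := hpos1 y' hy'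
    exact int_eq_of_modEq h4 (by omega) (by omega)
  · intro y hy h
    have h1 := hlab' (pos y)
    have h3 := (h.sub_right (t : ℤ)).symm.trans h1
    have h4 := (hζφ.trans h3)
    have h5 : (0 : ℤ) ≡ pos y [ZMOD (M : ℤ)] := by
      have h6 : ζ + 0 ≡ ζ + pos y [ZMOD (M : ℤ)] := by rw [add_zero]; exact h4
      exact h6.add_left_cancel' ζ
    have h6 := hpos1 y hy
    have h7 := int_eq_of_modEq h5 (by omega) (by omega)
    omega
  · intro u hu u' hu' h
    apply hx4 u hu u' hu'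
    have h1 := h.add_right (t : ℤ)
    have h3 : x u - (G u - t - ζ) = ζ + x u - G u + t := by ring
    have h4 : x u' - (G u' - t - ζ) = ζ + x u' - G u' + t := by ring
    rw [h3, h4]
    exact h1
  · intro u hu h
    apply hx3 u hu
    have h1 := h.sub_right ζ
    have h3 : ζ + x u - ζ = x u := by ring
    rw [h3] at h1
    exact h1
  · intro w
    obtain ⟨q, hq⟩ : ∃ q, q = (w - ζ) % (M : ℤ) := ⟨_, rfl⟩
    have hq0 : 0 ≤ q := hq ▸ Int.emod_nonneg _ hM.ne'
    have hqM : q < M := hq ▸ Int.emod_lt_of_pos _ hM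
    have hqw : ζ + q ≡ w [ZMOD (M : ℤ)] := by
      have h1 : q ≡ w - ζ [ZMOD (M : ℤ)] := by
        rw [hq]
        exact Int.mod_modEq _ _
      have h3 := h1.add_left ζ
      have h4 : ζ + (w - ζ) = w := by ring
      rwa [h4] at h3
    rcases hq0.eq_or_lt with h | h
    · left
      rw [← h, add_zero] at hqw
      exact hqw.symm.trans hζφ
    · right
      have h1 : q ∈ C.image pos ∪ L.image x := by
        rw [hcov, mem_Icc]
        omega
      rcases mem_union.1 h1 with h3 | h3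
      · obtain ⟨y, hy, h4⟩ := mem_image.1 h3
        left
        refine ⟨y, hy, ?_⟩
        have h5 := hlab' (pos y)
        rw [h4] at h5
        simp only
        rw [h4]
        exact h5.trans hqw
      · obtain ⟨u, hu, h4⟩ := mem_image.1 h3
        right
        refine ⟨u, hu, ?_⟩
        simp only
        rw [h4]
        exact hqw

variable {V : Type} [Fintype V] [DecidableEq V]

/-- The condition for one star, cyclic version. -/
def StarC (r : V) (par : V → V) (M t : ℕ) (L : Finset V) (f : V → ℕ) (b : V) : Prop :=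
  (∀ y ∈ ch r par b, t ≤ f y ∧ f y < t + M) ∧ Set.InjOn f (ch r par b) ∧
    (∀ y ∈ ch r par b, ¬ (f y : ℤ) ≡ f (par b) [ZMOD (M : ℤ)]) ∧
    ∃ κ : V → ℤ,
      (∀ u ∈ L, ∀ u' ∈ L, κ u - f (par u) ≡ κ u' - f (par u') [ZMOD (M : ℤ)] → u = u') ∧
      (∀ u ∈ L, ¬ κ u ≡ f (par u) - t [ZMOD (M : ℤ)]) ∧
      ∀ w : ℤ, w ≡ f (par b) - t [ZMOD (M : ℤ)] ∨
        (∃ y ∈ ch r par b, (f y : ℤ) - t ≡ w [ZMOD (M : ℤ)]) ∨ ∃ u ∈ L, κ u ≡ w [ZMOD (M : ℤ)]

lemma StarC.congr {r : V} {par : V → V} {M t : ℕ} {L : Finset V} {f f' : V → ℕ} {b : V}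
    (h : StarC r par M t L f b) (h1 : ∀ y ∈ ch r par b, f' y = f y)
    (h2 : f' (par b) = f (par b)) (h3 : ∀ u ∈ L, f' (par u) = f (par u)) :
    StarC r par M t L f' b := by
  obtain ⟨a1, a2, a3, κ, a4, a5, a6⟩ := h
  refine ⟨?_, ?_, ?_, κ, ?_, ?_, ?_⟩
  · intro y hy
    rw [h1 y hy]
    exact a1 y hy
  · intro y hy y' hy' hyy
    rw [h1 y hy, h1 y' hy'] at hyy
    exact a2 hy hy' hyy
  · intro y hy
    rw [h1 y hy, h2]
    exact a3 y hy
  · intro u hu u' hu' huu
    rw [h3 u hu, h3 u' hu'] at huu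
    exact a4 u hu u' hu' huu
  · intro u hu
    rw [h3 u hu]
    exact a5 u hu
  · intro w
    rw [h2]
    rcases a6 w with h | ⟨y, hy, h⟩ | h
    · exact Or.inl h
    · refine Or.inr (Or.inl ⟨y, hy, ?_⟩)
      rw [h1 y hy]
      exact h
    · exact Or.inr (Or.inr h)

end Pool.Agent.Helper80.GH
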