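import Pool.Agent.Helper80.GH.Vspace
import Pool.Agent.Helper80.GH.Hom
import Pool.Agent.Helper80.GH.Criterion

/-!
# Trees with `2 ^ k` edges: the stars
-/

namespace Pool.Agent.Helper80.GH

open Finset Pool.Agent.Helper19.GH

/-- The distribution of the leaves. -/
lemma supply {V : Type} [DecidableEq V] (K Λ : Finset V) (c : V → V) (r : V)
    (hc : ∀ u ∈ Λ, c u = r ∨ c u ∈ K) (m : V → ℕ) (h : ∑ b ∈ K, m b ≤ Λ.card) :
    ∃ (Sur : Finset V) (L : V → Finset V), Sur ⊆ K ∧ (∀ b ∈ K, L b ⊆ Λ ∧ (L b).card = m b) ∧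
      (∀ b ∈ K, ∀ b' ∈ K, b ≠ b' → Disjoint (L b) (L b')) ∧
      (∀ b ∈ Sur, ∀ u ∈ L b, c u = b) ∧
      (∀ b ∈ K, b ∉ Sur → ∀ u ∈ L b, c u = b ∨ c u = r ∨ c u ∈ Sur) := by
  classical
  set Λb : V → Finset V := fun b => Λ.filter fun u => c u = b with hΛb
  set Sur := K.filter fun b => m b ≤ (Λb b).card with hSur
  have h0 : ∀ b, ∃ C : Finset V, C ⊆ Λb b ∧ C.card = min (m b) (Λb b).card := fun b =>
    exists_subset_card_eq (min_le_right _ _)
  choose C hC1 hC2 using h0
  have hmemC : ∀ b, ∀ u ∈ C b, u ∈ Λ ∧ c u = b := by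
    intro b u hu
    have h1 := hC1 b hu
    rw [hΛb] at h1
    exact mem_filter.1 h1
  have hCd : ∀ b b', b ≠ b' → Disjoint (C b) (C b') := by
    intro b b' hbb
    rw [disjoint_left]
    intro u hu hu'
    exact hbb ((hmemC b u hu).2.symm.trans (hmemC b' u hu').2)
  have hCm : ∀ b, (C b).card ≤ m b := fun b => by
    rw [hC2]
    exact min_le_left _ _
  have hCU : K.biUnion C ⊆ Λ := by
    intro u hu
    obtain ⟨b, _, hu'⟩ := mem_biUnion.1 hu
    exact (hmemC b u hu').1
  obtain ⟨E, hE1, hE2⟩ := exists_disjoint (fun b => m b - (C b).card) K (Λ \ K.biUnion C) (by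
    rw [card_sdiff_of_subset hCU, card_biUnion (fun b _ b' _ hbb => hCd b b' hbb)]
    have h1 : ∑ b ∈ K, (m b - (C b).card) + ∑ b ∈ K, (C b).card = ∑ b ∈ K, m b := by
      rw [← sum_add_distrib]
      apply sum_congr rfl
      intro b _
      have := hCm b
      omega
    omega)
  have hCE : ∀ b ∈ K, ∀ b' ∈ K, Disjoint (C b) (E b') := by
    intro b hb b' hb'
    rw [disjoint_left]
    intro u hu hu'
    exact (mem_sdiff.1 ((hE1 b' hb').1 hu')).2 (mem_biUnion.2 ⟨b, hb, hu⟩)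
  refine ⟨Sur, fun b => C b ∪ E b, filter_subset _ _, ?_, ?_, ?_, ?_⟩
  · intro b hb
    refine ⟨union_subset (fun u hu => (hmemC b u hu).1) ((hE1 b hb).1.trans sdiff_subset), ?_⟩
    rw [card_union_of_disjoint (hCE b hb b hb), (hE1 b hb).2]
    have := hCm b
    omega
  · intro b hb b' hb' hbb
    rw [disjoint_union_left, disjoint_union_right, disjoint_union_right]
    exact ⟨⟨hCd b b' hbb, hCE b hb b' hb'⟩, (hCE b' hb' b hb).symm, hE2 b hb b' hb' hbb⟩
  · intro b hb u hu
    rw [hSur, mem_filter] at hb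
    rcases mem_union.1 hu with h1 | h1
    · exact (hmemC b u h1).2
    · exfalso
      have h2 := (hE1 b hb.1).2
      have h3 := hC2 b
      rw [min_eq_left hb.2] at h3
      have h4 : E b = ∅ := by
        rw [← card_eq_zero]
        omega
      rw [h4] at h1
      exact notMem_empty _ h1
  · intro b hb _ u hu
    rcases mem_union.1 hu with h1 | h1
    · exact Or.inl (hmemC b u h1).2
    · have h2 := mem_sdiff.1 ((hE1 b hb).1 h1)
      rcases hc u h2.1 with h3 | h3
      · exact Or.inr (Or.inl h3)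
      · by_cases h4 : c u ∈ Sur
        · exact Or.inr (Or.inr h4)
        · exfalso
          have h5 : ¬ m (c u) ≤ (Λb (c u)).card := fun h6 => h4 (mem_filter.2 ⟨h3, h6⟩)
          have h6 := hC2 (c u)
          rw [min_eq_right (by omega)] at h6
          have h7 : C (c u) = Λb (c u) := eq_of_subset_of_card_le (hC1 _) h6.ge
          apply h2.2
          rw [mem_biUnion]
          refine ⟨c u, h3, ?_⟩
          rw [h7, hΛb]
          exact mem_filter.2 ⟨h2.1, rfl⟩

variable {V : Type} [Fintype V] [DecidableEq V]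

/-- The condition for one star. -/
def StarOK {k : ℕ} (r : V) (par : V → V) (j : ℕ) (s : Fin k → ZMod 2) (L : Finset V)
    (π : (Fin k → ZMod 2) →+ (Fin k → ZMod 2)) (f : V → Fin k → ZMod 2) (b : V) : Prop :=
  (∀ y ∈ ch r par b, f y - s ∈ Vs k j) ∧ Set.InjOn f (ch r par b) ∧
    ∃ κ : V → Fin k → ZMod 2, (∀ u, κ u ∈ Vs k j) ∧
      (∀ u ∈ L, ∀ u' ∈ L, κ u - π (f (par u) - s) = κ u' - π (f (par u') - s) → u = u') ∧
      (∀ u ∈ L, κ u ≠ π (f (par u) - s)) ∧
      ∀ w ∈ Vs k j, w = π (f (par b) - s) ∨ (∃ y ∈ ch r par b, f y - s = w) ∨ ∃ u ∈ L, κ u = w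

lemma StarOK.congr {k : ℕ} {r : V} {par : V → V} {j : ℕ} {s : Fin k → ZMod 2} {L : Finset V}
    {π : (Fin k → ZMod 2) →+ (Fin k → ZMod 2)} {f f' : V → Fin k → ZMod 2} {b : V}
    (h : StarOK r par j s L π f b) (h1 : ∀ y ∈ ch r par b, f' y = f y)
    (h2 : f' (par b) = f (par b)) (h3 : ∀ u ∈ L, f' (par u) = f (par u)) :
    StarOK r par j s L π f' b := by
  obtain ⟨a1, a2, κ, a3, a4, a5, a6⟩ := h
  refine ⟨?_, ?_, κ, a3, ?_, ?_, ?_⟩
  · intro y hy
    rw [h1 y hy]
    exact a1 y hy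
  · intro y hy y' hy' hyy
    rw [h1 y hy, h1 y' hy'] at hyy
    exact a2 hy hy' hyy
  · intro u hu u' hu' huu
    rw [h3 u hu, h3 u' hu'] at huu
    exact a4 u hu u' hu' huu
  · intro u hu
    rw [h3 u hu]
    exact a5 u hu
  · intro w hw
    rw [h2]
    rcases a6 w hw with h | ⟨y, hy, h⟩ | h
    · exact Or.inl h
    · refine Or.inr (Or.inl ⟨y, hy, ?_⟩)
      rw [h1 y hy]
      exact h
    · exact Or.inr (Or.inr h)

/-- Construction of one star. `f` is the labelling of the vertices which are not children of the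
centre. -/
lemma exists_star {k : ℕ} (r : V) (par : V → V) (j : ℕ) (hj : j ≤ k) (s : Fin k → ZMod 2)
    (L : Finset V) (b : V) (hcard : (ch r par b).card + 1 + L.card = 2 ^ j)
    (hL : 2 * L.card < 2 ^ j) (ζ : Fin k → ZMod 2) (hζ : ζ ∈ Vs k j)
    (x : V → Fin k → ZMod 2) (hx : ∀ u, x u ∈ Vs k j) :
    ∃ v : V → Fin k → ZMod 2, (∀ y, v y ∈ Vs k j) ∧
      ∀ (f : V → Fin k → ZMod 2) (π : (Fin k → ZMod 2) →+ (Fin k → ZMod 2)),
        (∀ y ∈ Vs k j, π y = y) → (∀ y ∈ ch r par b, f y = s + v y) →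
        π (f (par b) - s) = ζ → (∀ u ∈ L, par u ∉ ch r par b → π (f (par u) - s) = x u) →
        StarOK r par j s L π f b := by
  obtain ⟨v, κ, hv, hκ, _, h2, h3, h4, h5⟩ := star_block hj (ch r par b) L hcard hL par ζ hζ x hx
  refine ⟨v, hv, ?_⟩
  intro f π hπ hf hfb hfx
  have hfs : ∀ y ∈ ch r par b, f y - s = v y := by
    intro y hy
    rw [hf y hy]
    abel
  have hif : ∀ u ∈ L, π (f (par u) - s) =
      if par u ∈ ch r par b then v (par u) else x u := by
    intro u hu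
    by_cases h : par u ∈ ch r par b
    · rw [if_pos h, hfs _ h, hπ _ (hv _)]
    · rw [if_neg h, hfx u hu h]
  refine ⟨?_, ?_, κ, hκ, ?_, ?_, ?_⟩
  · intro y hy
    rw [hfs y hy]
    exact hv y
  · intro y hy y' hy' hyy
    rw [hf y hy, hf y' hy'] at hyy
    exact h2 hy hy' (add_left_cancel hyy)
  · intro u hu u' hu' huu
    rw [hif u hu, hif u' hu'] at huu
    exact h3 u hu u' hu' huu
  · intro u hu
    rw [hif u hu]
    exact h4 u hu
  · intro w hw
    rw [hfb]
    rcases h5 w hw with h | ⟨y, hy, h⟩ | h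
    · exact Or.inl h
    · refine Or.inr (Or.inl ⟨y, hy, ?_⟩)
      rw [hfs y hy]
      exact h
    · exact Or.inr (Or.inr h)

/-- Top-down construction of the deficit stars. -/
lemma deficit {k : ℕ} (r : V) (par : V → V) (d : V → ℕ)
    (hd : ∀ x, x ≠ r → d x = d (par x) + 1) (j : V → ℕ) (s : V → Fin k → ZMod 2)
    (L : V → Finset V) (Sur : Finset V) (f0 : V → Fin k → ZMod 2) :
    ∀ (m : ℕ) (D : Finset V), D.card = m → (∀ b ∈ D, b ≠ r) → (∀ b ∈ D, b ∉ Sur) →
      (∀ b ∈ D, j b ≤ k ∧ (ch r par b).card + 1 + (L b).card = 2 ^ j b ∧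
        2 * (L b).card < 2 ^ j b) →
      (∀ b ∈ D, ∀ u ∈ L b, par u ∈ ch r par b ∨ par u = r ∨ ∃ b' ∈ Sur, par u ∈ ch r par b') →
      ∃ f : V → Fin k → ZMod 2, f r = f0 r ∧ (∀ b' ∈ Sur, ∀ y ∈ ch r par b', f y = f0 y) ∧
        ∀ b ∈ D, StarOK r par (j b) (s b) (L b) (lo k (j b)) f b := by
  intro m
  induction m with
  | zero =>
    intro D hD _ _ _ _
    rw [card_eq_zero] at hD
    subst hD
    exact ⟨f0, rfl, fun _ _ _ _ => rfl, by simp⟩
  | succ m ih =>
    intro D hD hDr hDS hDc hDL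
    have hne : D.Nonempty := by
      rw [← card_pos]
      omega
    obtain ⟨b, hb, hmax⟩ := exists_max_image D d hne
    obtain ⟨f', hf1, hf2, hf3⟩ := ih (D.erase b) (by rw [card_erase_of_mem hb]; omega)
      (fun b' hb' => hDr b' (mem_of_mem_erase hb')) (fun b' hb' => hDS b' (mem_of_mem_erase hb'))
      (fun b' hb' => hDc b' (mem_of_mem_erase hb')) (fun b' hb' => hDL b' (mem_of_mem_erase hb'))
    obtain ⟨hjk, hc1, hc2⟩ := hDc b hb
    obtain ⟨v, hv, hstar⟩ := exists_star r par (j b) hjk (s b) (L b) b hc1 hc2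
      (lo k (j b) (f' (par b) - s b)) (lo_mem _ _ _)
      (fun u => lo k (j b) (f' (par u) - s b)) (fun u => lo_mem _ _ _)
    have hdisj : ∀ b', b' ≠ b → ∀ y ∈ ch r par b', y ∉ ch r par b := by
      intro b' hbb y hy hy'
      rw [mem_ch] at hy hy'
      exact hbb (hy.2.symm.trans hy'.2)
    have hrch : r ∉ ch r par b := by
      rw [mem_ch]
      intro h
      exact h.1 rfl
    have hparnot : ∀ b' ∈ D, par b' ∉ ch r par b := by
      intro b' hb' h
      rw [mem_ch] at h
      have h1 := hd b' (hDr b' hb')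
      have h2 := hd (par b') h.1
      rw [h.2] at h2
      have := hmax b' hb'
      omega
    set f : V → Fin k → ZMod 2 := fun y => if y ∈ ch r par b then s b + v y else f' y with hf
    have hfb : ∀ y ∈ ch r par b, f y = s b + v y := fun y hy => by simp only [hf, if_pos hy]
    have hfn : ∀ y, y ∉ ch r par b → f y = f' y := fun y hy => by simp only [hf, if_neg hy]
    refine ⟨f, ?_, ?_, ?_⟩
    · rw [hfn r hrch]
      exact hf1
    · intro b' hb' y hy
      have hbb : b' ≠ b := fun h => hDS b hb (h ▸ hb')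
      rw [hfn y (hdisj b' hbb y hy)]
      exact hf2 b' hb' y hy
    · intro b' hb'
      by_cases hbb : b' = b
      · rw [hbb]
        refine hstar f (lo k (j b)) (fun y hy => lo_eq hy) hfb ?_ ?_
        · rw [hfn _ (hparnot b hb)]
        · intro u _ hu
          rw [hfn _ hu]
      · refine (hf3 b' (mem_erase.2 ⟨hbb, hb'⟩)).congr ?_ ?_ ?_
        · intro y hy
          exact hfn y (hdisj b' hbb y hy)
        · exact hfn _ (hparnot b' hb')
        · intro u hu
          apply hfn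
          rcases hDL b' hb' u hu with h | h | ⟨b'', hb'', h⟩
          · exact hdisj b' hbb _ h
          · rw [h]
            exact hrch
          · exact hdisj b'' (fun h' => hDS b hb (h' ▸ hb'')) _ h

end Pool.Agent.Helper80.GH
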