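import Pool.Agent.Helper80.GH.Desc
import Pool.Agent.Helper80.GH.Phase

/-!
# Labelling of a tree whose stars borrow leaves
-/

namespace Pool.Agent.Helper80.GH

open Finset

variable {V : Type} [Fintype V] [DecidableEq V]

/-- The data: a rooted tree, the set `K` of the stars and the set `Λ` of the leaves of the class of
odd depth, the moduli `M`, the beginnings `t` of the blocks and the numbers `m` of missing edges. -/
structure Ctx (r : V) (par : V → V) (d : V → ℕ) (K Λ : Finset V) (M t m : V → ℕ) : Prop where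
  hd : ∀ x, x ≠ r → d x = d (par x) + 1
  hK : ∀ b ∈ K, ¬ Even (d b)
  hΛ : ∀ b ∈ Λ, ¬ Even (d b)
  hcov : ∀ b, ¬ Even (d b) → b ∈ K ∨ b ∈ Λ
  hdisj : Disjoint K Λ
  hΛch : ∀ u ∈ Λ, ch r par u = ∅
  hcard : ∀ b ∈ K, (ch r par b).card + 1 + m b = M b
  h2 : ∀ b ∈ K, 2 * m b + 2 ≤ M b ∨ m b = 0

/-- The weight of a vertex. -/
def wt (K Λ : Finset V) (m : V → ℕ) (x : V) : ℤ :=
  (if x ∈ Λ then 1 else 0) - (if x ∈ K then (m x : ℤ) else 0)

lemma sum_wt (K Λ : Finset V) (m : V → ℕ) (S : Finset V) :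
    ∑ x ∈ S, wt K Λ m x = ((Λ ∩ S).card : ℤ) - ∑ b ∈ K ∩ S, (m b : ℤ) := by
  simp only [wt]
  rw [sum_sub_distrib, ← sum_filter, ← sum_filter, filter_mem_eq_inter, filter_mem_eq_inter,
    sum_const, nsmul_eq_mul, mul_one, inter_comm S Λ, inter_comm S K]

/-- The main recursion. `R` is a set of vertices closed under children which has to be labelled,
`Q` is a set of leaves which are available. -/
lemma process {r : V} {par : V → V} {d : V → ℕ} {K Λ : Finset V} {M t m : V → ℕ}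
    (H : Ctx r par d K Λ M t m) :
    ∀ (N : ℕ) (R : Finset V), R.card = N → (∀ x ∈ R, x ≠ r) →
      (∀ x ∈ R, ∀ c ∈ ch r par x, c ∈ R) → (∀ x ∈ R, par x ∉ R → ¬ Even (d x)) →
      ∀ Q : Finset V, (∀ u ∈ Q, u ∈ Λ ∧ u ∉ R ∧ par u ∉ R) →
      0 ≤ (Q.card : ℤ) + ∑ x ∈ R, wt K Λ m x → ∀ f0 : V → ℕ,
      ∃ (f : V → ℕ) (L : V → Finset V), (∀ x, x ∉ R → f x = f0 x) ∧
        (∀ b ∈ K, b ∈ R → L b ⊆ Q ∪ (Λ ∩ R) ∧ (L b).card = m b ∧
          StarC r par (M b) (t b) (L b) f b) ∧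
        ∀ b ∈ K, b ∈ R → ∀ b' ∈ K, b' ∈ R → b ≠ b' → Disjoint (L b) (L b') := by
  classical
  intro N
  induction N using Nat.strong_induction_on with
  | _ N ih =>
  intro R hRN hRr hcl htop Q hQ hpos f0
  rcases R.eq_empty_or_nonempty with hRe | hRne
  · subst hRe
    exact ⟨f0, fun _ => ∅, fun _ _ => rfl, by simp, by simp⟩
  have hd := H.hd
  obtain ⟨b, hbR, hbpar, hbq⟩ := exists_top hd R hRne hRr hcl (wt K Λ m) Q.card (by positivity)
    hpos
  have hbr := hRr b hbR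
  have hbodd := htop b hbR hbpar
  by_cases hbΛ : b ∈ Λ
  · -- the top is a leaf
    have hbK : b ∉ K := fun h => disjoint_left.1 H.hdisj h hbΛ
    have hwb : wt K Λ m b = 1 := by simp [wt, hbΛ, hbK]
    have hbQ : b ∉ Q := fun h => (hQ b h).2.1 hbR
    obtain ⟨f, L, hf, hL, hLd⟩ := ih (R.erase b).card
      (by rw [← hRN]; exact card_erase_lt_of_mem hbR) (R.erase b) rfl
      (fun x hx => hRr x (mem_of_mem_erase hx)) (by
        intro x hx c hc
        rw [mem_erase]
        refine ⟨?_, hcl x (mem_of_mem_erase hx) c hc⟩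
        rintro rfl
        apply hbpar
        rw [(mem_ch.1 hc).2]
        exact mem_of_mem_erase hx) (by
        intro x hx hx'
        by_cases h1 : par x ∈ R
        · exfalso
          have h2 : par x = b := by
            by_contra h3
            exact hx' (mem_erase.2 ⟨h3, h1⟩)
          have h3 : x ∈ ch r par b := mem_ch.2 ⟨hRr x (mem_of_mem_erase hx), h2⟩
          rw [H.hΛch b hbΛ] at h3
          exact notMem_empty _ h3
        · exact htop x (mem_of_mem_erase hx) h1) (insert b Q) (by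
        intro u hu
        rcases mem_insert.1 hu with h | h
        · rw [h]
          exact ⟨hbΛ, by simp, fun h1 => hbpar (mem_of_mem_erase h1)⟩
        · obtain ⟨h1, h2, h3⟩ := hQ u h
          exact ⟨h1, fun h4 => h2 (mem_of_mem_erase h4), fun h4 => h3 (mem_of_mem_erase h4)⟩) (by
        rw [card_insert_of_notMem hbQ]
        have h1 := add_sum_erase R (wt K Λ m) hbR
        rw [hwb] at h1
        push_cast
        linarith) f0
    refine ⟨f, L, fun x hx => hf x (fun h => hx (mem_of_mem_erase h)), ?_, ?_⟩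
    · intro b' hb' hb'R
      have h1 : b' ≠ b := fun h => hbK (h ▸ hb')
      obtain ⟨h2, h3, h4⟩ := hL b' hb' (mem_erase.2 ⟨h1, hb'R⟩)
      refine ⟨?_, h3, h4⟩
      intro u hu
      rcases mem_union.1 (h2 hu) with h5 | h5
      · rcases mem_insert.1 h5 with h6 | h6
        · rw [h6]
          exact mem_union_right _ (mem_inter.2 ⟨hbΛ, hbR⟩)
        · exact mem_union_left _ h6
      · rw [mem_inter] at h5
        exact mem_union_right _ (mem_inter.2 ⟨h5.1, mem_of_mem_erase h5.2⟩)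
    · intro b1 hb1 hb1R b2 hb2 hb2R hne
      exact hLd b1 hb1 (mem_erase.2 ⟨fun h => hbK (h ▸ hb1), hb1R⟩) b2 hb2
        (mem_erase.2 ⟨fun h => hbK (h ▸ hb2), hb2R⟩) hne
  -- the top is a star
  have hbK : b ∈ K := (H.hcov b hbodd).resolve_right hbΛ
  have hwb : wt K Λ m b = - (m b : ℤ) := by simp [wt, hbΛ, hbK]
  set C := ch r par b with hC
  have hQ0 : (0 : ℤ) ≤ Q.card := by positivity
  obtain ⟨I, hIC, hIm, hIq⟩ := exists_early C (fun y => ∑ x ∈ de r par y, wt K Λ m x) Q.card (m b)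
    hQ0 (by
      rw [sum_de hd, hwb] at hbq
      linarith)
  have hCR : C ⊆ R := fun c hc => hcl b hbR c hc
  have hbC : b ∉ C := by
    intro h
    have := ch_depth hd h
    omega
  have hCeven : ∀ y ∈ C, Even (d y) := by
    intro y hy
    rw [ch_depth hd hy]
    exact Nat.even_add_one.2 hbodd
  have hwC : ∀ y ∈ C, wt K Λ m y = 0 := by
    intro y hy
    have h1 : y ∉ Λ := fun h => H.hΛ y h (hCeven y hy)
    have h2 : y ∉ K := fun h => H.hK y h (hCeven y hy)
    simp [wt, h1, h2]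
  set S := I.biUnion (de r par) with hS
  have hSR : S ⊆ R := by
    intro x hx
    obtain ⟨y, hy, hx⟩ := mem_biUnion.1 hx
    exact de_sub_closed hcl (hCR (hIC hy)) hx
  have hbS : b ∉ S := by
    intro h
    obtain ⟨y, hy, h1⟩ := mem_biUnion.1 h
    exact notMem_de_ch hd (hIC hy) h1
  have hIS : I ⊆ S := fun y hy => mem_biUnion.2 ⟨y, hy, self_mem_de r par y⟩
  have hCS : ∀ y ∈ C, y ∈ S → y ∈ I := by
    intro y hy h
    obtain ⟨y', hy', h1⟩ := mem_biUnion.1 h
    have h2 := de_eq_of_depth hd h1 (by rw [ch_depth hd hy, ch_depth hd (hIC hy')])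
    rw [h2]
    exact hy'
  have hSch : ∀ x ∈ S, ∀ c ∈ ch r par x, c ∈ S := by
    intro x hx c hc
    obtain ⟨y, hy, h1⟩ := mem_biUnion.1 hx
    exact mem_biUnion.2 ⟨y, hy, ch_mem_de h1 hc⟩
  have hSpar : ∀ x ∈ S, x ∉ I → par x ∈ S := by
    intro x hx hxI
    obtain ⟨y, hy, h1⟩ := mem_biUnion.1 hx
    have h2 : x ≠ y := fun h => hxI (h ▸ hy)
    exact mem_biUnion.2 ⟨y, hy, (par_mem_de h1 h2).2⟩
  -- the two parts
  set R1 := S \ I with hR1
  set R2 := R \ (insert b (C ∪ S)) with hR2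
  have hR1R : R1 ⊆ R := sdiff_subset.trans hSR
  have hR2R : R2 ⊆ R := sdiff_subset
  have hR1S : R1 ⊆ S := sdiff_subset
  have hR2not : ∀ x ∈ R2, x ≠ b ∧ x ∉ C ∧ x ∉ S := by
    intro x hx
    have h1 := (mem_sdiff.1 hx).2
    rw [mem_insert, mem_union] at h1
    tauto
  have hbR1 : b ∉ R1 := fun h => hbS (hR1S h)
  have hsum1 : ∑ x ∈ R1, wt K Λ m x = ∑ y ∈ I, ∑ x ∈ de r par y, wt K Λ m x := by
    rw [← sum_de_siblings hd _ b I hIC, ← hS, ← sum_sdiff hIS, ← hR1]
    have : ∑ x ∈ I, wt K Λ m x = 0 := sum_eq_zero fun y hy => hwC y (hIC hy)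
    rw [this, add_zero]
  have hsumR : ∑ x ∈ R, wt K Λ m x = - (m b : ℤ) + ∑ x ∈ R1, wt K Λ m x +
      ∑ x ∈ R2, wt K Λ m x := by
    have h1 : insert b (C ∪ S) ⊆ R := by
      intro x hx
      rcases mem_insert.1 hx with h | h
      · rw [h]
        exact hbR
      · rcases mem_union.1 h with h | h
        · exact hCR h
        · exact hSR h
    have h2 : b ∉ C ∪ S := by
      rw [mem_union]
      tauto
    have h3 : C ∪ S = C ∪ R1 := by
      ext x
      rw [mem_union, mem_union, hR1, mem_sdiff]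
      constructor
      · rintro (h | h)
        · exact Or.inl h
        · by_cases h4 : x ∈ I
          · exact Or.inl (hIC h4)
          · exact Or.inr ⟨h, h4⟩
      · rintro (h | h)
        · exact Or.inl h
        · exact Or.inr h.1
    have h4 : Disjoint C R1 := by
      rw [disjoint_left]
      intro x hx hx'
      rw [hR1, mem_sdiff] at hx'
      exact hx'.2 (hCS x hx hx'.1)
    rw [← sum_sdiff h1, ← hR2, sum_insert h2, hwb, h3, sum_union h4, sum_eq_zero hwC]
    ring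
  -- the first phase
  obtain ⟨e, he⟩ := two_phase (M b) (t b) (f0 (par b)) C I hIC (m b) (H.hcard b hbK) hIm
    (H.h2 b hbK)
  set f1 : V → ℕ := fun y => if y ∈ I then e y else f0 y with hf1
  have hf1I : ∀ y ∈ I, f1 y = e y := fun y hy => by simp only [hf1, if_pos hy]
  have hf1n : ∀ y, y ∉ I → f1 y = f0 y := fun y hy => by simp only [hf1, if_neg hy]
  obtain ⟨f2, L1, hf2, hL1, hL1d⟩ := ih R1.card
    (by rw [← hRN]; exact card_lt_card ⟨hR1R, fun h => hbR1 (h hbR)⟩) R1 rfl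
    (fun x hx => hRr x (hR1R hx)) (by
      intro x hx c hc
      rw [hR1, mem_sdiff] at hx ⊢
      refine ⟨hSch x hx.1 c hc, fun h => ?_⟩
      have h1 := (mem_ch.1 (hIC h)).2
      have h2 := (mem_ch.1 hc).2
      rw [h1] at h2
      exact hbS (h2 ▸ hx.1)) (by
      intro x hx hx'
      rw [hR1, mem_sdiff] at hx hx'
      have h1 := hSpar x hx.1 hx.2
      have h2 : par x ∈ I := by
        by_contra h3
        exact hx' ⟨h1, h3⟩
      have h3 := hCeven _ (hIC h2)
      rw [hd x (hRr x (hSR hx.1)), Nat.even_add_one, not_not]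
      exact h3) Q (by
      intro u hu
      obtain ⟨h1, h2, h3⟩ := hQ u hu
      exact ⟨h1, fun h => h2 (hR1R h), fun h => h3 (hR1R h)⟩) (by
      rw [hsum1]
      have : (0 : ℤ) ≤ m b := by positivity
      linarith) f1
  -- the leaves for `b`
  set U := (K ∩ R1).biUnion L1 with hU
  set Av := (Q ∪ (Λ ∩ R1)) \ U with hAv
  have hUsub : U ⊆ Q ∪ (Λ ∩ R1) := by
    intro u hu
    obtain ⟨b', hb', h1⟩ := mem_biUnion.1 hu
    rw [mem_inter] at hb'
    exact (hL1 b' hb'.1 hb'.2).1 h1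
  have hUcard : (U.card : ℤ) = ∑ b' ∈ K ∩ R1, (m b' : ℤ) := by
    rw [hU, card_biUnion]
    · push_cast
      apply sum_congr rfl
      intro b' hb'
      rw [mem_inter] at hb'
      rw [(hL1 b' hb'.1 hb'.2).2.1]
    · intro b1 hb1 b2 hb2 hne
      rw [mem_coe, mem_inter] at hb1 hb2
      exact hL1d b1 hb1.1 hb1.2 b2 hb2.1 hb2.2 hne
  have hQΛ : Disjoint Q (Λ ∩ R1) := by
    rw [disjoint_left]
    intro u hu hu'
    exact (hQ u hu).2.1 (hR1R (mem_inter.1 hu').2)
  have hAvcard : (Av.card : ℤ) = Q.card + ∑ x ∈ R1, wt K Λ m x := by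
    have h1 := card_sdiff_of_subset hUsub
    have h2 := card_le_card hUsub
    rw [card_union_of_disjoint hQΛ] at h1 h2
    rw [sum_wt, ← hUcard, hAv, h1]
    omega
  obtain ⟨Lb, hLbA, hLbc⟩ := exists_subset_card_eq (s := Av) (n := m b) (by
    rw [hsum1] at hAvcard
    omega)
  obtain ⟨e', κ, he1, he2, he3, he4, he5, he6, he7⟩ := he Lb hLbc (fun u => (f2 (par u) : ℤ))
  set f3 : V → ℕ := fun y => if y ∈ C then e' y else f2 y with hf3
  have hf3C : ∀ y ∈ C, f3 y = e' y := fun y hy => by simp only [hf3, if_pos hy]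
  have hf3n : ∀ y, y ∉ C → f3 y = f2 y := fun y hy => by simp only [hf3, if_neg hy]
  have hAvΛ : ∀ u ∈ Av, u ∈ Q ∨ (u ∈ Λ ∧ u ∈ R1) := by
    intro u hu
    rw [hAv, mem_sdiff, mem_union, mem_inter] at hu
    exact hu.1
  have hR1par : ∀ x ∈ R1, par x ∈ S := fun x hx => by
    rw [hR1, mem_sdiff] at hx
    exact hSpar x hx.1 hx.2
  have hR2S : ∀ x ∈ S, x ∉ R2 := fun x hx h => (hR2not x h).2.2 hx
  -- the second phase
  obtain ⟨f4, L2, hf4, hL2, hL2d⟩ := ih R2.card
    (by rw [← hRN]; exact card_lt_card ⟨hR2R, fun h => (hR2not b (h hbR)).1 rfl⟩) R2 rfl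
    (fun x hx => hRr x (hR2R hx)) (by
      intro x hx c hc
      have h1 := hR2not x hx
      have h2 := (mem_ch.1 hc).2
      rw [hR2, mem_sdiff, mem_insert, mem_union]
      refine ⟨hcl x (hR2R hx) c hc, ?_⟩
      rintro (h | h | h)
      · rw [h] at h2
        rw [h2] at hbpar
        exact hbpar (hR2R hx)
      · rw [hC, mem_ch] at h
        exact h1.1 (h2.symm.trans h.2)
      · by_cases h3 : c ∈ I
        · have h4 := (mem_ch.1 (hIC h3)).2
          exact h1.1 (h2.symm.trans h4)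
        · have h4 := hSpar c h h3
          rw [h2] at h4
          exact h1.2.2 h4) (by
      intro x hx hx'
      have h1 := hR2not x hx
      by_cases h2 : par x ∈ R
      · have h3 : par x = b ∨ par x ∈ C ∨ par x ∈ S := by
          by_contra h4
          push Not at h4
          apply hx'
          rw [hR2, mem_sdiff, mem_insert, mem_union]
          exact ⟨h2, by tauto⟩
        rcases h3 with h3 | h3 | h3
        · exact absurd (mem_ch.2 ⟨hRr x (hR2R hx), h3⟩) h1.2.1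
        · rw [hd x (hRr x (hR2R hx)), Nat.even_add_one, not_not]
          exact hCeven _ h3
        · exact absurd (hSch _ h3 x (mem_ch.2 ⟨hRr x (hR2R hx), rfl⟩)) h1.2.2
      · exact htop x (hR2R hx) h2) (Av \ Lb) (by
      intro u hu
      rcases hAvΛ u (mem_sdiff.1 hu).1 with h | ⟨h, h'⟩
      · obtain ⟨h1, h2, h3⟩ := hQ u h
        exact ⟨h1, fun h => h2 (hR2R h), fun h => h3 (hR2R h)⟩
      · exact ⟨h, hR2S u (hR1S h'), hR2S _ (hR1par u h')⟩) (by
      have h1 := card_sdiff_of_subset hLbA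
      have h2 := card_le_card hLbA
      rw [hsumR] at hpos
      rw [h1, hLbc]
      rw [hLbc] at h2
      push_cast [Nat.cast_sub h2]
      rw [hAvcard]
      linarith) f3
  -- comparison of the labellings
  have hf4S : ∀ x ∈ S, f4 x = f2 x := by
    intro x hx
    rw [hf4 x (hR2S x hx)]
    by_cases h : x ∈ C
    · have h1 := hCS x h hx
      have h2 : x ∉ R1 := fun h' => (mem_sdiff.1 h').2 h1
      rw [hf3C x h, he1 x h1, hf2 x h2, hf1I x h1]
    · rw [hf3n x h]
  have hf4R : ∀ x, x ∉ R → f4 x = f2 x := by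
    intro x hx
    rw [hf4 x (fun h => hx (hR2R h)), hf3n x (fun h => hx (hCR h))]
  have hf2R : ∀ x, x ∉ R → f2 x = f0 x := by
    intro x hx
    rw [hf2 x (fun h => hx (hR1R h)), hf1n x (fun h => hx (hCR (hIC h)))]
  have hf4C : ∀ y ∈ C, f4 y = e' y := by
    intro y hy
    rw [hf4 y (fun h => (hR2not y h).2.1 hy), hf3C y hy]
  have hAvf : ∀ u ∈ Av, f4 (par u) = f2 (par u) := by
    intro u hu
    rcases hAvΛ u hu with h | ⟨_, h'⟩
    · exact hf4R _ (hQ u h).2.2
    · exact hf4S _ (hR1par u h')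
  have hstar : StarC r par (M b) (t b) Lb f4 b := by
    have h4 : f4 (par b) = f0 (par b) := by rw [hf4R _ hbpar, hf2R _ hbpar]
    refine ⟨?_, ?_, ?_, κ, ?_, ?_, ?_⟩
    · intro y hy
      rw [hf4C y hy]
      exact he2 y hy
    · intro y hy y' hy' hyy
      rw [hf4C y hy, hf4C y' hy'] at hyy
      exact he3 hy hy' hyy
    · intro y hy
      rw [hf4C y hy, h4]
      exact he4 y hy
    · intro u hu u' hu' h
      rw [hAvf u (hLbA hu), hAvf u' (hLbA hu')] at h
      exact he5 u hu u' hu' h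
    · intro u hu
      rw [hAvf u (hLbA hu)]
      exact he6 u hu
    · intro w
      rw [h4]
      rcases he7 w with h | ⟨y, hy, h⟩ | h
      · exact Or.inl h
      · refine Or.inr (Or.inl ⟨y, hy, ?_⟩)
        rw [hf4C y hy]
        exact h
      · exact Or.inr (Or.inr h)
  have hcases : ∀ b' ∈ K, b' ∈ R → b' = b ∨ (b' ≠ b ∧ b' ∈ R1) ∨
      (b' ≠ b ∧ b' ∉ R1 ∧ b' ∈ R2) := by
    intro b' hb' hb'R
    by_cases h1 : b' = b
    · exact Or.inl h1
    · by_cases h2 : b' ∈ R1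
      · exact Or.inr (Or.inl ⟨h1, h2⟩)
      · right
        right
        refine ⟨h1, h2, ?_⟩
        have h3 : b' ∉ C := fun h => H.hK b' hb' (hCeven b' h)
        have h4 : b' ∉ S := by
          intro h
          apply h2
          rw [hR1, mem_sdiff]
          exact ⟨h, fun h5 => h3 (hIC h5)⟩
        rw [hR2, mem_sdiff, mem_insert, mem_union]
        exact ⟨hb'R, by tauto⟩
  set L : V → Finset V := fun b' => if b' = b then Lb else if b' ∈ R1 then L1 b' else L2 b'
    with hL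
  have hLeb : L b = Lb := by simp [hL]
  have hLe1 : ∀ b', b' ≠ b → b' ∈ R1 → L b' = L1 b' := fun b' h1 h2 => by simp [hL, h1, h2]
  have hLe2 : ∀ b', b' ≠ b → b' ∉ R1 → L b' = L2 b' := fun b' h1 h2 => by simp [hL, h1, h2]
  have hAvsub : Av ⊆ Q ∪ (Λ ∩ R) := by
    intro u hu
    rcases hAvΛ u hu with h | ⟨h, h'⟩
    · exact mem_union_left _ h
    · exact mem_union_right _ (mem_inter.2 ⟨h, hR1R h'⟩)
  -- leaves used by the three kinds of stars
  have hdb1 : ∀ b' ∈ K, b' ∈ R1 → Disjoint Lb (L1 b') := by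
    intro b' hb' h
    rw [disjoint_left]
    intro u hu hu'
    exact (mem_sdiff.1 (hLbA hu)).2 (mem_biUnion.2 ⟨b', mem_inter.2 ⟨hb', h⟩, hu'⟩)
  have hd2 : ∀ b' ∈ K, b' ∈ R2 → ∀ u ∈ L2 b', u ∉ Lb ∧ u ∉ U := by
    intro b' hb' h u hu
    rcases mem_union.1 ((hL2 b' hb' h).1 hu) with h1 | h1
    · rw [mem_sdiff] at h1
      exact ⟨h1.2, (mem_sdiff.1 h1.1).2⟩
    · rw [mem_inter] at h1
      have h3 : u ∉ Q := fun h4 => (hQ u h4).2.1 (hR2R h1.2)
      have h4 : u ∉ R1 := fun h4 => hR2S u (hR1S h4) h1.2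
      constructor
      · intro h5
        rcases hAvΛ u (hLbA h5) with h6 | h6
        · exact h3 h6
        · exact h4 h6.2
      · intro h5
        rcases mem_union.1 (hUsub h5) with h6 | h6
        · exact h3 h6
        · exact h4 (mem_inter.1 h6).2
  refine ⟨f4, L, ?_, ?_, ?_⟩
  · intro x hx
    rw [hf4R x hx, hf2R x hx]
  · intro b' hb' hb'R
    rcases hcases b' hb' hb'R with h | ⟨h1, h2⟩ | ⟨h1, h2, h3⟩
    · rw [h, hLeb]
      exact ⟨hLbA.trans hAvsub, hLbc, hstar⟩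
    · rw [hLe1 b' h1 h2]
      obtain ⟨a1, a2, a3⟩ := hL1 b' hb' h2
      refine ⟨?_, a2, a3.congr ?_ ?_ ?_⟩
      · intro u hu
        rcases mem_union.1 (a1 hu) with h3 | h3
        · exact mem_union_left _ h3
        · rw [mem_inter] at h3
          exact mem_union_right _ (mem_inter.2 ⟨h3.1, hR1R h3.2⟩)
      · intro y hy
        exact hf4S y (hSch b' (hR1S h2) y hy)
      · exact hf4S _ (hR1par b' h2)
      · intro u hu
        rcases mem_union.1 (a1 hu) with h3 | h3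
        · exact hf4R _ (hQ u h3).2.2
        · exact hf4S _ (hR1par u (mem_inter.1 h3).2)
    · rw [hLe2 b' h1 h2]
      obtain ⟨a1, a2, a3⟩ := hL2 b' hb' h3
      refine ⟨?_, a2, a3⟩
      intro u hu
      rcases mem_union.1 (a1 hu) with h4 | h4
      · exact hAvsub (mem_sdiff.1 h4).1
      · rw [mem_inter] at h4
        exact mem_union_right _ (mem_inter.2 ⟨h4.1, hR2R h4.2⟩)
  · intro b1 hb1 hb1R b2 hb2 hb2R hne
    rcases hcases b1 hb1 hb1R with h | ⟨h1, h2⟩ | ⟨h1, h2, h3⟩ <;>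
      rcases hcases b2 hb2 hb2R with h' | ⟨h1', h2'⟩ | ⟨h1', h2', h3'⟩
    · exact absurd (h.trans h'.symm) hne
    · rw [h, hLeb, hLe1 b2 h1' h2']
      exact hdb1 b2 hb2 h2'
    · rw [h, hLeb, hLe2 b2 h1' h2', disjoint_right]
      intro u hu
      exact (hd2 b2 hb2 h3' u hu).1
    · rw [h', hLeb, hLe1 b1 h1 h2]
      exact (hdb1 b1 hb1 h2).symm
    · rw [hLe1 b1 h1 h2, hLe1 b2 h1' h2']
      exact hL1d b1 hb1 h2 b2 hb2 h2' hne
    · rw [hLe1 b1 h1 h2, hLe2 b2 h1' h2', disjoint_right]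
      intro u hu hu'
      exact (hd2 b2 hb2 h3' u hu).2 (mem_biUnion.2 ⟨b1, mem_inter.2 ⟨hb1, h2⟩, hu'⟩)
    · rw [h', hLeb, hLe2 b1 h1 h2, disjoint_left]
      intro u hu
      exact (hd2 b1 hb1 h3 u hu).1
    · rw [hLe2 b1 h1 h2, hLe1 b2 h1' h2', disjoint_left]
      intro u hu hu'
      exact (hd2 b1 hb1 h3 u hu).2 (mem_biUnion.2 ⟨b2, mem_inter.2 ⟨hb2, h2'⟩, hu'⟩)
    · rw [hLe2 b1 h1 h2, hLe2 b2 h1' h2']
      exact hL2d b1 hb1 h3 b2 hb2 h3' hne

end Pool.Agent.Helper80.GH
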