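import Pool.Agent.Helper80.GH.Star

/-!
# Coordinate subspaces of `F_2^k`
-/

namespace Pool.Agent.Helper80.GH

open Finset

/-- The vectors supported on the first `j` coordinates. -/
def Vs (k j : ℕ) : AddSubgroup (Fin k → ZMod 2) where
  carrier := {x | ∀ i, j ≤ i.val → x i = 0}
  add_mem' := by
    intro x y hx hy i hi
    rw [Pi.add_apply, hx i hi, hy i hi, add_zero]
  zero_mem' := by
    intro i _
    rfl
  neg_mem' := by
    intro x hx i hi
    rw [Pi.neg_apply, hx i hi, neg_zero]

lemma mem_Vs {k j : ℕ} {x : Fin k → ZMod 2} : x ∈ Vs k j ↔ ∀ i : Fin k, j ≤ i.val → x i = 0 :=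
  Iff.rfl

lemma Vs_mono {k j j' : ℕ} (h : j ≤ j') : Vs k j ≤ Vs k j' := fun _ hx i hi => hx i (h.trans hi)

lemma card_Vs {k j : ℕ} (h : j ≤ k) : Nat.card (Vs k j) = 2 ^ j := by
  classical
  have e : Vs k j ≃ (Fin j → ZMod 2) :=
    { toFun := fun x i => x.1 (Fin.castLE h i)
      invFun := fun y => ⟨fun i => if h' : i.val < j then y ⟨i.val, h'⟩ else 0, by
        intro i hi
        exact dif_neg (by omega)⟩
      left_inv := by
        intro x
        apply Subtype.ext
        funext i
        by_cases h' : i.val < j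
        · simp only [dif_pos h']
          rfl
        · simp only [dif_neg h']
          exact (x.2 i (by omega)).symm
      right_inv := by
        intro y
        funext i
        have h' : (Fin.castLE h i).val < j := i.2
        simp only [dif_pos h']
        rfl }
  rw [Nat.card_congr e, Nat.card_eq_fintype_card, Fintype.card_fun, ZMod.card, Fintype.card_fin]

/-- The projection to the first `j` coordinates. -/
def lo (k j : ℕ) : (Fin k → ZMod 2) →+ (Fin k → ZMod 2) where
  toFun := fun x i => if i.val < j then x i else 0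
  map_zero' := by
    funext i
    simp
  map_add' := by
    intro x y
    funext i
    by_cases h : i.val < j <;> simp [h]

lemma lo_mem (k j : ℕ) (x : Fin k → ZMod 2) : lo k j x ∈ Vs k j := by
  intro i hi
  have : ¬ i.val < j := by omega
  simp [lo, this]

lemma lo_eq {k j : ℕ} {x : Fin k → ZMod 2} (hx : x ∈ Vs k j) : lo k j x = x := by
  funext i
  by_cases h : i.val < j
  · simp [lo, h]
  · simp only [lo, AddMonoidHom.coe_mk, ZeroHom.coe_mk, h, if_false]
    exact (hx i (by omega)).symm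

/-- A retraction which kills a given vector outside of the subspace. -/
lemma exists_retraction {k j : ℕ} (w : Fin k → ZMod 2) (hw : w ∉ Vs k j) :
    ∃ π : (Fin k → ZMod 2) →+ (Fin k → ZMod 2), (∀ x, π x ∈ Vs k j) ∧
      (∀ x ∈ Vs k j, π x = x) ∧ π w = 0 := by
  rw [mem_Vs] at hw
  push Not at hw
  obtain ⟨i, hi, hwi⟩ := hw
  have hwi1 : w i = 1 := by
    have h1 : ∀ a : ZMod 2, a ≠ 0 → a = 1 := by decide
    exact h1 _ hwi
  let ρ : (Fin k → ZMod 2) →+ (Fin k → ZMod 2) :=
    { toFun := fun x => lo k j x - fun i' => x i * lo k j w i'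
      map_zero' := by
        funext i'
        simp
      map_add' := by
        intro x y
        funext i'
        simp only [map_add, Pi.sub_apply, Pi.add_apply]
        ring }
  have hρ : ∀ x, ρ x = lo k j x - fun i' => x i * lo k j w i' := fun x => rfl
  refine ⟨ρ, ?_, ?_, ?_⟩
  · intro x i' hi'
    rw [hρ, Pi.sub_apply, lo_mem k j x i' hi', lo_mem k j w i' hi']
    ring
  · intro x hx
    rw [hρ, lo_eq hx]
    funext i'
    rw [Pi.sub_apply, hx i hi]
    ring
  · rw [hρ]
    funext i'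
    rw [Pi.sub_apply, hwi1, Pi.zero_apply]
    ring

/-- A hyperplane containing a given vector. -/
lemma exists_functional {k j : ℕ} (h2 : 2 ≤ j) (hj : j ≤ k) (ζ : Vs k j) :
    ∃ (φ : Vs k j →+ ZMod 2) (e : Vs k j), φ ζ = 0 ∧ φ e = 1 := by
  let i0 : Fin k := ⟨0, by omega⟩
  let i1 : Fin k := ⟨1, by omega⟩
  have h01 : i0 ≠ i1 := by
    intro h
    have := congrArg Fin.val h
    simp [i0, i1] at this
  let ev : Fin k → Vs k j →+ ZMod 2 := fun i =>
    (Pi.evalAddMonoidHom (fun _ : Fin k => ZMod 2) i).comp (Vs k j).subtype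
  have hev : ∀ i (x : Vs k j), ev i x = x.1 i := fun i x => rfl
  have he : ∀ i : Fin k, i.val < j → (Pi.single i 1 : Fin k → ZMod 2) ∈ Vs k j := by
    intro i hi i' hi'
    have : i' ≠ i := by
      rintro rfl
      omega
    simp [this]
  let e0 : Vs k j := ⟨Pi.single i0 1, he i0 (by simp only [i0]; omega)⟩
  let e1 : Vs k j := ⟨Pi.single i1 1, he i1 (by simp only [i1]; omega)⟩
  have hz : ∀ a : ZMod 2, a = 0 ∨ a = 1 := by decide
  rcases hz (ζ.1 i0) with h | h
  · refine ⟨ev i0, e0, h, ?_⟩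
    rw [hev]
    simp [e0]
  · rcases hz (ζ.1 i1) with h' | h'
    · refine ⟨ev i1, e1, h', ?_⟩
      rw [hev]
      simp [e1]
    · refine ⟨ev i0 + ev i1, e0, ?_, ?_⟩
      · rw [AddMonoidHom.add_apply, hev, hev, h, h']
        decide
      · rw [AddMonoidHom.add_apply, hev, hev]
        simp [e0, Pi.single_apply, h01.symm]

/-- Packing of translates of the subspaces. -/
lemma packing {V : Type*} [DecidableEq V] (k : ℕ) (j : V → ℕ) :
    ∀ (m : ℕ) (S : Finset V), S.card = m → (∀ b ∈ S, j b ≤ k) → ∑ b ∈ S, 2 ^ j b ≤ 2 ^ k →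
      ∃ s : V → (Fin k → ZMod 2), ∀ b ∈ S, ∀ b' ∈ S, b ≠ b' → ∀ v ∈ Vs k (j b),
        ∀ v' ∈ Vs k (j b'), s b + v ≠ s b' + v' := by
  classical
  intro m
  induction m with
  | zero =>
    intro S hS _ _
    rw [card_eq_zero] at hS
    subst hS
    exact ⟨fun _ => 0, by simp⟩
  | succ m ih =>
    intro S hS hjk hsum
    have hne : S.Nonempty := by
      rw [← card_pos]
      omega
    obtain ⟨b0, hb0, hmin⟩ := exists_min_image S j hne
    have hsum' := sum_erase_add S (fun b => 2 ^ j b) hb0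
    have hpos : 0 < 2 ^ j b0 := by positivity
    obtain ⟨s, hs⟩ := ih (S.erase b0) (by rw [card_erase_of_mem hb0]; omega)
      (fun b hb => hjk b (mem_of_mem_erase hb)) (by omega)
    -- an element outside of the other blocks
    obtain ⟨g, hg⟩ : ∃ g : Fin k → ZMod 2, ∀ b ∈ S.erase b0, ∀ v ∈ Vs k (j b), g ≠ s b + v := by
      have h1 : ((S.erase b0).biUnion fun b => (univ.filter fun v => v ∈ Vs k (j b)).image
          fun v => s b + v).card < (univ : Finset (Fin k → ZMod 2)).card := by
        rw [card_univ, Fintype.card_fun, ZMod.card, Fintype.card_fin]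
        refine lt_of_le_of_lt card_biUnion_le ?_
        refine lt_of_le_of_lt (sum_le_sum (g := fun b => 2 ^ j b) ?_) (by omega)
        intro b hb
        refine card_image_le.trans ?_
        rw [← Fintype.card_subtype, ← Nat.card_eq_fintype_card]
        exact (card_Vs (hjk b (mem_of_mem_erase hb))).le
      obtain ⟨g, _, hg⟩ := exists_mem_notMem_of_card_lt_card h1
      refine ⟨g, fun b hb v hv h => hg ?_⟩
      rw [mem_biUnion]
      exact ⟨b, hb, mem_image.2 ⟨v, mem_filter.2 ⟨mem_univ _, hv⟩, h.symm⟩⟩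
    refine ⟨fun b => if b = b0 then g else s b, ?_⟩
    intro b hb b' hb' hbb v hv v' hv'
    by_cases h1 : b = b0 <;> by_cases h2 : b' = b0
    · exact absurd (h1.trans h2.symm) hbb
    · simp only [h1, if_true, h2, if_false]
      intro h
      apply hg b' (mem_erase.2 ⟨h2, hb'⟩) (v' - v)
      · apply (Vs k (j b')).sub_mem hv'
        rw [h1] at hv
        exact Vs_mono (hmin b' hb') hv
      · rw [eq_sub_of_add_eq h]
        abel
    · simp only [h1, if_false, h2, if_true]
      intro h
      apply hg b (mem_erase.2 ⟨h1, hb⟩) (v - v')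
      · apply (Vs k (j b)).sub_mem hv
        rw [h2] at hv'
        exact Vs_mono (hmin b hb) hv'
      · rw [eq_sub_of_add_eq h.symm]
        abel
    · simp only [h1, if_false, h2]
      exact hs b (mem_erase.2 ⟨h1, hb⟩) b' (mem_erase.2 ⟨h2, hb'⟩) hbb v hv v' hv'

/-- The problem of one star in a coordinate subspace. -/
lemma star_block {V : Type*} [DecidableEq V] {k j : ℕ} (hj : j ≤ k) (C L : Finset V)
    (hcard : C.card + 1 + L.card = 2 ^ j) (hL : 2 * L.card < 2 ^ j) (par : V → V)
    (ζ : Fin k → ZMod 2) (hζ : ζ ∈ Vs k j) (x : V → Fin k → ZMod 2)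
    (hx : ∀ u, x u ∈ Vs k j) :
    ∃ v κ : V → Fin k → ZMod 2, (∀ y, v y ∈ Vs k j) ∧ (∀ u, κ u ∈ Vs k j) ∧
      (∀ y ∈ C, v y ≠ ζ) ∧ Set.InjOn v C ∧
      (∀ u ∈ L, ∀ u' ∈ L, κ u - (if par u ∈ C then v (par u) else x u) =
        κ u' - (if par u' ∈ C then v (par u') else x u') → u = u') ∧
      (∀ u ∈ L, κ u ≠ (if par u ∈ C then v (par u) else x u)) ∧
      ∀ w ∈ Vs k j, w = ζ ∨ (∃ y ∈ C, v y = w) ∨ ∃ u ∈ L, κ u = w := by
  classical
  have hW : Fintype.card (Vs k j) = 2 ^ j := by
    rw [← Nat.card_eq_fintype_card]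
    exact card_Vs hj
  have h2j : L.Nonempty → 2 ≤ j := by
    intro h
    have h1 := card_pos.2 h
    by_contra h2
    have h3 : j = 0 ∨ j = 1 := by omega
    rcases h3 with h3 | h3 <;> subst h3 <;> simp at hL <;> omega
  obtain ⟨v, κ, h1, h2, h3, h4, h5⟩ := star_solve (W := Vs k j) ⟨ζ, hζ⟩ C L
    (fun h => exists_functional (h2j h) hj _) (by rw [hW]; exact hcard) (by rw [hW]; exact hL)
    par (fun u => ⟨x u, hx u⟩)
  have hif : ∀ u, ((if par u ∈ C then v (par u) else ⟨x u, hx u⟩ : Vs k j) : Fin k → ZMod 2) =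
      if par u ∈ C then (v (par u) : Fin k → ZMod 2) else x u := by
    intro u
    by_cases h : par u ∈ C
    · simp only [h, if_true]
    · simp only [h, if_false]
  refine ⟨fun y => v y, fun u => κ u, fun y => (v y).2, fun u => (κ u).2, ?_, ?_, ?_, ?_, ?_⟩
  · intro y hy h
    exact h1 y hy (Subtype.ext h)
  · intro y hy y' hy' h
    exact h2 hy hy' (Subtype.ext h)
  · intro u hu u' hu' h
    apply h3 u hu u' hu'
    apply Subtype.ext
    push_cast
    rw [hif, hif]
    exact h
  · intro u hu h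
    apply h4 u hu
    apply Subtype.ext
    rw [hif]
    exact h
  · intro w hw
    rcases h5 ⟨w, hw⟩ with h | ⟨y, hy, h⟩ | ⟨u, hu, h⟩
    · exact Or.inl (congrArg Subtype.val h)
    · exact Or.inr (Or.inl ⟨y, hy, congrArg Subtype.val h⟩)
    · exact Or.inr (Or.inr ⟨u, hu, congrArg Subtype.val h⟩)

end Pool.Agent.Helper80.GH
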